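import Pool.Agent.Lib.MP_6498db_nt.Geo
import Pool.Agent.Lib.MP_6498db_nt.Jac

/-! WALSH, block E, row ArA: the number `A_l(w) = (w^l - 1)/(w - 1)`, `l` an odd prime. -/

set_option autoImplicit false

namespace Pool.Agent.Wal

open Pool.Agent.Lib.MP_6498db_nt

/-- Proof. `p ∣ w^l - 1` (`geo_mul`), so in `ZMod p` the order of `w` divides `l`: if it is `1` then `p ∣ w - 1`, `geo w l ≡ l`
modulo `p` (`geo_sub`) and `p ∣ l`, `p = l`; if it is `l` then `l ∣ p - 1` (`ZMod.orderOf_dvd_card_sub_one` or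
`orderOf_dvd_of_pow_eq_one` and `ZMod.pow_card_sub_one_eq_one`), and `p > l ≥ 2` gives `p % l = 1`. -/
theorem geo_prime {w : ℤ} {l p : ℕ} (hl : l.Prime) (hp : p.Prime) (h : (p : ℤ) ∣ geo w l) :
    p = l ∨ p % l = 1 := by
  have := Fact.mk hp
  have hw : (w : ZMod p) ^ l = 1 := by
    have h1 : (p : ℤ) ∣ w ^ l - 1 := by
      rw [← geo_mul]
      exact Dvd.dvd.mul_left h _
    have h2 := (ZMod.intCast_zmod_eq_zero_iff_dvd (w ^ l - 1) p).2 h1
    push_cast at h2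
    exact sub_eq_zero.1 h2
  have hord : orderOf (w : ZMod p) ∣ l := orderOf_dvd_of_pow_eq_one hw
  rcases (Nat.dvd_prime hl).1 hord with h1 | h1
  · left
    rw [orderOf_eq_one_iff] at h1
    have h2 : (p : ℤ) ∣ w - 1 := by
      rw [← ZMod.intCast_zmod_eq_zero_iff_dvd]
      push_cast
      rw [h1, sub_self]
    have h3 : (p : ℤ) ∣ geo w l - l := h2.trans (geo_sub w l)
    have h4 : (p : ℤ) ∣ l := by
      have h5 := dvd_sub h h3
      rwa [sub_sub_cancel] at h5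
    exact (Nat.prime_dvd_prime_iff_eq hp hl).1 (Int.natCast_dvd_natCast.1 h4)
  · right
    have hw0 : (w : ZMod p) ≠ 0 := by
      intro h0
      rw [h0, zero_pow hl.ne_zero] at hw
      exact zero_ne_one hw
    have h2 : l ∣ p - 1 := by
      rw [← h1]
      exact ZMod.orderOf_dvd_card_sub_one hw0
    obtain ⟨c, hc⟩ := h2
    have hp2 := hp.two_le
    have h3 : p = 1 + l * c := by omega
    rw [h3, Nat.add_mul_mod_self_left]
    exact Nat.mod_eq_of_lt hl.one_lt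

/-- From `geo_sub`. -/
theorem geo_modEq {w : ℤ} {l p : ℕ} (h : (p : ℤ) ∣ w - 1) : geo w l ≡ (l : ℤ) [ZMOD p] :=
  (Int.modEq_iff_dvd.2 (h.trans (geo_sub w l))).symm

/-- `dvd_sub_one` of `Jac.lean` and `geo_sub`. -/
theorem geo_dvd_iff {w : ℤ} {l : ℕ} (hl : l.Prime) : (l : ℤ) ∣ geo w l ↔ (l : ℤ) ∣ w - 1 := by
  refine ⟨dvd_sub_one hl, fun h => ?_⟩
  have h1 := dvd_add (h.trans (geo_sub w l)) (dvd_refl (l : ℤ))
  rwa [sub_add_cancel] at h1

/-- Proof. If `l ∣ geo w l` then `w = 1 + l t`, `w^i ≡ 1 + i l t` modulo `l^2` (induction), so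
`geo w l ≡ l + l t l (l-1)/2 ≡ l` modulo `l^2` (`l` is odd). -/
theorem geo_sq {w : ℤ} {l : ℕ} (hl : l.Prime) (h2 : l ≠ 2) : ¬ (l : ℤ) ^ 2 ∣ geo w l := by
  intro h
  have h1 : (l : ℤ) ∣ geo w l := (Dvd.intro_left ((l : ℤ) ^ 1) (by ring)).trans h
  obtain ⟨t, ht⟩ := (geo_dvd_iff hl).1 h1
  have hw : w = 1 + l * t := by omega
  have hpow : ∀ k : ℕ, (l : ℤ) ^ 2 ∣ w ^ k - (1 + k * (l * t)) := by
    intro k
    induction k with
    | zero => simp
    | succ k ih =>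
      obtain ⟨a, ha⟩ := ih
      refine ⟨k * t ^ 2 + a * (1 + l * t), ?_⟩
      have e : w ^ k = (1 + k * (l * t)) + (l : ℤ) ^ 2 * a := by omega
      rw [pow_succ, e, hw]
      push_cast
      ring
  have hgeo : ∀ k : ℕ, (l : ℤ) ^ 2 ∣ 2 * geo w k - (2 * k + l * t * (k * (k - 1))) := by
    intro k
    induction k with
    | zero => simp [geo_zero]
    | succ k ih =>
      obtain ⟨a, ha⟩ := ih
      obtain ⟨b, hb⟩ := hpow k
      refine ⟨a + 2 * b, ?_⟩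
      rw [geo_succ]
      push_cast
      linear_combination ha + 2 * hb
  obtain ⟨a, ha⟩ := hgeo l
  obtain ⟨b, hb⟩ := h
  have h3 : (l : ℤ) * 2 = l * (l * (2 * b - a - t * (l - 1))) := by
    linear_combination (-1 : ℤ) * ha + 2 * hb
  have hl0 : (l : ℤ) ≠ 0 := by exact_mod_cast hl.ne_zero
  have h4 : (2 : ℤ) = l * (2 * b - a - t * (l - 1)) := mul_left_cancel₀ hl0 h3
  have h5 : (l : ℤ) ∣ (2 : ℕ) := ⟨_, h4⟩
  exact h2 ((Nat.prime_dvd_prime_iff_eq hl Nat.prime_two).1 (Int.natCast_dvd_natCast.1 h5))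

/-- `(x^2 - 1) geo (x^2) l = x^(2l) - 1 = (x^l - 1)(x^l + 1)`, `x^l + 1 = (x + 1) geo (-x) l`
(for `x^2 = 1` compute directly, or prove the identity for polynomials; only `x ≥ 2` is needed). -/
theorem geo_mul_neg {x : ℤ} {l : ℕ} (hx : 2 ≤ x) (hl : Odd l) :
    geo (x ^ 2) l = geo x l * geo (-x) l := by
  have h1 := geo_mul (x ^ 2) l
  have h2 := geo_mul x l
  have h3 := geo_mul (-x) l
  rw [hl.neg_pow] at h3
  have h4 : x ^ 2 - 1 ≠ 0 := by nlinarith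
  apply mul_left_cancel₀ h4
  have h5 : (x ^ 2) ^ l = x ^ l * x ^ l := by rw [← pow_mul, ← pow_add]; congr 1; ring
  rw [h5] at h1
  rw [h1]
  have h6 : (x ^ 2 - 1) * (geo x l * geo (-x) l) =
      -(((x - 1) * geo x l) * ((-x - 1) * geo (-x) l)) := by ring
  rw [h6, h2, h3]
  ring

private theorem geo_odd_aux {l : ℕ} (hl : Odd l) (y : ℤ) : ¬ (2 : ℤ) ∣ geo y l := by
  intro hy
  rcases Int.even_or_odd y with he | ho
  · have h1 := geo_mul y l
    have h2 : (2 : ℤ) ∣ y ^ l := dvd_pow he.two_dvd hl.pos.ne'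
    have h3 : (2 : ℤ) ∣ y ^ l - 1 := by
      rw [← h1]
      exact Dvd.dvd.mul_left hy _
    omega
  · have h1 : (2 : ℤ) ∣ y - 1 := by
      obtain ⟨c, hc⟩ := ho
      exact ⟨c, by omega⟩
    have h2 := h1.trans (geo_sub y l)
    obtain ⟨c, hc⟩ := hl
    omega

/-- Proof. A common prime divides `x^l - 1` and `x^l + 1`, so it is `2`; but `geo x l` is odd (a sum of an odd number of
powers of `x`: if `x` is even it is `1` mod `2`, if `x` is odd it is `l` mod `2`). -/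
theorem geo_coprime {x : ℤ} {l : ℕ} (hl : Odd l) : IsCoprime (geo x l) (geo (-x) l) := by
  rw [Int.isCoprime_iff_gcd_eq_one]
  by_contra hne
  obtain ⟨p, hp, hpd⟩ := Nat.exists_prime_and_dvd hne
  have hp1 : (p : ℤ) ∣ geo x l := (Int.natCast_dvd_natCast.2 hpd).trans (Int.gcd_dvd_left _ _)
  have hp2 : (p : ℤ) ∣ geo (-x) l := (Int.natCast_dvd_natCast.2 hpd).trans (Int.gcd_dvd_right _ _)
  have h1 : (p : ℤ) ∣ x ^ l - 1 := by
    rw [← geo_mul]
    exact Dvd.dvd.mul_left hp1 _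
  have h2 : (p : ℤ) ∣ (-x) ^ l - 1 := by
    rw [← geo_mul]
    exact Dvd.dvd.mul_left hp2 _
  rw [hl.neg_pow] at h2
  have h3 : (p : ℤ) ∣ (2 : ℕ) := by
    have h4 := (dvd_add h1 h2).neg_right
    have e : -(x ^ l - 1 + (-x ^ l - 1)) = ((2 : ℕ) : ℤ) := by push_cast; ring
    rwa [e] at h4
  have h5 : p = 2 := (Nat.prime_dvd_prime_iff_eq hp Nat.prime_two).1 (Int.natCast_dvd_natCast.1 h3)
  rw [h5] at hp1
  exact geo_odd_aux hl x hp1

/-- size, for `w ≤ -2` and `w ≥ 2`, `l ≥ 3` odd. Proof. `(w - 1) * geo w l = w^l - 1` and `|w^l - 1| ≥ |w|^l - 1 > |w - 1|`. -/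
theorem geo_one_lt {w : ℤ} {l : ℕ} (hw : 2 ≤ |w|) (hl : Odd l) (h3 : 3 ≤ l) : 1 < geo w l := by
  have hpos := geo_pos w hl
  by_contra hlt
  have h1 : geo w l = 1 := by omega
  have h2 := geo_mul w l
  rw [h1, mul_one] at h2
  have h4 : |w| ^ l = |w| := by
    rw [← abs_pow]
    congr 1
    omega
  have h5 : |w| ^ 2 ≤ |w| ^ l := pow_le_pow_right₀ (by omega) (by omega)
  nlinarith

end Pool.Agent.Wal
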