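import Pool.Agent.Lib.MP_6498db_nt.W.RDefs

/-! WALSH, block E (exponents `2 l`, `l ≥ 5` prime): definitions. DO NOT EDIT (owner helper58). -/

set_option autoImplicit false

namespace Pool.Agent.Wal

open Finset

/-- the sum of `1/p` over the primes `p ≤ X`, `p ≡ 1` mod `l` -/
noncomputable def SL (l X : ℕ) : ℝ := ∑ p ∈ (prs X).filter (fun p => p % l = 1), (1 : ℝ) / p

/-- the conditions coming from the exponents `l` and `2 l` -/
structure FitE (l c a b : ℕ) : Prop where
  one : 1 < b
  mem : ∀ p : ℕ, p.Prime → p ∣ b → p % l = 1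
  ca : ∀ p : ℕ, p.Prime → p ≠ 2 → p ∣ a → jacobiSym ((c * b : ℕ) : ℤ) p = 1

/-- the datum of the exponents `l` and `2 l` -/
def datE (l c : ℕ) : Dat := ⟨c, fun p => p % l = 1, fun _ => True, fun _ => 1, fun _ => False, fun _ => 1⟩

/-- the datum for a prime `b` -/
def datQ : Dat := ⟨1, fun _ => True, fun _ => True, fun _ => 1, fun _ => False, fun _ => 1⟩

/-- the weights of the datum `datE l c` -/
noncomputable def lamE (l p : ℕ) : ℝ := if p % l = 1 then 2 / 3 else 2

end Pool.Agent.Wal
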