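import Mathlib

/-! The equation `w ^ n - 1 = (w - 1) * z ^ 2` for odd `n ≥ 3`: only `w = 3`, `n = 5` when `2 ≤ |w|`. -/

open Polynomial

namespace WE

/-- The value at the integer `c` of the Chebyshev polynomial of the first kind. -/
noncomputable def tt (c : ℤ) (n : ℕ) : ℤ := (Polynomial.Chebyshev.T ℤ n).eval c

/-- The value at the integer `c` of the Chebyshev polynomial of the fourth kind. -/
def vv (c : ℤ) : ℕ → ℤ
  | 0 => 1
  | 1 => 2 * c + 1
  | n + 2 => 2 * c * vv c (n + 1) - vv c n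

theorem tt_zero (c : ℤ) : tt c 0 = 1 := by simp [tt]

theorem tt_one (c : ℤ) : tt c 1 = c := by simp [tt]

theorem tt_add_two (c : ℤ) (n : ℕ) : tt c (n + 2) = 2 * c * tt c (n + 1) - tt c n := by
  unfold tt
  have h := Polynomial.Chebyshev.T_add_two ℤ (n : ℤ)
  push_cast
  rw [h]
  simp

theorem tt_two (c : ℤ) : tt c 2 = 2 * c ^ 2 - 1 := by
  rw [show (2 : ℕ) = 0 + 2 from rfl, tt_add_two, tt_zero, tt_one]
  ring

theorem tt_three (c : ℤ) : tt c 3 = 4 * c ^ 3 - 3 * c := by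
  rw [show (3 : ℕ) = 1 + 2 from rfl, tt_add_two, tt_two, tt_one]
  ring

theorem tt_mul (c : ℤ) (m n : ℕ) : tt c (m * n) = tt (tt c n) m := by
  unfold tt
  have h := Polynomial.Chebyshev.T_mul ℤ (m : ℤ) (n : ℤ)
  push_cast
  rw [h, Polynomial.eval_comp]

theorem tt_sub_one_dvd (c : ℤ) (n : ℕ) : c - 1 ∣ tt c n - 1 := by
  have h := Polynomial.sub_dvd_eval_sub c 1 (Polynomial.Chebyshev.T ℤ n)
  rwa [Polynomial.Chebyshev.T_eval_one] at h

theorem tt_neg (c : ℤ) (n : ℕ) : tt (-c) n = (-1) ^ n * tt c n := by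
  induction n using Nat.twoStepInduction with
  | zero => simp [tt_zero]
  | one => simp [tt_one]
  | more n h1 h2 =>
    rw [tt_add_two, tt_add_two, h1, h2]
    ring

theorem tt_eval_neg_one (n : ℕ) : tt (-1) n = (-1) ^ n := by
  rw [tt_neg]
  have : tt 1 n = 1 := by
    unfold tt
    exact Polynomial.Chebyshev.T_eval_one ℤ _
  rw [this, mul_one]

theorem tt_add_one_dvd (c : ℤ) (n : ℕ) : c + 1 ∣ tt c n ^ 2 - 1 := by
  have h := Polynomial.sub_dvd_eval_sub c (-1) (Polynomial.Chebyshev.T ℤ n)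
  have h1 : (Polynomial.Chebyshev.T ℤ n).eval (-1 : ℤ) = (-1) ^ n := tt_eval_neg_one n
  rw [h1, sub_neg_eq_add] at h
  have h2 : tt c n ^ 2 - 1 = (tt c n - (-1) ^ n) * (tt c n + (-1) ^ n) := by
    have : ((-1 : ℤ) ^ n) ^ 2 = 1 := by rw [← pow_mul, mul_comm, pow_mul]; simp
    linear_combination this
  rw [h2]
  exact Dvd.dvd.mul_right h _

/-- The squares and the products of neighbours. -/
theorem vv_sq (c : ℤ) (k : ℕ) :
    (c - 1) * vv c k ^ 2 = tt c (2 * k + 1) - 1 ∧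
      (c - 1) * (vv c k * vv c (k + 1)) = tt c (2 * k + 2) - c ∧
      (c - 1) * vv c (k + 1) ^ 2 = tt c (2 * k + 3) - 1 := by
  induction k with
  | zero =>
    refine ⟨?_, ?_, ?_⟩
    · simp [vv, tt_one]
    · simp only [vv, mul_zero, zero_add, tt_two]
      ring
    · simp only [vv, mul_zero, zero_add, tt_three]
      ring
  | succ k ih =>
    obtain ⟨hA, hB, hC⟩ := ih
    have e4 : tt c (2 * k + 4) = 2 * c * tt c (2 * k + 3) - tt c (2 * k + 2) :=
      tt_add_two c (2 * k + 2)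
    have e5 : tt c (2 * k + 5) = 2 * c * tt c (2 * k + 4) - tt c (2 * k + 3) :=
      tt_add_two c (2 * k + 3)
    have e3 : tt c (2 * k + 3) = 2 * c * tt c (2 * k + 2) - tt c (2 * k + 1) :=
      tt_add_two c (2 * k + 1)
    have ev : vv c (k + 1 + 1) = 2 * c * vv c (k + 1) - vv c k := rfl
    refine ⟨?_, ?_, ?_⟩
    · rw [hC]
      ring_nf
    · rw [ev, show 2 * (k + 1) + 2 = 2 * k + 4 by ring, e4]
      linear_combination 2 * c * hC - hB
    · rw [ev, show 2 * (k + 1) + 3 = 2 * k + 5 by ring, e5, e4]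
      linear_combination (4 * c ^ 2) * hC - (4 * c) * hB + hA + e3

theorem vv_sq' (c : ℤ) (k : ℕ) : (c - 1) * vv c k ^ 2 = tt c (2 * k + 1) - 1 := (vv_sq c k).1

/-- Expansion at `1` to first order. -/
theorem vv_first (t : ℤ) (k : ℕ) : ∃ u, vv (1 + t) k = (2 * k + 1) + t * u := by
  induction k using Nat.twoStepInduction with
  | zero => exact ⟨0, by simp [vv]⟩
  | one => exact ⟨2, by simp [vv]; ring⟩
  | more k h1 h2 =>
    obtain ⟨u1, h1⟩ := h1
    obtain ⟨u2, h2⟩ := h2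
    refine ⟨2 * (1 + t) * u2 - u1 + 2 * (2 * (k + 1) + 1), ?_⟩
    rw [vv, h1, h2]
    push_cast
    ring

/-- Expansion at `1` to second order. -/
theorem vv_second (t : ℤ) (k : ℕ) : ∃ u, 3 * vv (1 + t) k =
    3 * (2 * k + 1) + k * (k + 1) * (2 * k + 1) * t + t ^ 2 * u := by
  induction k using Nat.twoStepInduction with
  | zero => exact ⟨0, by simp [vv]⟩
  | one => exact ⟨0, by simp [vv]; ring⟩
  | more k h1 h2 =>
    obtain ⟨u1, h1⟩ := h1
    obtain ⟨u2, h2⟩ := h2
    refine ⟨2 * (1 + t) * u2 - u1 + 2 * ((k + 1) * (k + 1 + 1) * (2 * (k + 1) + 1)), ?_⟩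
    rw [vv, mul_sub, show 3 * (2 * (1 + t) * vv (1 + t) (k + 1)) =
      2 * (1 + t) * (3 * vv (1 + t) (k + 1)) by ring, h1, h2]
    push_cast
    ring

theorem vv_growth {b : ℤ} (hb : 3 ≤ |b|) (k : ℕ) :
    5 * |vv b k| ≤ |vv b (k + 1)| := by
  induction k with
  | zero =>
    simp only [vv, abs_one, mul_one]
    rcases abs_cases b with ⟨h, _⟩ | ⟨h, _⟩ <;> rcases abs_cases (2 * b + 1) with ⟨h', _⟩ | ⟨h', _⟩ <;>
      omega
  | succ k ih =>
    have ev : vv b (k + 1 + 1) = 2 * b * vv b (k + 1) - vv b k := rfl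
    rw [ev]
    have h1 : |2 * b * vv b (k + 1)| - |vv b k| ≤ |2 * b * vv b (k + 1) - vv b k| :=
      abs_sub_abs_le_abs_sub _ _
    rw [abs_mul, abs_mul, abs_two] at h1
    have h2 : 3 * |vv b (k + 1)| ≤ |b| * |vv b (k + 1)| :=
      mul_le_mul_of_nonneg_right hb (abs_nonneg _)
    have h3 := abs_nonneg (vv b k)
    have h4 := abs_nonneg (vv b (k + 1))
    nlinarith

theorem vv_big {b : ℤ} (hb : 3 ≤ |b|) (k : ℕ) : (5 : ℤ) ^ k ≤ |vv b k| := by
  induction k with
  | zero => simp [vv]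
  | succ k ih =>
    have := vv_growth hb k
    rw [pow_succ]
    linarith

theorem tt_growth {c : ℤ} (hc : 3 ≤ |c|) (n : ℕ) : |tt c n| ≤ |tt c (n + 1)| := by
  induction n with
  | zero =>
    rw [tt_zero, zero_add, tt_one, abs_one]
    omega
  | succ n ih =>
    rw [tt_add_two]
    have h1 : |2 * c * tt c (n + 1)| - |tt c n| ≤ |2 * c * tt c (n + 1) - tt c n| :=
      abs_sub_abs_le_abs_sub _ _
    rw [abs_mul, abs_mul, abs_two] at h1
    have h2 : 3 * |tt c (n + 1)| ≤ |c| * |tt c (n + 1)| :=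
      mul_le_mul_of_nonneg_right hc (abs_nonneg _)
    have h4 := abs_nonneg (tt c (n + 1))
    nlinarith

theorem tt_big {c : ℤ} (hc : 3 ≤ |c|) {n : ℕ} (hn : 1 ≤ n) : 3 ≤ |tt c n| := by
  induction n, hn using Nat.le_induction with
  | base => rwa [tt_one]
  | succ n _ ih => exact ih.trans (tt_growth hc n)

/-- The solutions of the Pell equation. -/
theorem pell_tt {a : ℕ} (a1 : 1 < a) (n : ℕ) : (Pell.xn a1 n : ℤ) = tt a n := by
  induction n using Nat.twoStepInduction with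
  | zero => simp [tt_zero]
  | one => simp [tt_one]
  | more n h1 h2 =>
    rw [tt_add_two, ← h1, ← h2]
    have h := Pell.xn_succ_succ a1 n
    have h' : ((Pell.xn a1 (n + 2) : ℕ) : ℤ) + (Pell.xn a1 n : ℤ) =
        2 * a * (Pell.xn a1 (n + 1) : ℤ) := by exact_mod_cast h
    linarith

/-- The product formula. -/
theorem vv_mul {c : ℤ} (hc : c ≠ 1) (i j k : ℕ) (h : 2 * k + 1 = (2 * j + 1) * (2 * i + 1)) :
    vv c k ^ 2 = vv c i ^ 2 * vv (tt c (2 * i + 1)) j ^ 2 := by
  have h1 := vv_sq' c k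
  have h2 := vv_sq' c i
  have h3 := vv_sq' (tt c (2 * i + 1)) j
  rw [h, tt_mul, ← h3, ← h2] at h1
  have h4 : c - 1 ≠ 0 := sub_ne_zero.2 hc
  have h5 : (c - 1) * vv c k ^ 2 = (c - 1) * (vv c i ^ 2 * vv (tt c (2 * i + 1)) j ^ 2) := by
    rw [h1]
    ring
  exact mul_left_cancel₀ h4 h5

/-- The outer factor. -/
theorem outer {w b : ℤ} {R j : ℕ} (hb : 3 ≤ |b|) (hwb : w ∣ b - 1) (hp : (2 * j + 1).Prime)
    (hd : vv b j ∣ w ^ R) : 2 * j + 1 = 3 ∧ ∀ q : ℕ, q.Prime → (q : ℤ) ∣ vv b j → q = 3 := by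
  have hj : 1 ≤ j := by
    rcases Nat.eq_zero_or_pos j with rfl | h
    · exact absurd hp (by norm_num)
    · exact h
  obtain ⟨t, ht⟩ : ∃ t, b = 1 + t := ⟨b - 1, by ring⟩
  have hwt : w ∣ t := by rwa [ht, add_sub_cancel_left] at hwb
  have hq : ∀ q : ℕ, q.Prime → (q : ℤ) ∣ vv b j → q = 2 * j + 1 ∧ (q : ℤ) ∣ t := by
    intro q hqp hqd
    have h1 : (q : ℤ) ∣ w := (Nat.prime_iff_prime_int.1 hqp).dvd_of_dvd_pow (hqd.trans hd)
    have h2 : (q : ℤ) ∣ t := h1.trans hwt
    obtain ⟨u, hu⟩ := vv_first t j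
    rw [ht, hu] at hqd
    have h3 : (q : ℤ) ∣ 2 * j + 1 := (dvd_add_left (h2.mul_right u)).1 hqd
    have h4 : q ∣ 2 * j + 1 := by exact_mod_cast h3
    exact ⟨(Nat.prime_dvd_prime_iff_eq hqp hp).1 h4, h2⟩
  have hbig := vv_big hb j
  have h5j : (5 : ℤ) ^ 1 ≤ 5 ^ j := pow_le_pow_right₀ (by norm_num) hj
  have hne : (vv b j).natAbs ≠ 1 := by
    intro h
    have : |vv b j| = 1 := by rw [← Int.natCast_natAbs, h]; rfl
    rw [this] at hbig
    omega
  obtain ⟨q, hqp, hqd⟩ := Nat.exists_prime_and_dvd hne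
  have hqd' : (q : ℤ) ∣ vv b j := Int.natCast_dvd.2 hqd
  obtain ⟨hqe, hqt⟩ := hq q hqp hqd'
  have hpt : ((2 * j + 1 : ℕ) : ℤ) ∣ t := by rwa [hqe] at hqt
  have h3 : 2 * j + 1 = 3 := by
    by_contra h3
    set p := 2 * j + 1 with hpdef
    have hpz : Prime (p : ℤ) := Nat.prime_iff_prime_int.1 hp
    have hn2 : ¬ (p : ℤ) ^ 2 ∣ vv b j := by
      intro hp2
      obtain ⟨u, hu⟩ := vv_second t j
      rw [← ht] at hu
      have e1 : (p : ℤ) ^ 2 ∣ 3 * vv b j := hp2.mul_left 3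
      have e2 : (p : ℤ) ^ 2 ∣ t ^ 2 * u := (pow_dvd_pow_of_dvd hpt 2).mul_right u
      have e3 : (p : ℤ) ^ 2 ∣ j * (j + 1) * (2 * j + 1) * t := by
        have : (j : ℤ) * (j + 1) * (2 * j + 1) * t = (j * (j + 1)) * ((p : ℤ) * t) := by
          rw [hpdef]
          push_cast
          ring
        rw [this, sq]
        exact (mul_dvd_mul_left _ hpt).mul_left _
      rw [hu] at e1
      have e4 := (dvd_add_left e2).1 e1
      have e5 := (dvd_add_left e3).1 e4
      have e6 : (p : ℤ) * p ∣ p * 3 := by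
        have : 3 * (2 * (j : ℤ) + 1) = p * 3 := by rw [hpdef]; push_cast; ring
        rw [this] at e5
        rwa [← sq]
      have e7 : (p : ℤ) ∣ 3 := (mul_dvd_mul_iff_left hpz.ne_zero).1 e6
      have e8 : p ∣ 3 := by exact_mod_cast e7
      exact h3 ((Nat.prime_dvd_prime_iff_eq hp Nat.prime_three).1 e8)
    have h1 : (vv b j).natAbs = p ^ ((vv b j).natAbs).primeFactorsList.length := by
      refine Nat.eq_prime_pow_of_unique_prime_dvd ?_ ?_
      · intro h
        have : vv b j = 0 := Int.natAbs_eq_zero.1 h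
        rw [this, abs_zero] at hbig
        omega
      · intro d hd1 hd2
        exact (hq d hd1 (Int.natCast_dvd.2 hd2)).1
    have h2 : ((vv b j).natAbs).primeFactorsList.length < 2 := by
      by_contra hlt
      refine hn2 ?_
      have : p ^ 2 ∣ (vv b j).natAbs := by
        rw [h1]
        exact pow_dvd_pow _ (not_lt.1 hlt)
      have := Int.natCast_dvd.2 this
      exact_mod_cast this
    have h4 : (vv b j).natAbs ≤ p := by
      rw [h1]
      calc p ^ ((vv b j).natAbs).primeFactorsList.length ≤ p ^ 1 :=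
            Nat.pow_le_pow_right hp.pos (by omega)
        _ = p := pow_one p
    have h5 : (5 : ℤ) ^ j ≤ p := by
      refine hbig.trans ?_
      rw [← Int.natCast_natAbs]
      exact_mod_cast h4
    have h6 : 2 * j + 1 < 5 ^ j := by
      clear * - hj
      induction j, hj using Nat.le_induction with
      | base => norm_num
      | succ n hn ih =>
        rw [pow_succ]
        omega
    have h7 : (5 : ℕ) ^ j ≤ p := by exact_mod_cast h5
    omega
  refine ⟨h3, fun q' hq1 hq2 => ?_⟩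
  rw [(hq q' hq1 hq2).1, h3]

/-- All primes involved are `3`. -/
theorem all_three {w : ℤ} (hw : 2 ≤ |w|) {R : ℕ} (k : ℕ) (hd : vv (1 - 2 * w) k ∣ w ^ R) :
    (∀ q : ℕ, q.Prime → q ∣ 2 * k + 1 → q = 3) ∧
      ∀ q : ℕ, q.Prime → (q : ℤ) ∣ vv (1 - 2 * w) k → q = 3 := by
  induction k using Nat.strong_induction_on with
  | _ k ih =>
    rcases Nat.eq_zero_or_pos k with rfl | hk
    · refine ⟨fun q hq h => ?_, fun q hq h => ?_⟩
      · exact absurd (Nat.dvd_one.1 (by simpa using h)) hq.one_lt.ne'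
      · have : q ∣ 1 := by
          have h' : (q : ℤ) ∣ 1 := by simpa [vv] using h
          exact_mod_cast h'
        exact absurd (Nat.dvd_one.1 this) hq.one_lt.ne'
    · have hc3 : 3 ≤ |1 - 2 * w| := by
        rcases abs_cases w with ⟨h, _⟩ | ⟨h, _⟩ <;> rcases abs_cases (1 - 2 * w) with ⟨h', _⟩ | ⟨h', _⟩ <;>
          omega
      have hc1 : (1 - 2 * w : ℤ) ≠ 1 := by
        intro h
        have : w = 0 := by omega
        rw [this] at hw
        simp at hw
      set c := 1 - 2 * w with hcdef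
      have hm1 : 2 * k + 1 ≠ 1 := by omega
      have hp := Nat.minFac_prime hm1
      set p := (2 * k + 1).minFac with hpdef
      obtain ⟨m', hm'⟩ := Nat.minFac_dvd (2 * k + 1)
      rw [← hpdef] at hm'
      have hpo : Odd p := by
        have h1 : Odd (2 * k + 1) := ⟨k, rfl⟩
        rw [hm'] at h1
        exact (Nat.odd_mul.1 h1).1
      have hmo : Odd m' := by
        have h1 : Odd (2 * k + 1) := ⟨k, rfl⟩
        rw [hm'] at h1
        exact (Nat.odd_mul.1 h1).2
      obtain ⟨j, hj⟩ := hpo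
      obtain ⟨i, hi⟩ := hmo
      have hik : i < k := by
        have h2 : 2 ≤ p := hp.two_le
        nlinarith
      have hmul := vv_mul hc1 i j k (by rw [hm', hj, hi])
      have hd1 : vv c i ∣ vv c k := by
        have : vv c i ^ 2 ∣ vv c k ^ 2 := ⟨_, hmul⟩
        exact (Int.pow_dvd_pow_iff two_ne_zero).1 this
      have hd2 : vv (tt c (2 * i + 1)) j ∣ vv c k := by
        have : vv (tt c (2 * i + 1)) j ^ 2 ∣ vv c k ^ 2 := ⟨vv c i ^ 2, by rw [hmul]; ring⟩
        exact (Int.pow_dvd_pow_iff two_ne_zero).1 this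
      have hb3 : 3 ≤ |tt c (2 * i + 1)| := tt_big hc3 (by omega)
      have hwb : w ∣ tt c (2 * i + 1) - 1 := by
        refine Dvd.dvd.trans ?_ (tt_sub_one_dvd c (2 * i + 1))
        exact ⟨-2, by rw [hcdef]; ring⟩
      obtain ⟨ho1, ho2⟩ := outer hb3 hwb (by rwa [← hj]) (hd2.trans hd)
      obtain ⟨hi1, hi2⟩ := ih i hik (hd1.trans hd)
      refine ⟨fun q hq h => ?_, fun q hq h => ?_⟩
      · rw [hm', hj, hi] at h
        rcases hq.dvd_mul.1 h with h | h
        · rw [ho1] at h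
          exact (Nat.prime_dvd_prime_iff_eq hq Nat.prime_three).1 h
        · exact hi1 q hq h
      · have hqz := Nat.prime_iff_prime_int.1 hq
        have h1 : (q : ℤ) ∣ vv c i ^ 2 * vv (tt c (2 * i + 1)) j ^ 2 := by
          rw [← hmul, sq]
          exact h.mul_left _
        rcases hqz.dvd_or_dvd h1 with h1 | h1
        · exact hi2 q hq (hqz.dvd_of_dvd_pow h1)
        · exact ho2 q hq (hqz.dvd_of_dvd_pow h1)

/-- The value of the Chebyshev polynomial. -/
theorem exists_tt {w z : ℤ} {r : ℕ} (hw : 2 ≤ |w|)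
    (h : w ^ (2 * r + 1) - 1 = (w - 1) * z ^ 2) :
    ∃ m, tt (1 - 2 * w) m = 1 - 2 * w ^ (2 * r + 1) := by
  set N := w ^ (2 * r + 1) with hN
  have hNA : N = w * (w ^ r) ^ 2 := by rw [hN]; ring
  set c := 1 - 2 * w with hc
  have hc3 : 3 ≤ |c| := by
    rcases abs_cases w with ⟨h, _⟩ | ⟨h, _⟩ <;> rcases abs_cases c with ⟨h', _⟩ | ⟨h', _⟩ <;>
      omega
  have hpell : (1 - 2 * N) ^ 2 - (c ^ 2 - 1) * (w ^ r * z) ^ 2 = 1 := by
    have e1 : (c ^ 2 - 1) * (w ^ r * z) ^ 2 = 4 * (w * (w ^ r) ^ 2) * ((w - 1) * z ^ 2) := by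
      rw [hc]
      ring
    rw [e1, ← hNA, ← h]
    ring
  have a1 : 1 < c.natAbs := by
    rw [Int.abs_eq_natAbs] at hc3
    omega
  have hp' : ((1 - 2 * N).natAbs : ℤ) * (1 - 2 * N).natAbs -
      ((c.natAbs : ℤ) * c.natAbs - 1) * (w ^ r * z).natAbs * (w ^ r * z).natAbs = 1 := by
    have e1 : ((1 - 2 * N).natAbs : ℤ) * (1 - 2 * N).natAbs = (1 - 2 * N) ^ 2 := by
      rw [← sq, Int.natAbs_sq]
    have e2 : ((c.natAbs : ℤ) * c.natAbs) = c ^ 2 := by rw [← sq, Int.natAbs_sq]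
    have e3 : ((w ^ r * z).natAbs : ℤ) * (w ^ r * z).natAbs = (w ^ r * z) ^ 2 := by
      rw [← sq, Int.natAbs_sq]
    rw [mul_assoc, e1, e2, e3]
    exact hpell
  have hp : (1 - 2 * N).natAbs * (1 - 2 * N).natAbs -
      (c.natAbs * c.natAbs - 1) * (w ^ r * z).natAbs * (w ^ r * z).natAbs = 1 := by
    have hle : 1 ≤ c.natAbs * c.natAbs := Nat.mul_pos (by omega) (by omega)
    zify [hle]
    have h1 : (c.natAbs * c.natAbs - 1) * (w ^ r * z).natAbs * (w ^ r * z).natAbs ≤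
        (1 - 2 * N).natAbs * (1 - 2 * N).natAbs := by
      zify [hle]
      push_cast at hp' ⊢
      linarith
    rw [Nat.cast_sub h1]
    push_cast [hle] at hp' ⊢
    linarith
  obtain ⟨m, hm, -⟩ := Pell.eq_pell a1 hp
  have hm' : ((1 - 2 * N).natAbs : ℤ) = tt (c.natAbs : ℤ) m := by rw [hm, pell_tt]
  refine ⟨m, ?_⟩
  have h1 : tt c m ^ 2 = (1 - 2 * N) ^ 2 := by
    rw [← Int.natAbs_sq (1 - 2 * N), hm']
    rcases Int.natAbs_eq c with h | h
    · rw [← h]
    · have h2 : (c.natAbs : ℤ) = -c := by omega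
      rw [h2, tt_neg, mul_pow, ← pow_mul, mul_comm m 2, pow_mul]
      simp
  rcases sq_eq_sq_iff_eq_or_eq_neg.1 h1 with h1 | h1
  · exact h1
  · exfalso
    have h2 : 2 * w ∣ tt c m - 1 := by
      refine Dvd.dvd.trans ?_ (tt_sub_one_dvd c m)
      exact ⟨-1, by rw [hc]; ring⟩
    rw [h1] at h2
    have h3 : 2 * w ∣ 2 * N := ⟨(w ^ r) ^ 2, by rw [hNA]; ring⟩
    have h4 : 2 * w ∣ 2 * 1 := by
      have e : (2 * 1 : ℤ) = 2 * N - (-(1 - 2 * N) - 1) - 2 * N + 2 * N - 2 * 1 + 2 := by ring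
      have : (2 : ℤ) * 1 = 2 * N - (-(1 - 2 * N) - 1) := by ring
      rw [this]
      exact dvd_sub h3 h2
    have h5 : w ∣ 1 := (mul_dvd_mul_iff_left two_ne_zero).1 h4
    have h6 := Int.isUnit_iff.1 (isUnit_of_dvd_one h5)
    rcases h6 with h6 | h6 <;> rw [h6] at hw <;> norm_num at hw

theorem nl {w z : ℤ} {n : ℕ} (hn : Odd n) (h3 : 3 ≤ n) (hw : 2 ≤ |w|)
    (h : w ^ n - 1 = (w - 1) * z ^ 2) : w = 3 ∧ n = 5 := by
  obtain ⟨r, hr⟩ := hn
  have hr1 : 1 ≤ r := by omega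
  have hw0 : w ≠ 0 := by
    rintro rfl
    simp at hw
  obtain ⟨m, hm⟩ := exists_tt (r := r) hw (by rw [← hr]; exact h)
  rw [← hr] at hm
  rcases Nat.even_or_odd m with ⟨k, hk⟩ | ⟨k, hk⟩
  · exfalso
    rw [show m = 2 * k by omega, tt_mul, tt_two] at hm
    have hN : w ^ n = 1 - tt (1 - 2 * w) k ^ 2 := by linarith
    have h1 := tt_add_one_dvd (1 - 2 * w) k
    have h2 : w - 1 ∣ w ^ n := by
      rw [hN]
      have h4 : w - 1 ∣ (1 - 2 * w) + 1 := ⟨-2, by ring⟩
      have h5 := (h4.trans h1).neg_right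
      rwa [neg_sub] at h5
    have h3 : IsCoprime (w - 1) (w ^ n) := by
      refine IsCoprime.pow_right ⟨-1, 1, by ring⟩
    have h4 : IsUnit (w - 1) := h3.isUnit_of_dvd' dvd_rfl h2
    rcases Int.isUnit_iff.1 h4 with h4 | h4
    · have hw2 : w = 2 := by omega
      have h5 : (0 : ℤ) ≤ tt (1 - 2 * w) k ^ 2 := sq_nonneg _
      have h6 : (1 : ℤ) < w ^ n := by
        rw [hw2]
        exact one_lt_pow₀ (by norm_num) (by omega)
      linarith
    · exact hw0 (by omega)
  · rw [hk] at hm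
    have h1 := vv_sq' (1 - 2 * w) k
    have h2 : vv (1 - 2 * w) k ^ 2 = (w ^ r) ^ 2 := by
      rw [hm] at h1
      have h4 : (-2 * w) * vv (1 - 2 * w) k ^ 2 = (-2 * w) * (w ^ r) ^ 2 := by
        rw [hr] at h1
        linear_combination h1
      exact mul_left_cancel₀ (mul_ne_zero (by norm_num) hw0) h4
    have hd : vv (1 - 2 * w) k ∣ w ^ r := by
      have : vv (1 - 2 * w) k ^ 2 ∣ (w ^ r) ^ 2 := by rw [h2]
      exact (Int.pow_dvd_pow_iff two_ne_zero).1 this
    have hd' : w ^ r ∣ vv (1 - 2 * w) k := by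
      have : (w ^ r) ^ 2 ∣ vv (1 - 2 * w) k ^ 2 := by rw [h2]
      exact (Int.pow_dvd_pow_iff two_ne_zero).1 this
    obtain ⟨hA, hB⟩ := all_three hw k hd
    have hw3 : ∀ q : ℕ, q.Prime → (q : ℤ) ∣ w → q = 3 := by
      intro q hq hqw
      refine hB q hq (Dvd.dvd.trans ?_ hd')
      exact dvd_pow hqw (by omega)
    rcases Nat.eq_zero_or_pos k with hk0 | hk0
    · exfalso
      rw [hk0] at h2
      have h5 : (w ^ r) ^ 2 = 1 := by rw [← h2]; simp [vv]
      have h6 : w ^ (r * 2) = 1 := by rw [pow_mul]; exact h5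
      have h7 : |w| ^ (r * 2) = 1 := by rw [← abs_pow, h6, abs_one]
      have h8 : (1 : ℤ) < |w| ^ (r * 2) := one_lt_pow₀ (by linarith) (by omega)
      linarith
    · have hm1 : 2 * k + 1 ≠ 1 := by omega
      have h3m : 3 ∣ 2 * k + 1 := by
        have := hA _ (Nat.minFac_prime hm1) (Nat.minFac_dvd _)
        rw [← this]
        exact Nat.minFac_dvd _
      obtain ⟨m', hm'⟩ := h3m
      obtain ⟨i, hi⟩ : ∃ i, m' = 2 * i + 1 := ⟨(m' - 1) / 2, by omega⟩
      have hc1 : (1 - 2 * w : ℤ) ≠ 1 := by omega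
      have hmul := vv_mul hc1 1 i k (by rw [hm', hi]; ring)
      have hv1 : vv (1 - 2 * w) 1 = 3 - 4 * w := by
        simp only [vv]
        ring
      have hd1 : vv (1 - 2 * w) 1 ∣ vv (1 - 2 * w) k := by
        have : vv (1 - 2 * w) 1 ^ 2 ∣ vv (1 - 2 * w) k ^ 2 := ⟨_, hmul⟩
        exact (Int.pow_dvd_pow_iff two_ne_zero).1 this
      have hd2 : vv (tt (1 - 2 * w) (2 * 1 + 1)) i ∣ vv (1 - 2 * w) k := by
        have : vv (tt (1 - 2 * w) (2 * 1 + 1)) i ^ 2 ∣ vv (1 - 2 * w) k ^ 2 :=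
          ⟨vv (1 - 2 * w) 1 ^ 2, by rw [hmul]; ring⟩
        exact (Int.pow_dvd_pow_iff two_ne_zero).1 this
      have hw34 : ∀ q : ℕ, q.Prime → (q : ℤ) ∣ 3 - 4 * w → q = 3 := fun q hq hqd =>
        hB q hq ((hv1 ▸ hqd : (q : ℤ) ∣ vv (1 - 2 * w) 1).trans hd1)
      have hwp : w.natAbs = 3 ^ (w.natAbs).primeFactorsList.length :=
        Nat.eq_prime_pow_of_unique_prime_dvd (by omega) fun {d} hd1 hd2 =>
          hw3 d hd1 (Int.natCast_dvd.2 hd2)
      have hvp : (3 - 4 * w).natAbs = 3 ^ ((3 - 4 * w).natAbs).primeFactorsList.length :=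
        Nat.eq_prime_pow_of_unique_prime_dvd (by omega) fun {d} hd1 hd2 =>
          hw34 d hd1 (Int.natCast_dvd.2 hd2)
      have hv9 : (9 : ℤ) ∣ 3 - 4 * w := by
        have hlen : 2 ≤ ((3 - 4 * w).natAbs).primeFactorsList.length := by
          by_contra hlt
          have : (3 - 4 * w).natAbs ≤ 3 := by
            rw [hvp]
            calc 3 ^ ((3 - 4 * w).natAbs).primeFactorsList.length ≤ 3 ^ 1 :=
                  Nat.pow_le_pow_right (by norm_num) (by omega)
              _ = 3 := pow_one 3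
          have hw' : 2 ≤ (w.natAbs : ℤ) := by rwa [← Int.abs_eq_natAbs]
          clear hvp hwp hlt
          omega
        have h9 : 3 ^ 2 ∣ (3 - 4 * w).natAbs := by
          rw [hvp]
          exact pow_dvd_pow _ hlen
        have := Int.natCast_dvd.2 h9
        exact_mod_cast this
      have hw1 : w.natAbs = 3 := by
        have hlen : (w.natAbs).primeFactorsList.length < 2 := by
          by_contra hlt
          have h9 : 3 ^ 2 ∣ w.natAbs := by
            rw [hwp]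
            exact pow_dvd_pow _ (not_lt.1 hlt)
          have h9' := Int.natCast_dvd.2 h9
          push_cast at h9'
          omega
        have hle : w.natAbs ≤ 3 := by
          rw [hwp]
          calc 3 ^ (w.natAbs).primeFactorsList.length ≤ 3 ^ 1 :=
                Nat.pow_le_pow_right (by norm_num) (by omega)
            _ = 3 := pow_one 3
        omega
      have hw3' : w = 3 := by omega
      subst hw3'
      refine ⟨rfl, ?_⟩
      have hv1' : vv (1 - 2 * 3) 1 = -9 := by norm_num [vv]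
      have ht3 : tt (1 - 2 * 3) (2 * 1 + 1) = -485 := by
        rw [show 2 * 1 + 1 = 3 from rfl, tt_three]
        norm_num
      rcases Nat.eq_zero_or_pos i with hi0 | hi0
      · rw [hi0, h2, hv1'] at hmul
        have h5 : (3 : ℤ) ^ (r * 2) = 3 ^ 4 := by
          rw [pow_mul, hmul]
          norm_num [vv]
        have h6 : r * 2 = 4 := Int.pow_right_injective (by norm_num) h5
        omega
      · exfalso
        have hm2 : 2 * i + 1 ≠ 1 := by omega
        have h3m : 3 ∣ 2 * i + 1 := by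
          have := hA _ (Nat.minFac_prime hm2) ((Nat.minFac_dvd _).trans (by
            rw [hm', hi]
            exact Dvd.intro_left 3 rfl))
          rw [← this]
          exact Nat.minFac_dvd _
        obtain ⟨m'', hm''⟩ := h3m
        obtain ⟨i', hi'⟩ : ∃ i, m'' = 2 * i + 1 := ⟨(m'' - 1) / 2, by omega⟩
        have hmul2 := vv_mul (c := -485) (by norm_num) 1 i' i (by rw [hm'', hi']; ring)
        have hd3 : vv (-485) 1 ∣ vv (-485) i := by
          have : vv (-485) 1 ^ 2 ∣ vv (-485) i ^ 2 := ⟨_, hmul2⟩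
          exact (Int.pow_dvd_pow_iff two_ne_zero).1 this
        have hv2 : vv (-485) 1 = -969 := by norm_num [vv]
        rw [ht3] at hd2
        have h17 : ((17 : ℕ) : ℤ) ∣ vv (-485) 1 := by
          rw [hv2]
          norm_num
        have := hB 17 (by norm_num) ((h17.trans hd3).trans hd2)
        omega

end WE
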