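import Pool.Agent.Lib.MP_6498db_nt.E.ArA
import Pool.Agent.Lib.MP_6498db_nt.E.NL
import Pool.Agent.Lib.MP_6498db_nt.E.DefsE
import Pool.Agent.Lib.MP_6498db_nt.W.Split

/-! WALSH, block E, row ArB: the arithmetic of `x^(2 l) - 1 = m k^2`. -/

set_option autoImplicit false

namespace Pool.Agent.Wal

open Pool.Agent.Lib.MP_6498db_nt

/-- a product of primes which are `1` mod `l` is `1` mod `l` -/
theorem one_mod {l b : ℕ} (hl : 2 ≤ l) (hb : b ≠ 0) (h : ∀ p : ℕ, p.Prime → p ∣ b → p % l = 1) : b % l = 1 := by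
  induction b using Nat.strong_induction_on with
  | _ b ih =>
    by_cases h1 : b = 1
    · rw [h1]
      exact Nat.mod_eq_of_lt (by omega)
    · obtain ⟨p, hp, c, hc⟩ := Nat.exists_prime_and_dvd h1
      have hc0 : c ≠ 0 := by
        rintro rfl
        exact hb (by rw [hc, mul_zero])
      have hlt : c < b := by
        rw [hc]
        have h2 := hp.two_le
        have h3 : 0 < c := Nat.pos_of_ne_zero hc0
        nlinarith
      have h4 := ih c hlt hc0 fun q hq hd => h q hq (by rw [hc]; exact hd.mul_left p)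
      have h5 := h p hp ⟨c, hc⟩
      rw [hc, Nat.mul_mod, h4, h5, mul_one]
      exact Nat.mod_eq_of_lt (by omega)

/-- `geo w l = s^2` is impossible for `w ≥ 2`, `l > 5`, and for `w = x^2`, and for `w = - x`, `x ≥ 2` (`WE.nl`, `geo_mul`:
`w^l - 1 = (w - 1) * s^2`). -/
theorem geo_ne_sq {w s : ℤ} {l : ℕ} (hw : 2 ≤ |w|) (hl : Odd l) (h3 : 3 ≤ l) (h : geo w l = s ^ 2) :
    w = 3 ∧ l = 5 := by
  refine WE.nl (z := s) hl h3 hw ?_
  rw [← h, geo_mul]

private theorem arB_sym {p : ℕ} (hp : p.Prime) {A s c : ℤ} (h : A * s ^ 2 ≡ c ^ 2 [ZMOD p])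
    (hc : ¬ (p : ℤ) ∣ c) : jacobiSym A p = 1 := by
  have h0 : IsCoprime (p : ℤ) c := (Nat.prime_iff_prime_int.1 hp).coprime_iff_not_dvd.2 hc
  have h1 : jacobiSym (c ^ 2) p = 1 :=
    jacobiSym.sq_one' (Int.isCoprime_iff_gcd_eq_one.1 h0.symm)
  have h2 : jacobiSym (A * s ^ 2) p = 1 := (jacobiSym.mod_left' h).trans h1
  rw [jacobiSym.mul_left, jacobiSym.pow_left] at h2
  rcases jacobiSym.trichotomy s p with h3 | h3 | h3
  · rw [h3] at h2
    norm_num at h2
  · rw [h3] at h2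
    simpa using h2
  · rw [h3] at h2
    simpa using h2

private theorem arB_nat {p a b : ℕ} (h : (p : ℤ) ∣ (a : ℤ) - b) (hp : p ∣ a) : p ∣ b := by
  have h1 : (p : ℤ) ∣ (a : ℤ) := Int.natCast_dvd_natCast.2 hp
  have h2 : (p : ℤ) ∣ (b : ℤ) := by
    have h3 := dvd_sub h1 h
    rwa [sub_sub_cancel] at h3
  exact Int.natCast_dvd_natCast.1 h2

/-- Proof. `w = x^2`, `U = w - 1`, `V = geo w l`, `U V = m k^2` (`geo_mul`); all primes of `V` are `l` or `1` mod `l`
(`geo_prime`); a common prime of `U` and `V` divides `l` (`geo_modEq`), so it is `l`.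
CASE A: `l ∤ U`. `U, V` coprime; `split_sq`: `m = a b`, `U = a r^2`, `V = b s^2`; take `c = l`.
`b ≠ 1` by `geo_ne_sq` (`x^2 ≠ 3`). Primes of `b`: not `l` (`geo_dvd_iff`). For an odd prime `p ∣ a`: `p ∣ U`, `p ≠ l`,
`b s^2 ≡ l`, so `l b s^2 ≡ l^2` modulo `p`, `p ∤ s`: the symbol is `1`. If `l > 5`: `V = F G`, `F = geo x l`, `G = geo (-x) l`
(`geo_mul_neg`, `geo_coprime`, `geo_one_lt`), `F G = b s^2`, `split_sq` for `b`: `b = b₁ b₂`, `F = b₁ r₁^2`, `G = b₂ r₂^2`, and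
`b₁ ≠ 1`, `b₂ ≠ 1` by `geo_ne_sq`, so `b` is not prime.
CASE B: `l ∣ U`: `V = l V'`, `l ∤ V'` (`geo_sq`), `l U` and `V'` coprime, `(l U) V' = m k^2`: `split_sq`: `m = a b`,
`l U = a r^2`, `V' = b s^2`; take `c = 1`. For an odd prime `p ∣ a`: if `p = l` then `b ≡ 1` mod `l` (`one_mod`) and the symbol
is `1`; otherwise `p ∣ U`, `l b s^2 = V ≡ l` mod `p`, so `b s^2 ≡ 1`. `b ≠ 1`: otherwise `F G = l s^2`, `split_sq` for the
squarefree number `l`: one of `F`, `G` is a square: `geo_ne_sq` gives `x = 3`, `l = 5`, but `5 ∤ 8 = U`. -/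
theorem arithE {x m k l : ℕ} (hx : 2 ≤ x) (hm : Squarefree m) (hl : l.Prime) (h5 : 5 ≤ l)
    (h : x ^ (2 * l) = m * k ^ 2 + 1) :
    ∃ a b c : ℕ, a * b = m ∧ FitE l c a b ∧ (c = 1 ∨ (c = l ∧ (5 < l → ¬ b.Prime))) := by
  have hlo : Odd l := hl.odd_of_ne_two (by omega)
  have hx' : (2 : ℤ) ≤ (x : ℤ) := by exact_mod_cast hx
  obtain ⟨V, hV⟩ : ∃ V : ℕ, (V : ℤ) = geo ((x : ℤ) ^ 2) l := ⟨_, natAbs_geo _ hlo⟩
  obtain ⟨F, hF⟩ : ∃ F : ℕ, (F : ℤ) = geo (x : ℤ) l := ⟨_, natAbs_geo _ hlo⟩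
  obtain ⟨G, hG⟩ : ∃ G : ℕ, (G : ℤ) = geo (-(x : ℤ)) l := ⟨_, natAbs_geo _ hlo⟩
  obtain ⟨U, hU⟩ : ∃ U : ℕ, (U : ℤ) = (x : ℤ) ^ 2 - 1 :=
    ⟨x ^ 2 - 1, by rw [Nat.cast_sub (Nat.one_le_pow _ _ (by omega))]; push_cast; ring⟩
  have hUV : U * V = m * k ^ 2 := by
    have h1 : (U : ℤ) * V = (m : ℤ) * k ^ 2 := by
      have h2 : (x : ℤ) ^ (2 * l) = m * k ^ 2 + 1 := by exact_mod_cast h
      rw [hU, hV, geo_mul, ← pow_mul, h2]
      ring
    exact_mod_cast h1
  have hFG : F * G = V := by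
    have h1 : (F : ℤ) * G = V := by rw [hF, hG, hV, geo_mul_neg hx' hlo]
    exact_mod_cast h1
  have hcop : F.Coprime G := by
    have h1 := geo_coprime (x := (x : ℤ)) hlo
    rw [← hF, ← hG] at h1
    exact Nat.isCoprime_iff_coprime.1 h1
  have hax : (2 : ℤ) ≤ |(x : ℤ)| := by rwa [abs_of_nonneg (by omega)]
  have hnx : (2 : ℤ) ≤ |(-(x : ℤ))| := by rwa [abs_neg]
  have hF0 : F ≠ 0 := by
    rintro rfl
    have h1 := geo_pos (x : ℤ) hlo
    rw [← hF] at h1
    exact absurd h1 (lt_irrefl _)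
  have hG0 : G ≠ 0 := by
    rintro rfl
    have h1 := geo_pos (-(x : ℤ)) hlo
    rw [← hG] at h1
    exact absurd h1 (lt_irrefl _)
  have hV0 : V ≠ 0 := by
    rw [← hFG]
    exact mul_ne_zero hF0 hG0
  have hU0 : U ≠ 0 := by
    rintro rfl
    push_cast at hU
    nlinarith
  have nF : ∀ r : ℕ, F = r ^ 2 → x = 3 ∧ l = 5 := by
    intro r hr
    have h1 : geo (x : ℤ) l = (r : ℤ) ^ 2 := by rw [← hF, hr]; push_cast; rfl
    have h2 := geo_ne_sq hax hlo (by omega) h1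
    exact ⟨by exact_mod_cast h2.1, h2.2⟩
  have nG : ∀ r : ℕ, G ≠ r ^ 2 := by
    intro r hr
    have h1 : geo (-(x : ℤ)) l = (r : ℤ) ^ 2 := by rw [← hG, hr]; push_cast; rfl
    have h2 := geo_ne_sq hnx hlo (by omega) h1
    omega
  have nV : ∀ r : ℕ, V ≠ r ^ 2 := by
    intro r hr
    have h1 : geo ((x : ℤ) ^ 2) l = (r : ℤ) ^ 2 := by rw [← hV, hr]; push_cast; rfl
    have h3 : (4 : ℤ) ≤ (x : ℤ) ^ 2 := by nlinarith
    have h4 : (2 : ℤ) ≤ |((x : ℤ) ^ 2)| := by
      rw [abs_of_nonneg (by positivity)]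
      omega
    have h2 := geo_ne_sq h4 hlo (by omega) h1
    omega
  have hVp : ∀ p : ℕ, p.Prime → p ∣ V → p = l ∨ p % l = 1 := by
    intro p hp hd
    refine geo_prime (w := (x : ℤ) ^ 2) hl hp ?_
    rw [← hV]
    exact Int.natCast_dvd_natCast.2 hd
  have hVU : ∀ p : ℕ, p ∣ U → (V : ℤ) ≡ (l : ℤ) [ZMOD p] := by
    intro p hd
    rw [hV]
    refine geo_modEq ?_
    rw [← hU]
    exact Int.natCast_dvd_natCast.2 hd
  have hVU' : ∀ p : ℕ, p ∣ U → p ∣ V → p ∣ l := by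
    intro p hd hd'
    exact arB_nat (Int.ModEq.dvd (hVU p hd).symm) hd'
  have hlV : l ∣ V ↔ l ∣ U := by
    have h1 := geo_dvd_iff (w := (x : ℤ) ^ 2) hl
    rw [← hV, ← hU] at h1
    exact_mod_cast h1
  have hl2 : ¬ l ^ 2 ∣ V := by
    have h1 := geo_sq (w := (x : ℤ) ^ 2) hl (by omega)
    rw [← hV] at h1
    exact_mod_cast h1
  by_cases hlU : l ∣ U
  · -- case B
    obtain ⟨V', hV'⟩ := hlV.2 hlU
    have hV'0 : V' ≠ 0 := by
      rintro rfl
      exact hV0 (by rw [hV', mul_zero])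
    have hlV' : ¬ l ∣ V' := by
      rintro ⟨t, rfl⟩
      exact hl2 ⟨t, by rw [hV']; ring⟩
    have hcop' : (l * U).Coprime V' := by
      refine Nat.coprime_of_dvd fun p hp h1 h2 => ?_
      have h3 : p ∣ V := by
        rw [hV']
        exact h2.mul_left l
      have h4 : p ∣ l := by
        rcases (Nat.Prime.dvd_mul hp).1 h1 with h4 | h4
        · exact h4
        · exact hVU' p h4 h3
      rw [(Nat.prime_dvd_prime_iff_eq hp hl).1 h4] at h2
      exact hlV' h2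
    obtain ⟨a, b, r, s, hab, har, hbs⟩ := split_sq m hm (l * U) V' k (mul_ne_zero hl.ne_zero hU0)
      hV'0 hcop' (by rw [← hUV, hV']; ring)
    have hb0 : b ≠ 0 := by
      rintro rfl
      exact hV'0 (by rw [hbs, zero_mul])
    have hmem : ∀ p : ℕ, p.Prime → p ∣ b → p % l = 1 := by
      intro p hp hd
      have h1 : p ∣ V' := by
        rw [hbs]
        exact hd.mul_right _
      rcases hVp p hp (by rw [hV']; exact h1.mul_left l) with h2 | h2
      · rw [h2] at h1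
        exact absurd h1 hlV'
      · exact h2
    have hb1 : b ≠ 1 := by
      intro hb1
      rw [hb1, one_mul] at hbs
      obtain ⟨b₁, b₂, r₁, r₂, h1, h2, h3⟩ := split_sq l hl.squarefree F G s hF0 hG0 hcop
        (by rw [hFG, hV', hbs])
      have h4 : b₁ = 1 ∨ b₂ = 1 := by
        rcases (Nat.dvd_prime hl).1 ⟨b₂, h1.symm⟩ with h4 | h4
        · exact Or.inl h4
        · right
          rw [h4] at h1
          exact Nat.eq_of_mul_eq_mul_left hl.pos (by rw [h1, mul_one])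
      rcases h4 with h4 | h4
      · rw [h4, one_mul] at h2
        obtain ⟨h6, h7⟩ := nF r₁ h2
        rw [h6] at hU
        have h8 : U = 8 := by
          have : (U : ℤ) = 8 := by rw [hU]; norm_num
          exact_mod_cast this
        rw [h8, h7] at hlU
        omega
      · rw [h4, one_mul] at h3
        exact nG r₂ h3
    refine ⟨a, b, 1, hab, ⟨by omega, hmem, ?_⟩, Or.inl rfl⟩
    intro p hp hp2 hpa
    rw [one_mul]
    by_cases hpl : p = l
    · have h1 := one_mod hl.two_le hb0 hmem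
      have h2 : ((b : ℕ) : ℤ) % (p : ℤ) = 1 % (p : ℤ) := by
        rw [hpl]
        have h3 : ((b % l : ℕ) : ℤ) = ((1 % l : ℕ) : ℤ) := by
          rw [h1, Nat.mod_eq_of_lt hl.one_lt]
        push_cast at h3
        exact h3
      rw [jacobiSym.mod_left' h2, jacobiSym.one_left]
    · have hpU : p ∣ U := by
        have h1 : p ∣ l * U := by
          rw [har]
          exact hpa.mul_right _
        rcases (Nat.Prime.dvd_mul hp).1 h1 with h2 | h2
        · exact absurd ((Nat.prime_dvd_prime_iff_eq hp hl).1 h2) hpl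
        · exact h2
      have h1 := hVU p hpU
      refine arB_sym hp (s := (s : ℤ)) (c := 1) ?_ ?_
      · have h2 : (l : ℤ) * ((b : ℤ) * (s : ℤ) ^ 2) ≡ (l : ℤ) * 1 ^ 2 [ZMOD p] := by
          have h3 : (V : ℤ) = (l : ℤ) * ((b : ℤ) * (s : ℤ) ^ 2) := by
            rw [hV', hbs]
            push_cast
            ring
          rw [← h3, one_pow, mul_one]
          exact h1
        have h4 : IsCoprime (p : ℤ) (l : ℤ) :=
          Nat.isCoprime_iff_coprime.2 ((Nat.coprime_primes hp hl).2 hpl)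
        refine Int.ModEq.symm (Int.modEq_iff_dvd.2 ?_)
        have h5 : (p : ℤ) ∣ (l : ℤ) * ((b : ℤ) * (s : ℤ) ^ 2 - 1 ^ 2) := by
          rw [mul_sub]
          exact Int.modEq_iff_dvd.1 h2.symm
        exact h4.dvd_of_dvd_mul_left h5
      · intro h2
        have h3 : (p : ℤ) ∣ ((1 : ℕ) : ℤ) := by exact_mod_cast h2
        exact hp.one_lt.ne' (Nat.dvd_one.1 (Int.natCast_dvd_natCast.1 h3))
  · -- case A
    have hlV' : ¬ l ∣ V := fun h1 => hlU (hlV.1 h1)
    have hcop' : U.Coprime V := by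
      refine Nat.coprime_of_dvd fun p hp h1 h2 => ?_
      have h4 : p ∣ l := hVU' p h1 h2
      rw [(Nat.prime_dvd_prime_iff_eq hp hl).1 h4] at h2
      exact hlV' h2
    obtain ⟨a, b, r, s, hab, har, hbs⟩ := split_sq m hm U V k hU0 hV0 hcop' hUV
    have hb0 : b ≠ 0 := by
      rintro rfl
      exact hV0 (by rw [hbs, zero_mul])
    have hb1 : b ≠ 1 := by
      intro hb1
      rw [hb1, one_mul] at hbs
      exact nV s hbs
    refine ⟨a, b, l, hab, ⟨by omega, ?_, ?_⟩, Or.inr ⟨rfl, ?_⟩⟩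
    · intro p hp hd
      have h1 : p ∣ V := by
        rw [hbs]
        exact hd.mul_right _
      rcases hVp p hp h1 with h2 | h2
      · rw [h2] at h1
        exact absurd h1 hlV'
      · exact h2
    · intro p hp hp2 hpa
      have hpU : p ∣ U := by
        rw [har]
        exact hpa.mul_right _
      have h1 := hVU p hpU
      refine arB_sym hp (s := (s : ℤ)) (c := (l : ℤ)) ?_ ?_
      · have h3 : ((l * b : ℕ) : ℤ) * (s : ℤ) ^ 2 = (l : ℤ) * (V : ℤ) := by
          rw [hbs]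
          push_cast
          ring
        rw [h3, sq]
        exact h1.mul_left _
      · intro h2
        have h3 := (Nat.prime_dvd_prime_iff_eq hp hl).1 (Int.natCast_dvd_natCast.1 h2)
        rw [h3] at hpU
        exact hlU hpU
    · intro h6 hbp
      obtain ⟨b₁, b₂, r₁, r₂, h1, h2, h3⟩ := split_sq b hbp.squarefree F G s hF0 hG0 hcop
        (by rw [hFG, hbs])
      have h4 : b₁ = 1 ∨ b₂ = 1 := by
        rcases (Nat.dvd_prime hbp).1 ⟨b₂, h1.symm⟩ with h4 | h4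
        · exact Or.inl h4
        · right
          rw [h4] at h1
          exact Nat.eq_of_mul_eq_mul_left hbp.pos (by rw [h1, mul_one])
      rcases h4 with h4 | h4
      · rw [h4, one_mul] at h2
        have h7 := (nF r₁ h2).2
        omega
      · rw [h4, one_mul] at h3
        exact nG r₂ h3

end Pool.Agent.Wal
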