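import Pool.Agent.Lib.MP_6498db_nt.E.DefsE
import Pool.Agent.Lib.MP_3e612f_nt.NF.U.BT

/-! WALSH, block E, row Bt: the primes `1` mod `l`. -/

set_option autoImplicit false

namespace Pool.Agent.Wal

open Finset

/-- small primes: all numbers `1 + j l` -/
private theorem bt_small {l : ℕ} (hl : 2 ≤ l) (S : Finset ℕ) (Z : ℕ)
    (hS : ∀ p ∈ S, 2 ≤ p ∧ p % l = 1 ∧ p ≤ Z) :
    ∑ p ∈ S, (1 : ℝ) / p ≤ (1 + Real.log Z) / l := by
  have hl0 : (0 : ℝ) < l := by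
    have : 0 < l := by omega
    exact_mod_cast this
  have hdiv : ∀ p ∈ S, p = l * (p / l) + 1 ∧ 1 ≤ p / l := by
    intro p hp
    obtain ⟨h1, h2, -⟩ := hS p hp
    have h3 := Nat.div_add_mod p l
    rw [h2] at h3
    refine ⟨h3.symm, ?_⟩
    rcases Nat.eq_zero_or_pos (p / l) with h4 | h4
    · rw [h4, mul_zero] at h3
      omega
    · exact h4
  have h1 : ∑ p ∈ S, (1 : ℝ) / p ≤ ∑ p ∈ S, (1 / (l : ℝ)) * ((p / l : ℕ) : ℝ)⁻¹ := by
    refine Finset.sum_le_sum fun p hp => ?_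
    obtain ⟨h2, h3⟩ := hdiv p hp
    have h4 : (0 : ℝ) < ((p / l : ℕ) : ℝ) := by exact_mod_cast h3
    have h5 : (l : ℝ) * ((p / l : ℕ) : ℝ) ≤ p := by
      have h6 : l * (p / l) ≤ p := by omega
      exact_mod_cast h6
    have h6 : 1 / (l : ℝ) * ((p / l : ℕ) : ℝ)⁻¹ = 1 / ((l : ℝ) * ((p / l : ℕ) : ℝ)) := by
      field_simp
    rw [h6]
    exact one_div_le_one_div_of_le (mul_pos hl0 h4) h5
  have hinj : Set.InjOn (fun p : ℕ => p / l) (S : Set ℕ) := by
    intro p hp q hq hpq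
    have h2 := (hdiv p hp).1
    have h3 := (hdiv q hq).1
    have hpq' : p / l = q / l := hpq
    rw [h2, h3, hpq']
  have h2 : ∑ p ∈ S, (((p / l : ℕ) : ℝ)⁻¹) = ∑ j ∈ S.image (fun p => p / l), ((j : ℝ)⁻¹) := by
    rw [Finset.sum_image hinj]
  have h3 : ∑ j ∈ S.image (fun p => p / l), ((j : ℝ)⁻¹) ≤ ∑ j ∈ Icc 1 Z, ((j : ℝ)⁻¹) := by
    refine Finset.sum_le_sum_of_subset_of_nonneg ?_ fun _ _ _ => by positivity
    intro j hj
    obtain ⟨p, hp, rfl⟩ := Finset.mem_image.1 hj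
    rw [Finset.mem_Icc]
    exact ⟨(hdiv p hp).2, (Nat.div_le_self p l).trans (hS p hp).2.2⟩
  have h4 : ∑ j ∈ Icc 1 Z, ((j : ℝ)⁻¹) ≤ 1 + Real.log Z := by
    have h5 := harmonic_le_one_add_log Z
    rw [harmonic_eq_sum_Icc] at h5
    push_cast at h5
    exact h5
  calc ∑ p ∈ S, (1 : ℝ) / p ≤ ∑ p ∈ S, (1 / (l : ℝ)) * ((p / l : ℕ) : ℝ)⁻¹ := h1
    _ = (1 / (l : ℝ)) * ∑ p ∈ S, (((p / l : ℕ) : ℝ)⁻¹) := by rw [Finset.mul_sum]
    _ ≤ (1 / (l : ℝ)) * (1 + Real.log Z) :=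
        mul_le_mul_of_nonneg_left (by rw [h2]; exact h3.trans h4) (by positivity)
    _ = (1 + Real.log Z) / l := by ring

/-- a dyadic interval -/
private theorem bt_dyad {C : ℝ} (hC : 0 < C) {l i : ℕ} (hl : l.Prime) (hi : 1 ≤ i)
    (h : (#((Ioc (2 ^ i) (2 ^ i + 2 ^ i)).filter (fun p => p.Prime ∧ p % l = 1 % l)) : ℝ) ≤
      C * (((2 ^ i : ℕ) : ℝ) / ((l.totient : ℝ) * Real.log ((2 ^ i : ℕ) : ℝ)))) :
    ∑ p ∈ (Ioc (2 ^ i) (2 ^ i + 2 ^ i)).filter (fun p => p.Prime ∧ p % l = 1), (1 : ℝ) / p ≤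
      (2 * C / Real.log 2) / l * ((i : ℝ)⁻¹) := by
  have hl2 := hl.two_le
  have h1l : 1 % l = 1 := Nat.mod_eq_of_lt (by omega)
  rw [h1l] at h
  have hlog2 : 0 < Real.log 2 := Real.log_pos (by norm_num)
  have hi0 : (0 : ℝ) < i := by exact_mod_cast hi
  have hl0 : (0 : ℝ) < l := by exact_mod_cast hl.pos
  have hphi : (l : ℝ) / 2 ≤ (l.totient : ℝ) := by
    rw [Nat.totient_prime hl]
    have h2 : ((l - 1 : ℕ) : ℝ) = (l : ℝ) - 1 := by
      rw [Nat.cast_sub hl.one_le, Nat.cast_one]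
    rw [h2]
    have h3 : (2 : ℝ) ≤ l := by exact_mod_cast hl2
    linarith
  have hphi0 : (0 : ℝ) < l.totient := by linarith [half_pos hl0]
  have hlog : Real.log ((2 ^ i : ℕ) : ℝ) = i * Real.log 2 := by
    push_cast
    rw [Real.log_pow]
  have h2i : (0 : ℝ) < ((2 ^ i : ℕ) : ℝ) := by positivity
  have h1 : ∑ p ∈ (Ioc (2 ^ i) (2 ^ i + 2 ^ i)).filter (fun p => p.Prime ∧ p % l = 1), (1 : ℝ) / p ≤
      ∑ p ∈ (Ioc (2 ^ i) (2 ^ i + 2 ^ i)).filter (fun p => p.Prime ∧ p % l = 1),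
        1 / ((2 ^ i : ℕ) : ℝ) := by
    refine Finset.sum_le_sum fun p hp => ?_
    rw [Finset.mem_filter, Finset.mem_Ioc] at hp
    refine one_div_le_one_div_of_le h2i ?_
    exact_mod_cast hp.1.1.le
  refine h1.trans ?_
  rw [Finset.sum_const, nsmul_eq_mul]
  have h3 : C * (((2 ^ i : ℕ) : ℝ) / ((l.totient : ℝ) * Real.log ((2 ^ i : ℕ) : ℝ))) *
      (1 / ((2 ^ i : ℕ) : ℝ)) = C / ((l.totient : ℝ) * (i * Real.log 2)) := by
    rw [hlog]
    field_simp
  have h4 : (2 * C / Real.log 2) / l * ((i : ℝ)⁻¹) = C / ((l : ℝ) / 2 * (i * Real.log 2)) := by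
    field_simp
  rw [h4]
  refine (mul_le_mul_of_nonneg_right h (by positivity)).trans ?_
  rw [h3]
  refine div_le_div_of_nonneg_left hC.le (by positivity) ?_
  exact mul_le_mul_of_nonneg_right hphi (by positivity)

/-- Proof. Put `l₁ = l^16`. The primes `p ≡ 1` mod `l`, `p ≤ max (l₁) X₀` (`X₀` of `bt_short`): without primality,
`p = 1 + j l`, `j ≥ 1`: `∑ 1/(j l) ≤ (1 + log (max l₁ X₀)) / l ≤ C (1 + log l)/l`. For `y = 2^i ≥ max l₁ X₀`: `bt_short` with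
`X = y`, `h = y`, `r = l`, `u = 1`: at most `C y / (φ(l) log y)` primes `1` mod `l` in `(y, 2y]`, so the sum of `1/p` over
them is at most `C / (φ(l) i log 2)`; sum over the `i ≤ log₂ X`, `i ≥ 1`: `≤ C (1 + log log X) / φ(l)`. Only prime `l` is
needed: `φ(l) = l - 1 ≥ l / 2`. -/
theorem sl_bt : ∃ C : ℝ, 0 < C ∧ ∀ l X : ℕ, l.Prime → 3 ≤ X →
    SL l X ≤ C * (Real.log (Real.log X) + Real.log l + 1) / l := by
  classical
  obtain ⟨C₁, hC₁, X₀, hbt⟩ := Pool.Agent.Lib.MP_3e612f_nt.NF.bt_short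
  have hlog2 : 0 < Real.log 2 := Real.log_pos (by norm_num)
  obtain ⟨A, hA⟩ : ∃ A : ℝ, A = 20 + Real.log ((X₀ : ℝ) + 2) := ⟨_, rfl⟩
  obtain ⟨B, hB⟩ : ∃ B : ℝ, B = 2 * C₁ / Real.log 2 := ⟨_, rfl⟩
  have hlX : 0 ≤ Real.log ((X₀ : ℝ) + 2) := Real.log_nonneg (by
    have : (0 : ℝ) ≤ X₀ := Nat.cast_nonneg _
    linarith)
  have hA0 : 0 < A := by rw [hA]; linarith
  have hB0 : 0 < B := by rw [hB]; positivity
  refine ⟨A + 2 * B, by linarith, ?_⟩
  intro l X hl hX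
  have hl2 := hl.two_le
  have hl0 : (0 : ℝ) < l := by exact_mod_cast hl.pos
  have hll : 0 ≤ Real.log l := Real.log_nonneg (by exact_mod_cast hl.one_le)
  have hX3 : (3 : ℝ) ≤ X := by exact_mod_cast hX
  have hlogX : 1 ≤ Real.log X := by
    rw [Real.le_log_iff_exp_le (by linarith)]
    have := Real.exp_one_lt_d9
    linarith
  have hLL : 0 ≤ Real.log (Real.log X) := Real.log_nonneg hlogX
  -- the threshold
  obtain ⟨T, hT⟩ : ∃ T : ℕ, T = l ^ 16 * (X₀ + 2) := ⟨_, rfl⟩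
  have hl16 : 1 ≤ l ^ 16 := Nat.one_le_pow _ _ hl.pos
  have hT1 : l ^ 16 ≤ T := by
    rw [hT]
    exact Nat.le_mul_of_pos_right _ (by omega)
  have hT2 : X₀ + 2 ≤ T := by
    rw [hT]
    exact Nat.le_mul_of_pos_left _ (by omega)
  obtain ⟨i₀, hi₀⟩ : ∃ i₀ : ℕ, i₀ = Nat.log 2 T + 1 := ⟨_, rfl⟩
  have hTlt : T < 2 ^ i₀ := by
    rw [hi₀]
    exact Nat.lt_pow_succ_log_self (by norm_num) T
  have hTle : 2 ^ i₀ ≤ 2 * T := by
    rw [hi₀, pow_succ, mul_comm]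
    exact Nat.mul_le_mul_left 2 (Nat.pow_log_le_self 2 (by omega))
  have hi1 : 1 ≤ i₀ := by omega
  have hlogZ : Real.log ((2 ^ i₀ : ℕ) : ℝ) ≤ 1 + 16 * Real.log l + Real.log ((X₀ : ℝ) + 2) := by
    have h1 : Real.log ((2 ^ i₀ : ℕ) : ℝ) ≤ Real.log ((2 * T : ℕ) : ℝ) := by
      refine Real.log_le_log (by positivity) ?_
      exact_mod_cast hTle
    refine h1.trans ?_
    rw [hT]
    push_cast
    have hX0 : (0 : ℝ) < (X₀ : ℝ) + 2 := by positivity
    rw [Real.log_mul (by norm_num) (by positivity), Real.log_mul (by positivity) hX0.ne',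
      Real.log_pow]
    have h2 : Real.log 2 ≤ 1 := by
      have := Real.log_two_lt_d9
      linarith
    push_cast
    linarith
  obtain ⟨k, hk⟩ : ∃ k : ℕ, k = Nat.log 2 X := ⟨_, rfl⟩
  have hk1 : 1 ≤ k := by
    rw [hk]
    exact Nat.le_log_of_pow_le (by norm_num) (by omega)
  -- splitting
  have hsplit : SL l X = ∑ p ∈ ((prs X).filter (fun p => p % l = 1)).filter (fun p => p ≤ 2 ^ i₀),
      (1 : ℝ) / p + ∑ p ∈ ((prs X).filter (fun p => p % l = 1)).filter (fun p => ¬ p ≤ 2 ^ i₀),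
      (1 : ℝ) / p := by
    unfold SL
    rw [Finset.sum_filter_add_sum_filter_not]
  have hpart1 : ∑ p ∈ ((prs X).filter (fun p => p % l = 1)).filter (fun p => p ≤ 2 ^ i₀),
      (1 : ℝ) / p ≤ A * (Real.log l + 1) / l := by
    refine (bt_small hl2 _ (2 ^ i₀) ?_).trans ?_
    · intro p hp
      rw [Finset.mem_filter, Finset.mem_filter, mem_prs] at hp
      exact ⟨hp.1.1.1.two_le, hp.1.2, hp.2⟩
    · refine div_le_div_of_nonneg_right ?_ hl0.le
      rw [hA]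
      nlinarith
  have hpart2 : ∑ p ∈ ((prs X).filter (fun p => p % l = 1)).filter (fun p => ¬ p ≤ 2 ^ i₀),
      (1 : ℝ) / p ≤ B * (Real.log (Real.log X) + 2) / l := by
    have hmaps : ∀ p ∈ ((prs X).filter (fun p => p % l = 1)).filter (fun p => ¬ p ≤ 2 ^ i₀),
        Nat.log 2 (p - 1) ∈ Icc i₀ k := by
      intro p hp
      rw [Finset.mem_filter, Finset.mem_filter, mem_prs] at hp
      rw [Finset.mem_Icc]
      constructor
      · exact Nat.le_log_of_pow_le (by norm_num) (by omega)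
      · rw [hk]
        exact Nat.log_mono_right (by omega)
    rw [← Finset.sum_fiberwise_of_maps_to hmaps]
    have hfib : ∀ i ∈ Icc i₀ k,
        ∑ p ∈ (((prs X).filter (fun p => p % l = 1)).filter (fun p => ¬ p ≤ 2 ^ i₀)).filter
          (fun p => Nat.log 2 (p - 1) = i), (1 : ℝ) / p ≤ B / l * ((i : ℝ)⁻¹) := by
      intro i hi
      rw [Finset.mem_Icc] at hi
      have hpow : 2 ^ i₀ ≤ 2 ^ i := Nat.pow_le_pow_right (by norm_num) hi.1
      have h1 := bt_dyad hC₁ hl (hi1.trans hi.1) (hbt (2 ^ i) (by omega) (2 ^ i) (2 ^ i) l 1 le_rfl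
        hl.one_le (by omega) (Nat.coprime_one_left l)
        (by rw [sq]; exact Nat.le_mul_of_pos_right _ (by positivity)))
      rw [hB]
      refine le_trans (Finset.sum_le_sum_of_subset_of_nonneg ?_ fun _ _ _ => by positivity) h1
      intro p hp
      rw [Finset.mem_filter, Finset.mem_filter, Finset.mem_filter, mem_prs] at hp
      obtain ⟨⟨⟨⟨hpp, hpX⟩, hpl⟩, hpi⟩, hlog⟩ := hp
      have hp1 : p - 1 ≠ 0 := by
        have := hpp.two_le
        omega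
      have h2 := Nat.pow_log_le_self 2 hp1
      have h3 := Nat.lt_pow_succ_log_self (b := 2) (by norm_num) (p - 1)
      rw [hlog] at h2 h3
      rw [pow_succ] at h3
      rw [Finset.mem_filter, Finset.mem_Ioc]
      exact ⟨⟨by omega, by omega⟩, hpp, hpl⟩
    refine (Finset.sum_le_sum hfib).trans ?_
    rw [← Finset.mul_sum]
    have h1 : ∑ i ∈ Icc i₀ k, ((i : ℝ)⁻¹) ≤ Real.log (Real.log X) + 2 := by
      have h2 : ∑ i ∈ Icc i₀ k, ((i : ℝ)⁻¹) ≤ ∑ i ∈ Icc 1 k, ((i : ℝ)⁻¹) := by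
        refine Finset.sum_le_sum_of_subset_of_nonneg ?_ fun _ _ _ => by positivity
        intro i hi
        rw [Finset.mem_Icc] at hi ⊢
        exact ⟨hi1.trans hi.1, hi.2⟩
      have h3 : ∑ i ∈ Icc 1 k, ((i : ℝ)⁻¹) ≤ 1 + Real.log k := by
        have h5 := harmonic_le_one_add_log k
        rw [harmonic_eq_sum_Icc] at h5
        push_cast at h5
        exact h5
      have hk0 : (0 : ℝ) < k := by exact_mod_cast hk1
      have h4 : (k : ℝ) * Real.log 2 ≤ Real.log X := by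
        have h5 : 2 ^ k ≤ X := by
          rw [hk]
          exact Nat.pow_log_le_self 2 (by omega)
        have h6 : ((2 : ℝ) ^ k) ≤ X := by exact_mod_cast h5
        have h7 := Real.log_le_log (by positivity) h6
        rwa [Real.log_pow] at h7
      have h5 : Real.log k + Real.log (Real.log 2) ≤ Real.log (Real.log X) := by
        rw [← Real.log_mul hk0.ne' hlog2.ne']
        exact Real.log_le_log (by positivity) h4
      have h6 : -1 ≤ Real.log (Real.log 2) := by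
        rw [Real.le_log_iff_exp_le hlog2]
        have h7 := Real.log_two_gt_d9
        have h8 := Real.exp_neg_one_lt_d9
        linarith
      linarith
    calc B / l * ∑ i ∈ Icc i₀ k, ((i : ℝ)⁻¹) ≤ B / l * (Real.log (Real.log X) + 2) :=
          mul_le_mul_of_nonneg_left h1 (by positivity)
      _ = B * (Real.log (Real.log X) + 2) / l := by ring
  rw [hsplit]
  refine (add_le_add hpart1 hpart2).trans ?_
  rw [← add_div]
  refine div_le_div_of_nonneg_right ?_ hl0.le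
  nlinarith [mul_nonneg hA0.le hLL, mul_nonneg hB0.le hLL, mul_nonneg hB0.le hll]

end Pool.Agent.Wal
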