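import Pool.Agent.Lib.MP_6498db_nt.E.DefsE
import Pool.Agent.Lib.MP_6498db_nt.W.BOne

/-! WALSH, block E, row OneE: small `b`, uniformly in the multiplier `c`. -/

set_option autoImplicit false

namespace Pool.Agent.Wal

open Finset

private theorem b1_harm (N : ℕ) : ∑ b ∈ Icc 1 N, (1 : ℝ) / b ≤ 1 + Real.log N := by
  have h := harmonic_le_one_add_log N
  rw [harmonic_eq_sum_Icc] at h
  push_cast at h
  refine le_trans (le_of_eq (sum_congr rfl (fun b _ => ?_))) h
  rw [one_div]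

/-- Proof (as `b1` in `W/BOne.lean`, with the multiplier `c ≤ log X` uniform). `Z = exp((log X)^(1/32))`. For `X < X₀` trivial.
Sum `b1_count` (`ε = 1/16`, `d = c b`, `Y = X / b`, `log Y ≥ (log X)/2`) over the `b ≤ Z`: the `a = m / b` are in `sqs Y`, so
`S.card ≤ ∑_{b ≤ Z} C (X/b) (log Y)^(-3/16) log(c b + 3) ≤ C X (log X)^(-3/16) (log X)^(1/32) (log X)^(1/32)
= C X (log X)^(-1/8)` (`∑_{b ≤ Z} 1/b ≤ 1 + log Z`, `log (c b + 3) ≤ log (log X) + (log X)^(1/32) + 3 ≤ C (log X)^(1/32)`). -/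
theorem oneE : ∃ C : ℝ, ∀ X c : ℕ, 3 ≤ X → 1 ≤ c → (c : ℝ) ≤ Real.log X → ∀ S : Finset ℕ,
    (∀ m ∈ S, m ∈ sqs X ∧ ∃ a b : ℕ, a * b = m ∧ (b : ℝ) ≤ Real.exp (Real.log X ^ (1 / 32 : ℝ)) ∧
      ¬ IsSquare (c * b) ∧ ∀ p : ℕ, p.Prime → 3 < p → p % 4 = 1 → p ∣ a →
        jacobiSym ((c * b : ℕ) : ℤ) p = 1) →
    (S.card : ℝ) ≤ C * X * Real.log X ^ (-(1 / 8 : ℝ)) := by
  obtain ⟨C0, h0⟩ := b1_count (1 / 16) (by norm_num)
  have hC1 : 0 ≤ max C0 0 := le_max_right _ _
  have hC01 : C0 ≤ max C0 0 := le_max_left _ _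
  set C1 : ℝ := max C0 0 with hC1def
  refine ⟨2 + 140 * C1, ?_⟩
  intro X c hX hc1 hcL S hS
  classical
  have hX0 : (0 : ℝ) < X := by
    have : 0 < X := by omega
    exact_mod_cast this
  have hX3 : (3 : ℝ) ≤ X := by exact_mod_cast hX
  have hL0 : 0 < Real.log X := Real.log_pos (by linarith)
  have hLexp : Real.exp (Real.log X) = X := Real.exp_log hX0
  set L : ℝ := Real.log X with hL
  have hLp : 0 < L ^ (-(1 / 8 : ℝ)) := Real.rpow_pos_of_pos hL0 _
  by_cases hbig : L < 16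
  · have h1 : S.card ≤ X := by
      have : S ⊆ Icc 1 X := by
        intro m hm
        have := mem_sqs.1 (hS m hm).1
        rw [mem_Icc]
        exact ⟨this.1, this.2.1⟩
      have h2 := card_le_card this
      rw [Nat.card_Icc] at h2
      omega
    have h2 : (S.card : ℝ) ≤ X := by exact_mod_cast h1
    have h3 : (1 / 2 : ℝ) ≤ L ^ (-(1 / 8 : ℝ)) := by
      have e1 : (256 : ℝ) ^ (-(1 / 8 : ℝ)) = 1 / 2 := by
        have : (256 : ℝ) = 2 ^ (8 : ℝ) := by
          norm_num
        rw [this, ← Real.rpow_mul (by norm_num)]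
        norm_num
      rw [← e1]
      exact Real.rpow_le_rpow_of_nonpos hL0 (by linarith) (by norm_num)
    have h4 : (0 : ℝ) ≤ 140 * C1 * X * L ^ (-(1 / 8 : ℝ)) := by positivity
    have h5 : (X : ℝ) * (1 / 2) ≤ X * L ^ (-(1 / 8 : ℝ)) := mul_le_mul_of_nonneg_left h3 hX0.le
    have h6 : (2 + 140 * C1) * X * L ^ (-(1 / 8 : ℝ)) =
      2 * (X * L ^ (-(1 / 8 : ℝ))) + 140 * C1 * X * L ^ (-(1 / 8 : ℝ)) := by ring
    linarith
  · have hL16 : 16 ≤ L := not_lt.1 hbig
    set M : ℝ := L ^ (1 / 32 : ℝ) with hM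
    have hM1 : 1 ≤ M := Real.one_le_rpow (by linarith) (by norm_num)
    have hM4 : M ≤ L / 4 := by
      have h1 : M ≤ L ^ (1 / 2 : ℝ) := Real.rpow_le_rpow_of_exponent_le (by linarith) (by norm_num)
      rw [← Real.sqrt_eq_rpow] at h1
      have h2 : 4 ≤ Real.sqrt L := by
        apply Real.le_sqrt_of_sq_le
        linarith
      have h3 : Real.sqrt L * Real.sqrt L = L := Real.mul_self_sqrt hL0.le
      nlinarith
    set N : ℕ := ⌊Real.exp M⌋₊ with hN
    have hNle : (N : ℝ) ≤ Real.exp M := Nat.floor_le (Real.exp_pos _).le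
    have hN1 : 1 ≤ N := by
      rw [hN]
      apply Nat.le_floor
      push_cast
      exact Real.one_le_exp (by linarith)
    set B : Finset ℕ := (Icc 1 N).filter (fun b => ¬ IsSquare (c * b)) with hB
    set T : ℕ → Finset ℕ := fun b => (sqs (X / b)).filter (fun a => ∀ p : ℕ, p.Prime → 3 < p →
      p % 4 = 1 → p ∣ a → jacobiSym ((c * b : ℕ) : ℤ) p = 1) with hT
    have hsub : S ⊆ B.biUnion (fun b => (T b).image (fun a => a * b)) := by
      intro m hm
      obtain ⟨hm1, a, b, hab, hb, hsq, hp⟩ := hS m hm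
      obtain ⟨hm2, hm3, hm4⟩ := mem_sqs.1 hm1
      have ha0 : 0 < a := by
        rcases Nat.eq_zero_or_pos a with h | h
        · rw [h, zero_mul] at hab
          omega
        · exact h
      have hb0 : 0 < b := by
        rcases Nat.eq_zero_or_pos b with h | h
        · rw [h, mul_zero] at hab
          omega
        · exact h
      rw [mem_biUnion]
      refine ⟨b, ?_, ?_⟩
      · rw [hB, mem_filter, mem_Icc]
        exact ⟨⟨hb0, Nat.le_floor hb⟩, hsq⟩
      · rw [mem_image]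
        refine ⟨a, ?_, hab⟩
        rw [hT]
        simp only [mem_filter]
        refine ⟨mem_sqs.2 ⟨ha0, ?_, ?_⟩, hp⟩
        · rw [Nat.le_div_iff_mul_le hb0]
          omega
        · rw [← hab] at hm4
          exact hm4.of_mul_left
    have hcard : (S.card : ℝ) ≤ ∑ b ∈ B, ((T b).card : ℝ) := by
      have h1 : S.card ≤ ∑ b ∈ B, (T b).card := by
        refine le_trans (card_le_card hsub) (le_trans card_biUnion_le ?_)
        exact sum_le_sum (fun b _ => card_image_le)
      exact_mod_cast h1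
    have hpow : 0 < L ^ (-(3 / 16 : ℝ)) := Real.rpow_pos_of_pos hL0 _
    have hTb : ∀ b ∈ B, ((T b).card : ℝ) ≤
        (C1 * X * (2 * L ^ (-(3 / 16 : ℝ))) * (35 * M)) * (1 / b) := by
      intro b hb
      rw [hB, mem_filter, mem_Icc] at hb
      obtain ⟨⟨hb1, hbN⟩, hbsq⟩ := hb
      have hb0 : (0 : ℝ) < b := by exact_mod_cast hb1
      have hb1' : (1 : ℝ) ≤ b := by exact_mod_cast hb1
      have hbM : (b : ℝ) ≤ Real.exp M := le_trans (by exact_mod_cast hbN) hNle
      have hbL : (b : ℝ) ≤ Real.exp (L / 4) := le_trans hbM (Real.exp_le_exp.2 hM4)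
      have hY1 : (X : ℝ) / b - 1 ≤ ((X / b : ℕ) : ℝ) := by
        have h1 := Nat.div_add_mod X b
        have h2 := Nat.mod_lt X (show b > 0 by omega)
        have h3 : (X : ℝ) = b * ((X / b : ℕ) : ℝ) + ((X % b : ℕ) : ℝ) := by exact_mod_cast h1.symm
        have h4 : ((X % b : ℕ) : ℝ) ≤ b := by exact_mod_cast h2.le
        rw [sub_le_iff_le_add, div_le_iff₀ hb0, add_mul, one_mul, mul_comm]
        linarith
      have hY2 : Real.exp (L / 2) ≤ ((X / b : ℕ) : ℝ) := by
        refine le_trans ?_ hY1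
        have h1 : Real.exp (L / 2) * Real.exp (L / 4) ≤ (X : ℝ) / b := by
          rw [le_div_iff₀ hb0, ← Real.exp_add]
          have h2 : Real.exp (L / 2 + L / 4) * b ≤ Real.exp (L / 2 + L / 4) * Real.exp (L / 4) :=
            mul_le_mul_of_nonneg_left hbL (Real.exp_pos _).le
          refine le_trans h2 ?_
          rw [← Real.exp_add, ← hLexp]
          apply Real.exp_le_exp.2
          linarith
        have h2 : (1 : ℝ) ≤ Real.exp (L / 2) := Real.one_le_exp (by linarith)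
        have h3 : (5 : ℝ) ≤ Real.exp (L / 4) := by
          have := Real.add_one_le_exp (L / 4)
          linarith
        have h4 : Real.exp (L / 2) * 5 ≤ Real.exp (L / 2) * Real.exp (L / 4) :=
          mul_le_mul_of_nonneg_left h3 (Real.exp_pos _).le
        linarith
      have hY8 : (9 : ℝ) ≤ ((X / b : ℕ) : ℝ) := by
        refine le_trans ?_ hY2
        have := Real.add_one_le_exp (L / 2)
        linarith
      have hY3 : 3 ≤ X / b := by
        have : 9 ≤ X / b := by exact_mod_cast hY8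
        omega
      have hlogY : L / 2 ≤ Real.log ((X / b : ℕ) : ℝ) := by
        rw [Real.le_log_iff_exp_le (by linarith)]
        exact hY2
      have hmain := h0 (c * b) (Nat.mul_pos (by omega) (by omega)) (by
        rintro ⟨y, hy⟩
        apply hbsq
        refine ⟨y.natAbs, ?_⟩
        have : ((c * b : ℕ) : ℤ) = ((y.natAbs * y.natAbs : ℕ) : ℤ) := by
          rw [hy]
          push_cast
          rw [abs_mul_abs_self]
        exact_mod_cast this) (X / b) hY3 (T b) (by
        intro a ha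
        rw [hT] at ha
        simp only [mem_filter] at ha
        refine ⟨ha.1, fun p hp h3 h4 hpa => ?_⟩
        rw [ha.2 p hp h3 h4 hpa]
        norm_num)
      have e1 : (-(1 / 4 - 1 / 16) : ℝ) = -(3 / 16 : ℝ) := by norm_num
      rw [e1] at hmain
      have hp1 : Real.log ((X / b : ℕ) : ℝ) ^ (-(3 / 16 : ℝ)) ≤ 2 * L ^ (-(3 / 16 : ℝ)) := by
        have h1 : Real.log ((X / b : ℕ) : ℝ) ^ (-(3 / 16 : ℝ)) ≤ (L / 2) ^ (-(3 / 16 : ℝ)) :=
          Real.rpow_le_rpow_of_nonpos (by linarith) hlogY (by norm_num)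
        refine le_trans h1 ?_
        rw [Real.div_rpow hL0.le (by norm_num), div_le_iff₀ (Real.rpow_pos_of_pos (by norm_num) _)]
        have h2 : (1 / 2 : ℝ) ≤ 2 ^ (-(3 / 16 : ℝ)) := by
          have h3 : (2 : ℝ) ^ (-1 : ℝ) ≤ 2 ^ (-(3 / 16 : ℝ)) :=
            Real.rpow_le_rpow_of_exponent_le (by norm_num) (by norm_num)
          rw [Real.rpow_neg_one] at h3
          linarith
        have h5 : (2 * L ^ (-(3 / 16 : ℝ))) * (1 / 2) ≤
            (2 * L ^ (-(3 / 16 : ℝ))) * 2 ^ (-(3 / 16 : ℝ)) :=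
          mul_le_mul_of_nonneg_left h2 (by positivity)
        linarith
      have hp2 : Real.log (((c * b : ℕ) : ℝ) + 3) ≤ 35 * M := by
        have h6 : (1 : ℝ) ≤ Real.exp M := Real.one_le_exp (by linarith)
        have h1 : ((c * b : ℕ) : ℝ) + 3 ≤ 4 * (L * Real.exp M) := by
          have h2 : ((c * b : ℕ) : ℝ) ≤ L * Real.exp M := by
            push_cast
            exact mul_le_mul hcL hbM hb0.le hL0.le
          have h7 : 1 * 1 ≤ L * Real.exp M := mul_le_mul (by linarith) h6 zero_le_one hL0.le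
          linarith
        have h2 := Real.log_le_log (by positivity) h1
        rw [Real.log_mul (by norm_num) (by positivity), Real.log_mul hL0.ne' (by positivity),
          Real.log_exp] at h2
        have h7 : Real.log L ≤ 32 * M := by
          have h8 := Real.log_le_rpow_div hL0.le (show (0 : ℝ) < 1 / 32 by norm_num)
          rw [← hM] at h8
          linarith
        have h9 : Real.log 4 ≤ 2 := by
          have h10 : Real.log 4 = 2 * Real.log 2 := by
            rw [show (4 : ℝ) = 2 ^ 2 by norm_num, Real.log_pow]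
            norm_num
          have := Real.log_two_lt_d9
          linarith
        linarith
      have hp2' : 0 ≤ Real.log (((c * b : ℕ) : ℝ) + 3) := by
        apply Real.log_nonneg
        have : (0 : ℝ) ≤ ((c * b : ℕ) : ℝ) := Nat.cast_nonneg _
        linarith
      have hp1' : 0 ≤ Real.log ((X / b : ℕ) : ℝ) ^ (-(3 / 16 : ℝ)) :=
        Real.rpow_nonneg (by linarith) _
      have hY4 : ((X / b : ℕ) : ℝ) ≤ X / b := Nat.cast_div_le
      have hY0 : (0 : ℝ) ≤ ((X / b : ℕ) : ℝ) := Nat.cast_nonneg _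
      calc ((T b).card : ℝ) ≤ C0 * ((X / b : ℕ) : ℝ) *
            Real.log ((X / b : ℕ) : ℝ) ^ (-(3 / 16 : ℝ)) * Real.log (((c * b : ℕ) : ℝ) + 3) := hmain
        _ ≤ C1 * ((X / b : ℕ) : ℝ) *
            Real.log ((X / b : ℕ) : ℝ) ^ (-(3 / 16 : ℝ)) * Real.log (((c * b : ℕ) : ℝ) + 3) := by
            gcongr
        _ ≤ C1 * ((X : ℝ) / b) * (2 * L ^ (-(3 / 16 : ℝ))) * (35 * M) := by
            gcongr
        _ = _ := by ring
    have hsum : ∑ b ∈ B, (1 : ℝ) / b ≤ 2 * M := by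
      have h1 : ∑ b ∈ B, (1 : ℝ) / b ≤ ∑ b ∈ Icc 1 N, (1 : ℝ) / b :=
        sum_le_sum_of_subset_of_nonneg (filter_subset _ _) (fun b _ _ => by positivity)
      have h2 := b1_harm N
      have h3 : Real.log N ≤ M := by
        have hN0 : (0 : ℝ) < N := by exact_mod_cast hN1
        have := Real.log_le_log hN0 hNle
        rwa [Real.log_exp] at this
      linarith
    have hM2 : M * M ≤ L ^ (1 / 16 : ℝ) := by
      rw [hM, ← Real.rpow_add hL0]
      exact Real.rpow_le_rpow_of_exponent_le (by linarith) (by norm_num)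
    have hfin : L ^ (-(3 / 16 : ℝ)) * L ^ (1 / 16 : ℝ) = L ^ (-(1 / 8 : ℝ)) := by
      rw [← Real.rpow_add hL0]
      norm_num
    calc (S.card : ℝ) ≤ ∑ b ∈ B, ((T b).card : ℝ) := hcard
      _ ≤ ∑ b ∈ B, (C1 * X * (2 * L ^ (-(3 / 16 : ℝ))) * (35 * M)) * (1 / b) := sum_le_sum hTb
      _ = (C1 * X * (2 * L ^ (-(3 / 16 : ℝ))) * (35 * M)) * ∑ b ∈ B, (1 : ℝ) / b := by
          rw [mul_sum]
      _ ≤ (C1 * X * (2 * L ^ (-(3 / 16 : ℝ))) * (35 * M)) * (2 * M) := by
          refine mul_le_mul_of_nonneg_left hsum ?_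
          positivity
      _ = 140 * C1 * X * (L ^ (-(3 / 16 : ℝ)) * (M * M)) := by ring
      _ ≤ 140 * C1 * X * (L ^ (-(3 / 16 : ℝ)) * L ^ (1 / 16 : ℝ)) := by
          gcongr
      _ = 140 * C1 * X * L ^ (-(1 / 8 : ℝ)) := by rw [hfin]
      _ ≤ (2 + 140 * C1) * X * L ^ (-(1 / 8 : ℝ)) := by
          have : 0 ≤ X * L ^ (-(1 / 8 : ℝ)) := by positivity
          nlinarith

end Pool.Agent.Wal
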