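import Pool.Agent.Lib.MP_6498db_nt.E.DefsE
import Pool.Agent.Lib.MP_6498db_nt.W.Engine
import Pool.Agent.Lib.MP_6498db_nt.W.Mert

/-! WALSH, block E, row QEa: `b` is a prime, the weighted count. -/

set_option autoImplicit false

namespace Pool.Agent.Wal

open Finset

private theorem qea_pow (P : ℕ → Prop) [DecidablePred P] (z n : ℕ) :
    (2 : ℝ) ^ wt P z n = ∏ p ∈ n.primeFactors, if z < p ∧ P p then (2 : ℝ) else 1 := by
  classical
  unfold wt
  rw [prod_ite, prod_const, prod_const_one, mul_one]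
  congr 2
  ext p
  simp

/-- the main term -/
private theorem qea_main : ∃ C : ℝ, 0 ≤ C ∧ ∀ X : ℕ, 3 ≤ X →
    S2 (2 * X) (fun a b => Squarefree (a * b)) (fun _ b => 1 * (if b.Prime then 1 else 0)) ≤
      C * X * (1 + Real.log (Real.log X)) := by
  classical
  obtain ⟨C, hC⟩ := mert_up
  refine ⟨2 * (1 + |C|), by positivity, fun X hX => ?_⟩
  obtain ⟨N, hN⟩ : ∃ N : ℕ, N = 2 * X := ⟨_, rfl⟩
  have h1 : S2 (2 * X) (fun a b => Squarefree (a * b)) (fun _ b => 1 * (if b.Prime then 1 else 0)) ≤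
      ∑ a ∈ Icc 1 N, ∑ b ∈ Icc 1 N, (if a * b ≤ N ∧ b.Prime then (1 : ℝ) else 0) := by
    unfold S2
    rw [← hN]
    refine sum_le_sum fun a ha => ?_
    have ha1 := (mem_Icc.1 ha).1
    have h2 : ∀ b ∈ Icc 1 (N / a), (if Squarefree (a * b) then
        (1 : ℝ) * (if b.Prime then 1 else 0) else 0) ≤
        (if a * b ≤ N ∧ b.Prime then (1 : ℝ) else 0) := by
      intro b hb
      have hb2 : a * b ≤ N := by
        have h3 := (mem_Icc.1 hb).2
        rw [Nat.le_div_iff_mul_le ha1] at h3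
        rwa [mul_comm]
      by_cases hp : b.Prime
      · have e : (if a * b ≤ N ∧ b.Prime then (1 : ℝ) else 0) = 1 := if_pos ⟨hb2, hp⟩
        rw [e, if_pos hp]
        split_ifs <;> norm_num
      · have e : (if a * b ≤ N ∧ b.Prime then (1 : ℝ) else 0) = 0 := if_neg fun h => hp h.2
        rw [e, if_neg hp]
        split_ifs <;> norm_num
    calc _ ≤ ∑ b ∈ Icc 1 (N / a), (if a * b ≤ N ∧ b.Prime then (1 : ℝ) else 0) := by
          refine sum_le_sum fun b hb => ?_
          refine le_trans (le_of_eq ?_) (h2 b hb)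
          by_cases h : Squarefree (a * b)
          · rw [if_pos h, if_pos h]
          · rw [if_neg h, if_neg h]
      _ ≤ _ := by
          refine sum_le_sum_of_subset_of_nonneg ?_ fun b _ _ => ?_
          · intro b hb
            have h3 := mem_Icc.1 hb
            exact mem_Icc.2 ⟨h3.1, h3.2.trans (Nat.div_le_self _ _)⟩
          · split_ifs <;> norm_num
  refine h1.trans ?_
  rw [sum_comm]
  have h2 : ∀ b ∈ Icc 1 N, ∑ a ∈ Icc 1 N, (if a * b ≤ N ∧ b.Prime then (1 : ℝ) else 0) ≤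
      if b.Prime then (N : ℝ) * (1 / b) else 0 := by
    intro b hb
    have hb1 := (mem_Icc.1 hb).1
    by_cases hp : b.Prime
    · rw [if_pos hp]
      simp only [hp, and_true]
      rw [← sum_filter, sum_const, nsmul_eq_mul, mul_one]
      have h3 : ((Icc 1 N).filter fun a => a * b ≤ N).card ≤ N / b := by
        calc ((Icc 1 N).filter fun a => a * b ≤ N).card ≤ (Icc 1 (N / b)).card := by
              refine card_le_card fun a ha => ?_
              rw [mem_filter, mem_Icc] at ha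
              exact mem_Icc.2 ⟨ha.1.1, (Nat.le_div_iff_mul_le hb1).2 ha.2⟩
          _ = N / b := by rw [Nat.card_Icc, Nat.add_sub_cancel]
      calc (((Icc 1 N).filter fun a => a * b ≤ N).card : ℝ) ≤ ((N / b : ℕ) : ℝ) := by
            exact_mod_cast h3
        _ ≤ (N : ℝ) / b := Nat.cast_div_le
        _ = (N : ℝ) * (1 / b) := by ring
    · rw [if_neg hp]
      refine (sum_eq_zero fun a _ => if_neg fun h => hp h.2).le
  refine (sum_le_sum h2).trans ?_
  rw [← sum_filter, ← mul_sum]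
  have h3 : ∑ i ∈ (Icc 1 N).filter Nat.Prime, (1 : ℝ) / i ≤ Real.log (Real.log N) + C :=
    hC N (by omega)
  have hX3 : (3 : ℝ) ≤ X := by exact_mod_cast hX
  have hl1 : 1 ≤ Real.log X := MertAux.log_ge X hX
  have hll : 0 ≤ Real.log (Real.log X) := Real.log_nonneg hl1
  have h4 : Real.log (Real.log N) ≤ 1 + Real.log (Real.log X) := by
    have h5 : Real.log N ≤ 2 * Real.log X := by
      rw [hN]
      push_cast
      rw [Real.log_mul (by norm_num) (by linarith)]
      have : Real.log 2 ≤ Real.log X := Real.log_le_log (by norm_num) (by linarith)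
      linarith
    have h6 : 0 < Real.log N := by
      have : 1 ≤ Real.log N := MertAux.log_ge N (by omega)
      linarith
    have h7 := Real.log_le_log h6 h5
    rw [Real.log_mul (by norm_num) (by linarith)] at h7
    have h8 := Real.log_two_lt_d9
    linarith
  have h5 : Real.log (Real.log N) + C ≤ (1 + |C|) * (1 + Real.log (Real.log X)) := by
    have h6 := le_abs_self C
    have h7 : 0 ≤ |C| * Real.log (Real.log X) := mul_nonneg (abs_nonneg _) hll
    nlinarith
  have hNX : (N : ℝ) = 2 * X := by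
    rw [hN]
    push_cast
    ring
  calc (N : ℝ) * ∑ i ∈ (Icc 1 N).filter Nat.Prime, (1 : ℝ) / i ≤
      N * ((1 + |C|) * (1 + Real.log (Real.log X))) :=
        mul_le_mul_of_nonneg_left (h3.trans h5) (Nat.cast_nonneg N)
    _ = 2 * (1 + |C|) * X * (1 + Real.log (Real.log X)) := by
        rw [hNX]
        ring

/-- The weighted count for a prime `b`. Proof. `engine` for `D = datQ`, `VA = 1`, `VB b = 1` if `b` is prime, `0` otherwise.
`S` injects into the pairs `(a, Q)`; `2^(wt ..) = 2^(number of primes > z of a)` and the number of primes `> z` of `a` is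
that of `m` minus one: `PF (2 for p > z) m = 2 * 2^wt`. Main term: `2 ∑_{Q ≤ 2X} 2X/Q ≤ C X (1 + loglog X)` (`mert_up`).
(`FitsZ datQ z a Q`: every `p > z ≥ 2` dividing `a` is an odd prime.) -/
theorem weightedQ : ∃ C : ℝ, ∀ (z X : ℕ) (T : ℝ), 3 ≤ z → 3 ≤ X → 0 < T → ∀ S : Finset ℕ,
    (∀ m ∈ S, m ∈ sqs X ∧ T ≤ PF (fun p => if z < p then 2 else 1) m ∧
      ∃ a Q : ℕ, a * Q = m ∧ Q.Prime ∧ z < Q ∧ ro z a ≠ 1 ∧
        ∀ p : ℕ, p.Prime → p ≠ 2 → p ∣ a → jacobiSym (Q : ℤ) p = 1) →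
    T * (S.card : ℝ) ≤ C * X * (1 + Real.log (Real.log X)) +
      C * X * (z : ℝ) ^ (-(1 / 6 : ℝ)) * (1 + Real.log X) ^ 7 := by
  classical
  obtain ⟨C1, hC1, heng⟩ := engine
  obtain ⟨C2, hC2, hmain⟩ := qea_main
  refine ⟨2 * C1 + 4 * C2, ?_⟩
  intro z X T hz hX hT S hS
  obtain ⟨VB, hVB⟩ : ∃ VB : ℕ → ℝ, VB = fun b => if b.Prime then (1 : ℝ) else 0 := ⟨_, rfl⟩
  have hB : ∀ n, 0 ≤ VB n ∧ VB n ≤ 1 := by
    intro n
    rw [hVB]
    dsimp only
    split_ifs <;> norm_num
  have h1 := heng datQ (fun p => Or.inl rfl) (fun p => Or.inl rfl) z X (by omega) (by omega)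
    (fun _ => 1) VB (fun _ => ⟨zero_le_one, le_rfl⟩) hB
  have h2 := hmain X hX
  have h2' : S2 (2 * X) (fun a b => Squarefree (a * b)) (fun a b => (1 : ℝ) * VB b) ≤
      C2 * X * (1 + Real.log (Real.log X)) := by
    rw [hVB]
    exact h2
  -- the lower bound
  have h3 : T * (S.card : ℝ) ≤
      2 * S2 X (fun a b => Squarefree (a * b) ∧ ro z a ≠ 1 ∧ ro z b ≠ 1 ∧ FitsZ datQ z a b)
        (fun a b => (1 : ℝ) * VB b * 2 ^ (wt datQ.aC z a + wt datQ.bC z b)) := by
    have hch : ∀ m : ℕ, ∃ q : ℕ × ℕ, m ∈ S →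
        q.1 * q.2 = m ∧ q.2.Prime ∧ z < q.2 ∧ ro z q.1 ≠ 1 ∧
        ∀ p : ℕ, p.Prime → p ≠ 2 → p ∣ q.1 → jacobiSym (q.2 : ℤ) p = 1 := by
      intro m
      by_cases hm : m ∈ S
      · obtain ⟨_, _, a, b, hab⟩ := hS m hm
        exact ⟨(a, b), fun _ => hab⟩
      · exact ⟨(0, 0), fun h => absurd h hm⟩
    choose f hf using hch
    obtain ⟨G, hG⟩ : ∃ G : (_ : ℕ) × ℕ → ℝ, G = fun q =>
      if Squarefree (q.1 * q.2) ∧ ro z q.1 ≠ 1 ∧ ro z q.2 ≠ 1 ∧ FitsZ datQ z q.1 q.2 then
        (1 : ℝ) * VB q.2 * 2 ^ (wt datQ.aC z q.1 + wt datQ.bC z q.2) else 0 := ⟨_, rfl⟩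
    have hS2 : S2 X (fun a b => Squarefree (a * b) ∧ ro z a ≠ 1 ∧ ro z b ≠ 1 ∧ FitsZ datQ z a b)
        (fun a b => (1 : ℝ) * VB b * 2 ^ (wt datQ.aC z a + wt datQ.bC z b)) =
        ∑ q ∈ (Icc 1 X).sigma (fun a => Icc 1 (X / a)), G q := by
      rw [sum_sigma]
      unfold S2
      refine sum_congr rfl fun a _ => sum_congr rfl fun b _ => ?_
      simp only [hG]
    have hG0 : ∀ q, 0 ≤ G q := by
      intro q
      simp only [hG]
      split_ifs
      · exact mul_nonneg (mul_nonneg zero_le_one (hB _).1) (by positivity)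
      · exact le_rfl
    obtain ⟨g, hg⟩ : ∃ g : ℕ → (_ : ℕ) × ℕ, g = fun m => ⟨(f m).1, (f m).2⟩ := ⟨_, rfl⟩
    have hinj : Set.InjOn g (S : Set ℕ) := by
      intro m hm m' hm' hmm
      rw [hg] at hmm
      have e1 : (f m).1 = (f m').1 := congrArg (fun q : (_ : ℕ) × ℕ => q.1) hmm
      have e2 : (f m).2 = (f m').2 := congrArg (fun q : (_ : ℕ) × ℕ => q.2) hmm
      rw [← (hf m (mem_coe.mp hm)).1, ← (hf m' (mem_coe.mp hm')).1, e1, e2]
    have hval : ∀ m ∈ S, T ≤ 2 * G (g m) := by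
      intro m hm
      obtain ⟨hab, hpr, hzQ, hra, hjac⟩ := hf m hm
      obtain ⟨hmX, hTm, _⟩ := hS m hm
      obtain ⟨hm1, hm2, hsq⟩ := mem_sqs.mp hmX
      have hsq' : Squarefree ((f m).1 * (f m).2) := by rw [hab]; exact hsq
      have hfz : FitsZ datQ z (f m).1 (f m).2 := by
        refine ⟨fun p hp hzp hpa _ => ?_, fun q _ _ _ hc => absurd hc (fun h => h)⟩
        have h4 := hjac p hp (by omega) hpa
        simpa [datQ] using h4
      have hrb : ro z (f m).2 ≠ 1 := by
        intro h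
        have h4 := prime_dvd_ro_of z (f m).2 (f m).2 hpr hpr.ne_zero dvd_rfl hzQ
        rw [h] at h4
        exact hpr.one_lt.ne' (Nat.dvd_one.1 h4)
      have hcop : (f m).1.Coprime (f m).2 := Nat.coprime_of_squarefree_mul hsq'
      have hA2 : (2 : ℝ) ^ wt datQ.aC z (f m).1 =
          PF (fun p => if z < p then 2 else 1) (f m).1 := by
        rw [qea_pow]
        unfold PF
        refine prod_congr rfl fun p hp => ?_
        dsimp only
        by_cases hzp : z < p
        · rw [if_pos hzp, if_pos ⟨hzp, trivial⟩]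
        · rw [if_neg hzp, if_neg fun h => hzp h.1]
      have hB2 : (2 : ℝ) ^ wt datQ.bC z (f m).2 = 1 := by
        rw [qea_pow]
        refine prod_eq_one fun p hp => ?_
        rw [if_neg fun h => h.2]
      have hB3 : PF (fun p => if z < p then (2 : ℝ) else 1) (f m).2 = 2 := by
        unfold PF
        rw [hpr.primeFactors, prod_singleton, if_pos hzQ]
      have hPF : PF (fun p => if z < p then (2 : ℝ) else 1) m =
          PF (fun p => if z < p then (2 : ℝ) else 1) (f m).1 *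
            PF (fun p => if z < p then (2 : ℝ) else 1) (f m).2 := by
        have h0 : PF (fun p => if z < p then (2 : ℝ) else 1) m =
            PF (fun p => if z < p then (2 : ℝ) else 1) ((f m).1 * (f m).2) := by rw [hab]
        rw [h0]
        unfold PF
        rw [hcop.primeFactors_mul, prod_union hcop.disjoint_primeFactors]
      have hGv : 2 * G (g m) = PF (fun p => if z < p then (2 : ℝ) else 1) m := by
        simp only [hG, hg]
        rw [if_pos ⟨hsq', hra, hrb, hfz⟩, hPF, ← hA2, hB3, pow_add, hB2, hVB]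
        dsimp only
        rw [if_pos hpr]
        ring
      rw [hGv]
      exact hTm
    have hmem : S.image g ⊆ (Icc 1 X).sigma (fun a => Icc 1 (X / a)) := by
      intro q hq
      obtain ⟨m, hm, rfl⟩ := mem_image.mp hq
      obtain ⟨hab, _, _, _, _⟩ := hf m hm
      obtain ⟨hm1, hm2, _⟩ := mem_sqs.mp (hS m hm).1
      have ha : 0 < (f m).1 := by
        rcases Nat.eq_zero_or_pos (f m).1 with h | h
        · rw [h, zero_mul] at hab; omega
        · exact h
      have hb : 0 < (f m).2 := by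
        rcases Nat.eq_zero_or_pos (f m).2 with h | h
        · rw [h, mul_zero] at hab; omega
        · exact h
      have hab2 : (f m).1 * (f m).2 ≤ X := by rw [hab]; exact hm2
      simp only [hg, mem_sigma, mem_Icc]
      refine ⟨⟨ha, ?_⟩, hb, ?_⟩
      · exact le_trans (Nat.le_mul_of_pos_right _ hb) hab2
      · rw [Nat.le_div_iff_mul_le ha, mul_comm]
        exact hab2
    rw [hS2]
    calc T * (S.card : ℝ) = ∑ m ∈ S, T := by rw [sum_const, nsmul_eq_mul, mul_comm]
      _ ≤ ∑ m ∈ S, 2 * G (g m) := sum_le_sum hval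
      _ = 2 * ∑ q ∈ S.image g, G q := by rw [← mul_sum, sum_image hinj]
      _ ≤ 2 * ∑ q ∈ (Icc 1 X).sigma (fun a => Icc 1 (X / a)), G q :=
          mul_le_mul_of_nonneg_left
            (sum_le_sum_of_subset_of_nonneg hmem fun q _ _ => hG0 q) zero_le_two
  have hz0 : (0 : ℝ) < z := by
    have : 0 < z := by omega
    exact_mod_cast this
  have hlogX : 0 ≤ Real.log X := Real.log_natCast_nonneg X
  have hll : 0 ≤ Real.log (Real.log X) := Real.log_nonneg (MertAux.log_ge X hX)
  have hX0 : (0 : ℝ) ≤ X := Nat.cast_nonneg X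
  have hzp : 0 ≤ (z : ℝ) ^ (-(1 / 6 : ℝ)) := Real.rpow_nonneg hz0.le _
  have h4 : 0 ≤ X * (1 + Real.log (Real.log X)) := mul_nonneg hX0 (by linarith)
  have h5 : 0 ≤ X * (z : ℝ) ^ (-(1 / 6 : ℝ)) * (1 + Real.log X) ^ 7 :=
    mul_nonneg (mul_nonneg hX0 hzp) (pow_nonneg (by linarith) 7)
  have h6 : 0 ≤ C1 * (X * (1 + Real.log (Real.log X))) := mul_nonneg hC1.le h4
  have h7 : 0 ≤ C2 * (X * (z : ℝ) ^ (-(1 / 6 : ℝ)) * (1 + Real.log X) ^ 7) := mul_nonneg hC2 h5
  linarith

end Pool.Agent.Wal
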