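import Pool.Agent.Lib.MP_6498db_nt.E.TypE
import Pool.Agent.Lib.MP_6498db_nt.E.OneE
import Pool.Agent.Lib.MP_6498db_nt.E.QEa
import Pool.Agent.Lib.MP_6498db_nt.W.Rank

/-! WALSH, block E, row QE: `b` is a prime. -/

set_option autoImplicit false

namespace Pool.Agent.Wal

open Finset

private theorem qe_card {X : ℕ} {S : Finset ℕ} (h : ∀ m ∈ S, m ∈ sqs X) : (S.card : ℝ) ≤ X := by
  have h1 : S ⊆ Icc 1 X := fun m hm => by
    have := mem_sqs.1 (h m hm)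
    exact mem_Icc.2 ⟨this.1, this.2.1⟩
  have h2 := card_le_card h1
  rw [Nat.card_Icc] at h2
  exact_mod_cast (by omega : S.card ≤ X)

private theorem qe_pow (n : ℕ) (u : ℝ) (hu : 0 ≤ u) :
    u ^ n * Real.exp (-(u / 6)) ≤ 6 ^ n * (n.factorial : ℝ) := by
  have h := Real.pow_div_factorial_le_exp (u / 6) (by positivity) n
  have hf : (0 : ℝ) < (n.factorial : ℝ) := by exact_mod_cast n.factorial_pos
  rw [div_le_iff₀ hf, div_pow, div_le_iff₀ (by positivity)] at h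
  rw [Real.exp_neg, mul_inv_le_iff₀ (Real.exp_pos _)]
  linarith

private theorem qe_z : ∃ K : ℝ, 0 ≤ K ∧ ∀ L z : ℝ, 1 ≤ L → 0 < z →
    Real.exp (L ^ (1 / 64 : ℝ)) ≤ 2 * z → z ^ (-(1 / 6 : ℝ)) * (1 + L) ^ 7 ≤ K := by
  obtain ⟨K, hK⟩ : ∃ K : ℝ, ∀ u : ℝ, 0 ≤ u → u ^ 448 * Real.exp (-(u / 6)) ≤ K :=
    ⟨_, fun u hu => qe_pow 448 u hu⟩
  have hK0 : 0 ≤ K := le_trans (by positivity) (hK 0 le_rfl)
  refine ⟨256 * K, by positivity, fun L z hL hz hzL => ?_⟩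
  have hL0 : 0 < L := by linarith
  obtain ⟨u, hu⟩ : ∃ u : ℝ, u = L ^ (1 / 64 : ℝ) := ⟨_, rfl⟩
  rw [← hu] at hzL
  have hu1 : 1 ≤ u := by rw [hu]; exact Real.one_le_rpow hL (by norm_num)
  have hL7 : L ^ 7 = u ^ 448 := by
    rw [hu, ← Real.rpow_natCast (L ^ (1 / 64 : ℝ)) 448, ← Real.rpow_mul hL0.le, ← Real.rpow_natCast L 7]
    norm_num
  have h1 : z ^ (-(1 / 6 : ℝ)) ≤ 2 * Real.exp (-(u / 6)) := by
    have h2 : Real.exp u / 2 ≤ z := by linarith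
    have h3 : z ^ (-(1 / 6 : ℝ)) ≤ (Real.exp u / 2) ^ (-(1 / 6 : ℝ)) :=
      Real.rpow_le_rpow_of_nonpos (by positivity) h2 (by norm_num)
    have h4 : (Real.exp u / 2) ^ (-(1 / 6 : ℝ)) = Real.exp (-(u / 6)) * (2 : ℝ) ^ (1 / 6 : ℝ) := by
      rw [Real.div_rpow (Real.exp_pos _).le (by norm_num), ← Real.exp_mul, Real.rpow_neg (by norm_num),
        div_inv_eq_mul]
      congr 2
      ring
    have h5 : (2 : ℝ) ^ (1 / 6 : ℝ) ≤ 2 :=
      (Real.rpow_le_rpow_of_exponent_le (by norm_num) (by norm_num)).trans_eq (Real.rpow_one _)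
    have h6 := mul_le_mul_of_nonneg_left h5 (Real.exp_pos (-(u / 6))).le
    linarith
  have h7 : (1 + L) ^ 7 ≤ 128 * u ^ 448 := by
    rw [← hL7, show 128 * L ^ 7 = (2 * L) ^ 7 by ring]
    exact pow_le_pow_left₀ (by positivity) (by linarith) 7
  have hKu := hK u (by linarith)
  calc z ^ (-(1 / 6 : ℝ)) * (1 + L) ^ 7 ≤ (2 * Real.exp (-(u / 6))) * (128 * u ^ 448) :=
        mul_le_mul h1 h7 (by positivity) (by positivity)
    _ = 256 * (u ^ 448 * Real.exp (-(u / 6))) := by ring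
    _ ≤ 256 * K := by linarith

/-- if `a` has no prime above `z`, then `m = a Q` has at most one -/
private theorem qe_PF {z a Q m : ℕ} (hQ : Q.Prime) (haQ : a * Q = m) (hm : m ≠ 0) (hr : ro z a = 1) :
    PF (fun p => if z < p then 2 else 1) m ≤ 2 := by
  have ha : a ≠ 0 := by
    rintro rfl
    exact hm (by rw [← haQ, zero_mul])
  have hsm : ∀ p ∈ a.primeFactors, ¬ z < p := by
    intro p hp hzp
    have h1 : p ∣ ro z a := by
      unfold ro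
      exact dvd_prod_of_mem (fun p => p) (mem_filter.2 ⟨hp, hzp⟩)
    rw [hr] at h1
    exact (Nat.prime_of_mem_primeFactors hp).one_lt.ne' (Nat.dvd_one.1 h1)
  have heq : m.primeFactors = insert Q a.primeFactors := by
    ext p
    rw [← haQ, Nat.primeFactors_mul ha hQ.ne_zero, mem_union, hQ.primeFactors, mem_singleton,
      mem_insert, or_comm]
  unfold PF
  rw [heq]
  by_cases hQa : Q ∈ a.primeFactors
  · rw [insert_eq_of_mem hQa, prod_eq_one (fun p hp => if_neg (hsm p hp))]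
    norm_num
  · rw [prod_insert hQa, prod_eq_one (fun p hp => if_neg (hsm p hp)), mul_one]
    split_ifs <;> norm_num

/-- the case of large `X` -/
private theorem qe_main : ∃ C : ℝ, 0 ≤ C ∧ ∀ X : ℕ, 3 ≤ X → 65537 ≤ Real.log X → ∀ S : Finset ℕ,
    (∀ m ∈ S, m ∈ sqs X ∧ Real.log X ^ (1 / 16 : ℝ) ≤ PF (fun p => if zz (1 / 64) X < p then 2 else 1) m ∧
      ∃ a Q : ℕ, a * Q = m ∧ Q.Prime ∧ Real.exp (Real.log X ^ (1 / 32 : ℝ)) < (Q : ℝ) ∧
      ∀ p : ℕ, p.Prime → p ≠ 2 → p ∣ a → jacobiSym (Q : ℤ) p = 1) →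
    (S.card : ℝ) ≤ C * X * Real.log X ^ (-(1 / 32 : ℝ)) := by
  obtain ⟨C, hC⟩ := weightedQ
  obtain ⟨K, hK0, hK⟩ := qe_z
  refine ⟨|C| * (33 + K), by positivity, fun X hX hL S hS => ?_⟩
  obtain ⟨L, hLd⟩ : ∃ L : ℝ, L = Real.log X := ⟨_, rfl⟩
  rw [← hLd] at hL hS ⊢
  have hL0 : 0 < L := by linarith
  have hL1 : 1 ≤ L := by linarith
  obtain ⟨z, hz⟩ : ∃ z : ℕ, z = zz (1 / 64) X := ⟨_, rfl⟩
  rw [← hz] at hS
  have hu2 : (1 : ℝ) < L ^ (1 / 64 : ℝ) := Real.one_lt_rpow (by linarith) (by norm_num)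
  have hlog3 : Real.exp (L ^ (1 / 64 : ℝ)) ≥ 3 := by
    have h3 : (1.15 : ℝ) ≤ L ^ (1 / 64 : ℝ) := by
      have h4 : ((1.15 : ℝ) ^ (64 : ℝ)) ^ (1 / 64 : ℝ) ≤ L ^ (1 / 64 : ℝ) := by
        apply Real.rpow_le_rpow (by positivity) _ (by norm_num)
        have : (1.15 : ℝ) ^ (64 : ℝ) = (1.15 : ℝ) ^ (64 : ℕ) := by
          rw [← Real.rpow_natCast]; norm_num
        rw [this]
        refine le_trans ?_ hL
        norm_num
      rw [← Real.rpow_mul (by norm_num)] at h4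
      norm_num at h4 ⊢
      exact h4
    have h5 : Real.exp 1.15 ≤ Real.exp (L ^ (1 / 64 : ℝ)) := Real.exp_le_exp.2 h3
    have h7 := Real.exp_one_gt_d9
    have h8 : Real.exp 1.15 = Real.exp 1 * Real.exp 0.15 := by
      rw [← Real.exp_add]; norm_num
    have h9 : (0.15 : ℝ) + 1 ≤ Real.exp 0.15 := Real.add_one_le_exp _
    nlinarith
  have hzle : (z : ℝ) ≤ Real.exp (L ^ (1 / 64 : ℝ)) := by
    rw [hz, hLd]
    exact Nat.floor_le (Real.exp_pos _).le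
  have hz3 : 3 ≤ z := by
    rw [hz]
    apply Nat.le_floor
    rw [← hLd]
    exact_mod_cast hlog3
  have hzge : Real.exp (L ^ (1 / 64 : ℝ)) ≤ 2 * z := by
    have h1 : Real.exp (L ^ (1 / 64 : ℝ)) < z + 1 := by
      rw [hz, hLd]
      exact Nat.lt_floor_add_one _
    have h2 : (3 : ℝ) ≤ z := by exact_mod_cast hz3
    linarith
  have hZ : Real.exp (L ^ (1 / 64 : ℝ)) ≤ Real.exp (L ^ (1 / 32 : ℝ)) :=
    Real.exp_le_exp.2 (Real.rpow_le_rpow_of_exponent_le hL1 (by norm_num))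
  have hT0 : 0 < L ^ (1 / 16 : ℝ) := Real.rpow_pos_of_pos hL0 _
  have hT2 : 2 < L ^ (1 / 16 : ℝ) := by
    have h1 : ((2 : ℝ) ^ (16 : ℝ)) ^ (1 / 16 : ℝ) < L ^ (1 / 16 : ℝ) := by
      apply Real.rpow_lt_rpow (by positivity) _ (by norm_num)
      have : (2 : ℝ) ^ (16 : ℝ) = (2 : ℝ) ^ (16 : ℕ) := by
        rw [← Real.rpow_natCast]; norm_num
      rw [this]
      refine lt_of_lt_of_le ?_ hL
      norm_num
    rw [← Real.rpow_mul (by norm_num)] at h1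
    norm_num at h1 ⊢
    exact h1
  have hmain := hC z X (L ^ (1 / 16 : ℝ)) hz3 hX hT0 S (fun m hm => by
    obtain ⟨h1, h2, a, Q, h3, h4, h5, h6⟩ := hS m hm
    refine ⟨h1, h2, a, Q, h3, h4, ?_, ?_, h6⟩
    · have : (z : ℝ) < (Q : ℝ) := by linarith
      exact_mod_cast this
    · intro hr
      have hm0 : m ≠ 0 := by
        have := (mem_sqs.1 h1).1
        omega
      have := qe_PF h4 h3 hm0 hr
      linarith)
  rw [← hLd] at hmain
  have hX0 : (0 : ℝ) < X := by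
    have : 0 < X := by omega
    exact_mod_cast this
  have hlogL : Real.log L ≤ 32 * L ^ (1 / 32 : ℝ) := by
    have := Real.log_le_rpow_div hL0.le (show (0 : ℝ) < 1 / 32 by norm_num)
    linarith [show L ^ (1 / 32 : ℝ) / (1 / 32) = 32 * L ^ (1 / 32 : ℝ) by ring]
  have hlog0 : 0 ≤ Real.log L := Real.log_nonneg hL1
  have hp1 : (1 : ℝ) ≤ L ^ (1 / 32 : ℝ) := Real.one_le_rpow hL1 (by norm_num)
  have hKz := hK L z hL1 (by exact_mod_cast (by omega : 0 < z)) hzge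
  have hKz0 : 0 ≤ (z : ℝ) ^ (-(1 / 6 : ℝ)) * (1 + L) ^ 7 := by positivity
  have hCX : C * X ≤ |C| * X := mul_le_mul_of_nonneg_right (le_abs_self C) hX0.le
  have hCX0 : 0 ≤ |C| * X := by positivity
  have hb1 : C * X * (1 + Real.log L) ≤ |C| * X * (33 * L ^ (1 / 32 : ℝ)) :=
    (mul_le_mul_of_nonneg_right hCX (by linarith)).trans (mul_le_mul_of_nonneg_left (by linarith) hCX0)
  have hb2 : C * X * (z : ℝ) ^ (-(1 / 6 : ℝ)) * (1 + L) ^ 7 ≤ |C| * X * (K * L ^ (1 / 32 : ℝ)) := by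
    calc C * X * (z : ℝ) ^ (-(1 / 6 : ℝ)) * (1 + L) ^ 7
        = C * X * ((z : ℝ) ^ (-(1 / 6 : ℝ)) * (1 + L) ^ 7) := by ring
      _ ≤ |C| * X * ((z : ℝ) ^ (-(1 / 6 : ℝ)) * (1 + L) ^ 7) := mul_le_mul_of_nonneg_right hCX hKz0
      _ ≤ |C| * X * (K * L ^ (1 / 32 : ℝ)) :=
          mul_le_mul_of_nonneg_left (hKz.trans (le_mul_of_one_le_right hK0 hp1)) hCX0
  have htot : L ^ (1 / 16 : ℝ) * (S.card : ℝ) ≤ |C| * (33 + K) * X * L ^ (1 / 32 : ℝ) := by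
    linarith
  have hexp : L ^ (1 / 32 : ℝ) = L ^ (1 / 16 : ℝ) * L ^ (-(1 / 32) : ℝ) := by
    rw [← Real.rpow_add hL0]
    norm_num
  rw [hexp] at htot
  exact le_of_mul_le_mul_left (htot.trans_eq (by ring)) hT0

/-- Proof. `z = zz (1/64) X`, `Z = exp((log X)^(1/32))`, `T = (log X)^(1/16)`; `X < X₀` trivial. Remove the `m` with
`PF 2 < T` (`typ2`) and those with `Q ≤ Z` (`oneE` with `c = 1`). The others: `Q > Z ≥ z`; if `ro z a = 1` then
`PF 2 m ≤ 2 < T` for large `X`. `weightedQ`. -/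
theorem primeE : ∃ C : ℝ, ∀ X : ℕ, 3 ≤ X → ∀ S : Finset ℕ,
    (∀ m ∈ S, m ∈ sqs X ∧ ∃ a Q : ℕ, a * Q = m ∧ Q.Prime ∧
      ∀ p : ℕ, p.Prime → p ≠ 2 → p ∣ a → jacobiSym (Q : ℤ) p = 1) →
    (S.card : ℝ) ≤ C * X * Real.log X ^ (-(1 / 32 : ℝ)) := by
  classical
  obtain ⟨C1, hC1⟩ := typ2
  obtain ⟨C2, hC2⟩ := oneE
  obtain ⟨C3, hC30, hC3⟩ := qe_main
  refine ⟨|C1| + |C2| + C3 + 65537 ^ (1 / 32 : ℝ), fun X hX S hS => ?_⟩
  have hX0 : (0 : ℝ) < X := by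
    have : 0 < X := by omega
    exact_mod_cast this
  have hL1 : 1 ≤ Real.log X := by
    rw [Real.le_log_iff_exp_le hX0]
    have h1 := Real.exp_one_lt_d9
    have h2 : (3 : ℝ) ≤ X := by exact_mod_cast hX
    linarith
  have hL0 : 0 < Real.log X := by linarith
  have hE0 : 0 < Real.log X ^ (-(1 / 32 : ℝ)) := Real.rpow_pos_of_pos hL0 _
  have hK0 : (0 : ℝ) ≤ 65537 ^ (1 / 32 : ℝ) := by positivity
  rcases lt_or_ge (Real.log X) 65537 with hlt | hge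
  · have h1 := qe_card (fun m hm => (hS m hm).1)
    have h2 : Real.log X ^ (1 / 32 : ℝ) ≤ 65537 ^ (1 / 32 : ℝ) :=
      Real.rpow_le_rpow hL0.le hlt.le (by norm_num)
    have h3 : Real.log X ^ (1 / 32 : ℝ) * Real.log X ^ (-(1 / 32 : ℝ)) = 1 := by
      rw [← Real.rpow_add hL0]
      norm_num
    have h4 : 1 ≤ 65537 ^ (1 / 32 : ℝ) * Real.log X ^ (-(1 / 32 : ℝ)) :=
      h3.symm.le.trans (mul_le_mul_of_nonneg_right h2 hE0.le)
    calc (S.card : ℝ) ≤ X := h1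
      _ ≤ X * (65537 ^ (1 / 32 : ℝ) * Real.log X ^ (-(1 / 32 : ℝ))) := le_mul_of_one_le_right hX0.le h4
      _ = 65537 ^ (1 / 32 : ℝ) * X * Real.log X ^ (-(1 / 32 : ℝ)) := by ring
      _ ≤ (|C1| + |C2| + C3 + 65537 ^ (1 / 32 : ℝ)) * X * Real.log X ^ (-(1 / 32 : ℝ)) := by
          apply mul_le_mul_of_nonneg_right _ hE0.le
          apply mul_le_mul_of_nonneg_right _ hX0.le
          have := abs_nonneg C1
          have := abs_nonneg C2
          linarith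
  · obtain ⟨P1, hP1⟩ : ∃ P1 : ℕ → Prop, P1 = fun m =>
        PF (fun p => if zz (1 / 64) X < p then 2 else 1) m < Real.log X ^ (1 / 16 : ℝ) := ⟨_, rfl⟩
    obtain ⟨P2, hP2⟩ : ∃ P2 : ℕ → Prop, P2 = fun m => ∃ a Q : ℕ, a * Q = m ∧ Q.Prime ∧
        (Q : ℝ) ≤ Real.exp (Real.log X ^ (1 / 32 : ℝ)) ∧
        ∀ p : ℕ, p.Prime → p ≠ 2 → p ∣ a → jacobiSym (Q : ℤ) p = 1 := ⟨_, rfl⟩
    have hsplit : S.card ≤ (S.filter P1).card + ((S.filter (fun m => P2 m)).card +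
        (S.filter (fun m => ¬ P1 m ∧ ¬ P2 m)).card) := by
      have : S ⊆ S.filter P1 ∪ (S.filter (fun m => P2 m) ∪ S.filter (fun m => ¬ P1 m ∧ ¬ P2 m)) := by
        intro m hm
        by_cases h1 : P1 m
        · exact mem_union_left _ (mem_filter.2 ⟨hm, h1⟩)
        · by_cases h2 : P2 m
          · exact mem_union_right _ (mem_union_left _ (mem_filter.2 ⟨hm, h2⟩))
          · exact mem_union_right _ (mem_union_right _ (mem_filter.2 ⟨hm, h1, h2⟩))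
      refine (card_le_card this).trans ((card_union_le _ _).trans ?_)
      exact Nat.add_le_add_left (card_union_le _ _) _
    have hpow : Real.log X ^ (-(1 / 8 : ℝ)) ≤ Real.log X ^ (-(1 / 32 : ℝ)) :=
      Real.rpow_le_rpow_of_exponent_le hL1 (by norm_num)
    have hup : ∀ C : ℝ, C * X * Real.log X ^ (-(1 / 8 : ℝ)) ≤ |C| * X * Real.log X ^ (-(1 / 32 : ℝ)) := by
      intro C
      have h8 : 0 < Real.log X ^ (-(1 / 8 : ℝ)) := Real.rpow_pos_of_pos hL0 _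
      calc C * X * Real.log X ^ (-(1 / 8 : ℝ)) ≤ |C| * X * Real.log X ^ (-(1 / 8 : ℝ)) :=
            mul_le_mul_of_nonneg_right (mul_le_mul_of_nonneg_right (le_abs_self C) hX0.le) h8.le
        _ ≤ |C| * X * Real.log X ^ (-(1 / 32 : ℝ)) := mul_le_mul_of_nonneg_left hpow (by positivity)
    have h1 : ((S.filter P1).card : ℝ) ≤ |C1| * X * Real.log X ^ (-(1 / 32 : ℝ)) := by
      refine le_trans ?_ ((hC1 X hX).trans (hup C1))
      have : S.filter P1 ⊆ (sqs X).filter (fun m => PF (fun p => if zz (1 / 64) X < p then 2 else 1) m <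
          Real.log X ^ (1 / 16 : ℝ)) := by
        intro m hm
        rw [mem_filter] at hm ⊢
        rw [hP1] at hm
        exact ⟨(hS m hm.1).1, hm.2⟩
      exact_mod_cast card_le_card this
    have h2 : ((S.filter (fun m => P2 m)).card : ℝ) ≤ |C2| * X * Real.log X ^ (-(1 / 32 : ℝ)) := by
      refine le_trans ?_ (hup C2)
      apply hC2 X 1 hX le_rfl (by simpa using hL1)
      intro m hm
      rw [mem_filter, hP2] at hm
      obtain ⟨hmS, a, Q, haQ, hQ, hQZ, hj⟩ := hm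
      refine ⟨(hS m hmS).1, a, Q, haQ, hQZ, ?_, ?_⟩
      · rw [one_mul]
        exact hQ.prime.not_isSquare
      · intro p hp hp3 _ hpa
        rw [one_mul]
        exact hj p hp (by omega) hpa
    have h3 : ((S.filter (fun m => ¬ P1 m ∧ ¬ P2 m)).card : ℝ) ≤
        C3 * X * Real.log X ^ (-(1 / 32 : ℝ)) := by
      apply hC3 X hX hge
      intro m hm
      rw [mem_filter, hP1, hP2] at hm
      obtain ⟨hmS, hm1, hm2⟩ := hm
      obtain ⟨hms, a, Q, haQ, hQ, hj⟩ := hS m hmS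
      refine ⟨hms, not_lt.1 hm1, a, Q, haQ, hQ, ?_, hj⟩
      by_contra hcon
      exact hm2 ⟨a, Q, haQ, hQ, not_lt.1 hcon, hj⟩
    have hsplit' : (S.card : ℝ) ≤ ((S.filter P1).card : ℝ) + (((S.filter (fun m => P2 m)).card : ℝ) +
        ((S.filter (fun m => ¬ P1 m ∧ ¬ P2 m)).card : ℝ)) := by exact_mod_cast hsplit
    have hlast : 0 ≤ 65537 ^ (1 / 32 : ℝ) * X * Real.log X ^ (-(1 / 32 : ℝ)) := by positivity
    linarith

end Pool.Agent.Wal
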