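import Pool.Agent.Lib.MP_6498db_nt.W.Fin

/-! WALSH, block E, row RareE: rare properties. -/

set_option autoImplicit false

namespace Pool.Agent.Wal

open Finset

/-- the property `P` is rare among the squarefree numbers -/
def RareE (P : ℕ → Prop) : Prop := ∃ C c : ℝ, 0 < c ∧ ∀ X : ℕ, 3 ≤ X → ∀ S : Finset ℕ,
    (∀ m ∈ S, m ∈ sqs X ∧ P m) → (S.card : ℝ) ≤ C * X * Real.log X ^ (-c)

private theorem rareE_log_ge_one {X : ℕ} (hX : 3 ≤ X) : 1 ≤ Real.log X := by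
  have h1 : Real.exp 1 ≤ (X : ℝ) := by
    have h2 : (3 : ℝ) ≤ (X : ℝ) := by exact_mod_cast hX
    linarith [Real.exp_one_lt_d9]
  rw [Real.le_log_iff_exp_le (by positivity)]
  exact h1

private theorem RareE.norm {P : ℕ → Prop} (h : RareE P) : ∃ C c : ℝ, 0 ≤ C ∧ 0 < c ∧ c ≤ 1 ∧
    ∀ X : ℕ, 3 ≤ X → ∀ S : Finset ℕ,
    (∀ m ∈ S, m ∈ sqs X ∧ P m) → (S.card : ℝ) ≤ C * X * Real.log X ^ (-c) := by
  obtain ⟨C, c, hc, h⟩ := h
  refine ⟨max C 0, min c 1, le_max_right _ _, lt_min hc one_pos, min_le_right _ _,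
    fun X hX S hS => (h X hX S hS).trans ?_⟩
  have hl := rareE_log_ge_one hX
  have h1 : Real.log X ^ (-c) ≤ Real.log X ^ (-(min c 1)) :=
    Real.rpow_le_rpow_of_exponent_le hl (neg_le_neg (min_le_left _ _))
  have h0 : (0 : ℝ) ≤ Real.log X ^ (-c) := Real.rpow_nonneg (by linarith) _
  have hX0 : (0 : ℝ) ≤ (X : ℝ) := Nat.cast_nonneg X
  calc C * X * Real.log X ^ (-c) ≤ max C 0 * X * Real.log X ^ (-c) := by
        gcongr
        exact le_max_left _ _
    _ ≤ max C 0 * X * Real.log X ^ (-(min c 1)) := by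
        gcongr

/-- copy from `W/Fin.lean` (`Rare.mono`) -/
theorem RareE.mono {P Q : ℕ → Prop} (h : RareE Q) (hPQ : ∀ m, Squarefree m → P m → Q m) : RareE P := by
  obtain ⟨C, c, hc, h⟩ := h
  exact ⟨C, c, hc, fun X hX S hS => h X hX S fun m hm =>
    ⟨(hS m hm).1, hPQ m (mem_sqs.1 (hS m hm).1).2.2 (hS m hm).2⟩⟩

/-- copy from `W/Fin.lean` (`Rare.or`) -/
theorem RareE.or {P Q : ℕ → Prop} (hP : RareE P) (hQ : RareE Q) : RareE (fun m => P m ∨ Q m) := by
  classical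
  obtain ⟨C, c, hC0, hc, hc1, h⟩ := hP.norm
  obtain ⟨D, d, hD0, hd, hd1, h'⟩ := hQ.norm
  refine ⟨C + D, min c d, lt_min hc hd, fun X hX S hS => ?_⟩
  have hl := rareE_log_ge_one hX
  have hX0 : (0 : ℝ) ≤ (X : ℝ) := Nat.cast_nonneg X
  have e1 : Real.log X ^ (-c) ≤ Real.log X ^ (-(min c d)) :=
    Real.rpow_le_rpow_of_exponent_le hl (neg_le_neg (min_le_left _ _))
  have e2 : Real.log X ^ (-d) ≤ Real.log X ^ (-(min c d)) :=
    Real.rpow_le_rpow_of_exponent_le hl (neg_le_neg (min_le_right _ _))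
  have h1 := h X hX (S.filter P) fun m hm => by
    rw [mem_filter] at hm
    exact ⟨(hS m hm.1).1, hm.2⟩
  have h2 := h' X hX (S.filter (fun m => ¬ P m)) fun m hm => by
    rw [mem_filter] at hm
    exact ⟨(hS m hm.1).1, (hS m hm.1).2.resolve_left hm.2⟩
  have h3 : (S.card : ℝ) = ((S.filter P).card : ℝ) + ((S.filter (fun m => ¬ P m)).card : ℝ) := by
    rw [← Nat.cast_add, card_filter_add_card_filter_not]
  rw [h3]
  calc ((S.filter P).card : ℝ) + ((S.filter (fun m => ¬ P m)).card : ℝ)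
      ≤ C * X * Real.log X ^ (-c) + D * X * Real.log X ^ (-d) := add_le_add h1 h2
    _ ≤ C * X * Real.log X ^ (-(min c d)) + D * X * Real.log X ^ (-(min c d)) := by
        gcongr
    _ = (C + D) * X * Real.log X ^ (-(min c d)) := by ring

/-- `x^(2 n) + 1 = m k^2`: all odd primes of `m` are `1` mod `4`, so `m` has no prime `7` mod `24`; `cls_present`
(`r = 7`, `δ = 1/2`). -/
theorem rare_plus : RareE (fun m => ∃ x n k : ℕ, x ^ (2 * n) + 1 = m * k ^ 2) := by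
  obtain ⟨C, h⟩ := cls_present 7 (by decide) (1 / 2) (by norm_num) le_rfl
  refine ⟨C, 1 / 32, by norm_num, fun X hX S hS => h X hX S fun m hm => ?_⟩
  refine ⟨(hS m hm).1, fun p hp _ hpm hpr => ?_⟩
  obtain ⟨x, n, k, he⟩ := (hS m hm).2
  have hF : Fact p.Prime := ⟨hp⟩
  have h1 : p ∣ x ^ (2 * n) + 1 := by
    rw [he]
    exact Dvd.dvd.mul_right hpm _
  have h2 : ((x : ZMod p)) ^ (2 * n) + 1 = 0 := by
    have h3 := (ZMod.natCast_eq_zero_iff _ p).2 h1
    push_cast at h3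
    exact h3
  have h4 : IsSquare (-1 : ZMod p) := by
    refine ⟨(x : ZMod p) ^ n, ?_⟩
    rw [← pow_add, ← two_mul]
    linear_combination -h2
  rw [ZMod.exists_sq_eq_neg_one_iff] at h4
  omega

/-- the fibre over `t` -/
private theorem rareE_fib_le {P : ℕ → Prop}
    (hd : ∀ s t m : ℕ, t ^ 2 * s = m → 1 ≤ m → P m → P s) {X t : ℕ} (ht : 1 ≤ t) {S : Finset ℕ} {f g : ℕ → ℕ}
    (hS : ∀ m ∈ S, 1 ≤ m ∧ m ≤ X ∧ P m) (hf : ∀ m ∈ S, f m ^ 2 * g m = m ∧ Squarefree (g m)) :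
    ∃ R : Finset ℕ, (∀ s ∈ R, s ∈ sqs (X / t ^ 2) ∧ P s) ∧ (S.filter (fun m => f m = t)).card = R.card := by
  classical
  refine ⟨(S.filter (fun m => f m = t)).image g, fun s hs => ?_, ?_⟩
  · obtain ⟨m, hm, rfl⟩ := mem_image.1 hs
    rw [mem_filter] at hm
    obtain ⟨hmS, hmt⟩ := hm
    obtain ⟨h1, h2, h3⟩ := hS m hmS
    obtain ⟨h4, h5⟩ := hf m hmS
    refine ⟨mem_sqs.2 ⟨?_, ?_, h5⟩, hd _ _ _ h4 h1 h3⟩
    · rcases Nat.eq_zero_or_pos (g m) with h0 | h0
      · rw [h0] at h5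
        exact absurd h5 not_squarefree_zero
      · exact h0
    · rw [Nat.le_div_iff_mul_le (by positivity), ← hmt, mul_comm, h4]
      exact h2
  · rw [card_image_of_injOn]
    intro m hm m' hm' he
    have hm := mem_filter.1 (mem_coe.1 hm)
    have hm' := mem_filter.1 (mem_coe.1 hm')
    rw [← (hf m hm.1).1, ← (hf m' hm'.1).1, hm.2, hm'.2, he]

/-- copy the proof of `hit_all` in `W/Fin.lean` -/
theorem rare_all (P : ℕ → Prop) (hP : RareE P) (hd : ∀ s t m : ℕ, t ^ 2 * s = m → 1 ≤ m → P m → P s) :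
    ∃ C c : ℝ, 0 < c ∧ ∀ X : ℕ, 3 ≤ X → ∀ S : Finset ℕ,
    (∀ m ∈ S, 1 ≤ m ∧ m ≤ X ∧ P m) → (S.card : ℝ) ≤ C * X * Real.log X ^ (-c) := by
  classical
  obtain ⟨C, c, hC, hc, hc1, h⟩ := hP.norm
  refine ⟨2 * (C * 4 ^ c) + 8 + 3, c, hc, fun X hX S hS => ?_⟩
  have hl := rareE_log_ge_one hX
  have hl0 : 0 < Real.log X := by linarith
  have hX0 : (0 : ℝ) < (X : ℝ) := by exact_mod_cast (by omega : 0 < X)
  have hlc : (Real.log X)⁻¹ ≤ Real.log X ^ (-c) := by
    rw [← Real.rpow_neg_one]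
    exact Real.rpow_le_rpow_of_exponent_le hl (neg_le_neg hc1)
  have hlc0 : 0 < Real.log X ^ (-c) := Real.rpow_pos_of_pos hl0 _
  have hC4 : 0 ≤ C * 4 ^ c := mul_nonneg hC (Real.rpow_nonneg (by norm_num) _)
  rcases Nat.lt_or_ge X 16 with hX16 | hX16
  · -- small `X`
    have h1 : S.card ≤ X := by
      calc S.card ≤ (Icc 1 X).card := card_le_card fun m hm => mem_Icc.2 ⟨(hS m hm).1, (hS m hm).2.1⟩
        _ = X := by simp
    have h2 : Real.log X ≤ 3 := by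
      have h3 : (X : ℝ) ≤ Real.exp 3 := by
        have h4 : (X : ℝ) ≤ 16 := by exact_mod_cast hX16.le
        have h5 : Real.exp 3 = Real.exp 1 ^ 3 := by
          rw [← Real.exp_nat_mul]
          norm_num
        have h6 : (2.7 : ℝ) ≤ Real.exp 1 := by linarith [Real.exp_one_gt_d9]
        have h7 : (2.7 : ℝ) ^ 3 ≤ Real.exp 1 ^ 3 := pow_le_pow_left₀ (by norm_num) h6 3
        rw [h5]
        norm_num at h7 ⊢
        linarith
      rw [← Real.log_exp 3]
      exact Real.log_le_log hX0 h3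
    have h3 : (1 : ℝ) ≤ 3 * Real.log X ^ (-c) := by
      have h4 : (1 : ℝ) / 3 ≤ (Real.log X)⁻¹ := by
        rw [← one_div]
        exact one_div_le_one_div_of_le hl0 h2
      linarith
    calc (S.card : ℝ) ≤ X := by exact_mod_cast h1
      _ ≤ X * (3 * Real.log X ^ (-c)) := le_mul_of_one_le_right hX0.le h3
      _ = 3 * (X * Real.log X ^ (-c)) := by ring
      _ ≤ (2 * (C * 4 ^ c) + 8 + 3) * (X * Real.log X ^ (-c)) := by
          gcongr
          linarith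
      _ = (2 * (C * 4 ^ c) + 8 + 3) * X * Real.log X ^ (-c) := by ring
  · obtain ⟨T, hT⟩ : ∃ T, T = Nat.sqrt (Nat.sqrt X) := ⟨_, rfl⟩
    -- `T^4 ≤ X < (T+1)^4`
    have hTu : X < (T + 1) ^ 4 := by
      have h1 : X < (Nat.sqrt X + 1) ^ 2 := by
        rw [pow_two]
        exact Nat.lt_succ_sqrt X
      have h2 : Nat.sqrt X < (T + 1) ^ 2 := by
        rw [hT, pow_two]
        exact Nat.lt_succ_sqrt _
      calc X < (Nat.sqrt X + 1) ^ 2 := h1
        _ ≤ ((T + 1) ^ 2) ^ 2 := Nat.pow_le_pow_left h2 2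
        _ = (T + 1) ^ 4 := by ring
    have hTl : T ^ 4 ≤ X := by
      have h1 : Nat.sqrt X ^ 2 ≤ X := by
        rw [pow_two]
        exact Nat.sqrt_le X
      have h2 : T ^ 2 ≤ Nat.sqrt X := by
        rw [hT, pow_two]
        exact Nat.sqrt_le _
      calc T ^ 4 = (T ^ 2) ^ 2 := by ring
        _ ≤ Nat.sqrt X ^ 2 := Nat.pow_le_pow_left h2 2
        _ ≤ X := h1
    -- the decomposition
    have hdec : ∀ m : ℕ, ∃ t s : ℕ, t ^ 2 * s = m ∧ Squarefree s := by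
      intro m
      obtain ⟨s, t, h1, h2⟩ := Nat.sq_mul_squarefree m
      exact ⟨t, s, h1, h2⟩
    choose f g hfg using hdec
    have hf : ∀ m ∈ S, f m ^ 2 * g m = m ∧ Squarefree (g m) := fun m _ => hfg m
    have hfX : ∀ m ∈ S, f m ∈ Ioo 0 (X + 1) := by
      intro m hm
      obtain ⟨h1, h2, h3⟩ := hS m hm
      obtain ⟨h4, h5⟩ := hfg m
      rw [mem_Ioo]
      have h6 : 0 < f m := by
        rcases Nat.eq_zero_or_pos (f m) with h0 | h0
        · rw [h0] at h4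
          omega
        · exact h0
      have h7 : 0 < g m := by
        rcases Nat.eq_zero_or_pos (g m) with h0 | h0
        · rw [h0] at h4
          omega
        · exact h0
      refine ⟨h6, ?_⟩
      have h8 : f m ≤ f m ^ 2 * g m := by nlinarith
      omega
    have hsum : (S.card : ℝ) = ∑ t ∈ Ioo 0 (X + 1), ((S.filter (fun m => f m = t)).card : ℝ) := by
      rw [card_eq_sum_card_fiberwise hfX]
      push_cast
      rfl
    -- a single fibre
    have hfib1 : ∀ t ∈ Ioo 0 (X + 1), ((S.filter (fun m => f m = t)).card : ℝ) ≤ X * ((t : ℝ) ^ 2)⁻¹ := by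
      intro t ht
      rw [mem_Ioo] at ht
      obtain ⟨R, hR, hRc⟩ := rareE_fib_le hd (by omega : 1 ≤ t) hS hf
      rw [hRc]
      have h1 : R.card ≤ X / t ^ 2 := by
        calc R.card ≤ (Icc 1 (X / t ^ 2)).card := card_le_card fun s hs =>
              mem_Icc.2 ⟨(mem_sqs.1 (hR s hs).1).1, (mem_sqs.1 (hR s hs).1).2.1⟩
          _ = X / t ^ 2 := by simp
      calc (R.card : ℝ) ≤ ((X / t ^ 2 : ℕ) : ℝ) := by exact_mod_cast h1
        _ ≤ (X : ℝ) / ((t ^ 2 : ℕ) : ℝ) := Nat.cast_div_le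
        _ = X * ((t : ℝ) ^ 2)⁻¹ := by
            push_cast
            rw [div_eq_mul_inv]
    have hfib2 : ∀ t ∈ Ioo 0 (X + 1), t ≤ T → ((S.filter (fun m => f m = t)).card : ℝ) ≤
        C * 4 ^ c * X * Real.log X ^ (-c) * ((t : ℝ) ^ 2)⁻¹ := by
      intro t ht htT
      rw [mem_Ioo] at ht
      obtain ⟨R, hR, hRc⟩ := rareE_fib_le hd (by omega : 1 ≤ t) hS hf
      rw [hRc]
      obtain ⟨Y, hY⟩ : ∃ Y, Y = X / t ^ 2 := ⟨_, rfl⟩
      rw [← hY] at hR
      have ht2 : 0 < t ^ 2 := Nat.pow_pos ht.1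
      have h1 : X < t ^ 2 * (Y + 1) := by
        rw [hY]
        exact Nat.lt_mul_div_succ X ht2
      have h2 : t ^ 4 ≤ X := (Nat.pow_le_pow_left htT 4).trans hTl
      have h3 : X < (Y + 1) ^ 2 := by
        have h4 : X * X < (t ^ 2 * (Y + 1)) * (t ^ 2 * (Y + 1)) := Nat.mul_lt_mul'' h1 h1
        have h5 : (t ^ 2 * (Y + 1)) * (t ^ 2 * (Y + 1)) = t ^ 4 * (Y + 1) ^ 2 := by ring
        rw [h5] at h4
        have h6 : X * X < X * (Y + 1) ^ 2 := lt_of_lt_of_le h4 (Nat.mul_le_mul_right _ h2)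
        exact Nat.lt_of_mul_lt_mul_left h6
      have hY4 : 4 ≤ Y := by
        by_contra h4
        have h5 : (Y + 1) ^ 2 ≤ 4 ^ 2 := Nat.pow_le_pow_left (by omega) 2
        omega
      have hY0 : (0 : ℝ) < (Y : ℝ) := by exact_mod_cast (by omega : 0 < Y)
      have hlY : Real.log X ≤ 4 * Real.log Y := by
        have h4 : (X : ℝ) ≤ (Y : ℝ) ^ 4 := by
          have h5 : X ≤ Y ^ 4 := by
            have h6 : Y + 1 ≤ Y ^ 2 := by nlinarith
            calc X ≤ (Y + 1) ^ 2 := h3.le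
              _ ≤ (Y ^ 2) ^ 2 := Nat.pow_le_pow_left h6 2
              _ = Y ^ 4 := by ring
          exact_mod_cast h5
        have h5 := Real.log_le_log hX0 h4
        rw [Real.log_pow] at h5
        push_cast at h5
        exact h5
      have hlY' : Real.log Y ^ (-c) ≤ 4 ^ c * Real.log X ^ (-c) := by
        have h4 : (0 : ℝ) < Real.log X / 4 := by positivity
        have h5 : Real.log X / 4 ≤ Real.log Y := by linarith
        calc Real.log Y ^ (-c) ≤ (Real.log X / 4) ^ (-c) :=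
              Real.rpow_le_rpow_of_nonpos h4 h5 (by linarith)
          _ = 4 ^ c * Real.log X ^ (-c) := by
              rw [Real.div_rpow hl0.le (by norm_num), Real.rpow_neg (by norm_num : (0 : ℝ) ≤ 4),
                div_inv_eq_mul, mul_comm]
      have hYX : (Y : ℝ) ≤ X * ((t : ℝ) ^ 2)⁻¹ := by
        rw [hY]
        calc ((X / t ^ 2 : ℕ) : ℝ) ≤ (X : ℝ) / ((t ^ 2 : ℕ) : ℝ) := Nat.cast_div_le
          _ = X * ((t : ℝ) ^ 2)⁻¹ := by
              push_cast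
              rw [div_eq_mul_inv]
      calc (R.card : ℝ) ≤ C * Y * Real.log Y ^ (-c) := h Y (by omega) R hR
        _ ≤ C * (X * ((t : ℝ) ^ 2)⁻¹) * (4 ^ c * Real.log X ^ (-c)) := by
            gcongr
        _ = C * 4 ^ c * X * Real.log X ^ (-c) * ((t : ℝ) ^ 2)⁻¹ := by ring
    -- the sum
    obtain ⟨K, hK⟩ : ∃ K : ℝ, K = C * 4 ^ c * X * Real.log X ^ (-c) := ⟨_, rfl⟩
    have hK0 : 0 ≤ K := by
      rw [hK]
      positivity
    have hsum1 : ∑ t ∈ Ioo 0 (X + 1), ((t : ℝ) ^ 2)⁻¹ ≤ 2 := by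
      have h1 := sum_Ioo_inv_sq_le (α := ℝ) 0 (X + 1)
      simpa using h1
    have hsum2 : ∑ t ∈ Ioo T (X + 1), ((t : ℝ) ^ 2)⁻¹ ≤ 2 / (T + 1) :=
      sum_Ioo_inv_sq_le (α := ℝ) T (X + 1)
    have hT1 : (0 : ℝ) < (T : ℝ) + 1 := by positivity
    have hlT : 2 / ((T : ℝ) + 1) ≤ 8 * (Real.log X)⁻¹ := by
      have h1 : Real.log X ≤ 4 * ((T : ℝ) + 1) := by
        have h2 : (X : ℝ) ≤ ((T : ℝ) + 1) ^ 4 := by exact_mod_cast hTu.le
        have h3 := Real.log_le_log hX0 h2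
        rw [Real.log_pow] at h3
        push_cast at h3
        have h4 := Real.log_le_sub_one_of_pos hT1
        linarith
      rw [← div_eq_mul_inv, div_le_div_iff₀ hT1 hl0]
      linarith
    rw [hsum]
    have hstep : ∀ t ∈ Ioo 0 (X + 1), ((S.filter (fun m => f m = t)).card : ℝ) ≤
        K * ((t : ℝ) ^ 2)⁻¹ + (if T < t then X * ((t : ℝ) ^ 2)⁻¹ else 0) := by
      intro t ht
      split_ifs with h1
      · have h2 : 0 ≤ K * ((t : ℝ) ^ 2)⁻¹ := by positivity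
        linarith [hfib1 t ht]
      · have h2 := hfib2 t ht (not_lt.1 h1)
        rw [← hK] at h2
        linarith
    calc ∑ t ∈ Ioo 0 (X + 1), ((S.filter (fun m => f m = t)).card : ℝ)
        ≤ ∑ t ∈ Ioo 0 (X + 1), (K * ((t : ℝ) ^ 2)⁻¹ +
            (if T < t then (X : ℝ) * ((t : ℝ) ^ 2)⁻¹ else 0)) := sum_le_sum hstep
      _ = K * ∑ t ∈ Ioo 0 (X + 1), ((t : ℝ) ^ 2)⁻¹ +
            X * ∑ t ∈ Ioo T (X + 1), ((t : ℝ) ^ 2)⁻¹ := by
          rw [sum_add_distrib, ← mul_sum, ← sum_filter, mul_sum (s := Ioo T (X + 1))]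
          congr 1
          refine sum_congr ?_ fun _ _ => rfl
          ext t
          rw [mem_filter, mem_Ioo, mem_Ioo]
          omega
      _ ≤ K * 2 + X * (8 * (Real.log X)⁻¹) := by
          have h1 := hsum2.trans hlT
          gcongr
      _ ≤ K * 2 + X * (8 * Real.log X ^ (-c)) := by
          gcongr
      _ ≤ (2 * (C * 4 ^ c) + 8 + 3) * X * Real.log X ^ (-c) := by
          rw [hK]
          have h1 : 0 ≤ X * Real.log X ^ (-c) := by positivity
          nlinarith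

/-- copy the proof of `walsh_one` in `W/Fin.lean`: the number of all `m ≤ X` -/
theorem rare_ncard (P : ℕ → Prop) (hP : RareE P) (hd : ∀ s t m : ℕ, t ^ 2 * s = m → 1 ≤ m → P m → P s) :
    ∃ C c : ℝ, 0 < c ∧ ∀ X : ℕ, 2 ≤ X →
    (({m : ℕ | 1 ≤ m ∧ m ≤ X ∧ P m}.ncard : ℕ) : ℝ) ≤ C * X / Real.log X ^ c := by
  classical
  obtain ⟨C, c, hc, h⟩ := rare_all P hP hd
  refine ⟨max C 1, c, hc, fun X hX => ?_⟩
  obtain ⟨A, hA⟩ : ∃ A : Set ℕ, A = {m : ℕ | 1 ≤ m ∧ m ≤ X ∧ P m} := ⟨_, rfl⟩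
  rw [← hA]
  have hAX : A ⊆ (Icc 1 X : Finset ℕ) := by
    intro m hm
    rw [hA] at hm
    rw [coe_Icc]
    exact ⟨hm.1, hm.2.1⟩
  have hAf : A.Finite := (finite_toSet _).subset hAX
  have hX0 : (0 : ℝ) < (X : ℝ) := by exact_mod_cast (by omega : 0 < X)
  rcases Nat.lt_or_ge X 3 with hX3 | hX3
  · have h2 : X = 2 := by omega
    have h3 : (A.ncard : ℝ) ≤ X := by
      have h4 := Set.ncard_le_ncard hAX (finite_toSet _)
      rw [Set.ncard_coe_finset, Nat.card_Icc] at h4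
      exact_mod_cast (by omega : A.ncard ≤ X)
    have hl0 : 0 < Real.log (X : ℝ) := Real.log_pos (by exact_mod_cast (by omega : 1 < X))
    have hl1 : Real.log (X : ℝ) ≤ 1 := by
      rw [h2]
      have := Real.log_two_lt_d9
      push_cast
      linarith
    have h5 : Real.log (X : ℝ) ^ c ≤ 1 := Real.rpow_le_one hl0.le hl1 hc.le
    have h6 : 0 < Real.log (X : ℝ) ^ c := Real.rpow_pos_of_pos hl0 _
    rw [le_div_iff₀ h6]
    calc (A.ncard : ℝ) * Real.log (X : ℝ) ^ c ≤ (X : ℝ) * 1 := by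
          gcongr
      _ = 1 * (X : ℝ) := by ring
      _ ≤ max C 1 * X := by
          gcongr
          exact le_max_right _ _
  · have hl0 : 0 < Real.log (X : ℝ) := by linarith [rareE_log_ge_one hX3]
    have h1 := h X hX3 hAf.toFinset fun m hm => by
      rw [Set.Finite.mem_toFinset, hA] at hm
      exact hm
    rw [← Set.ncard_eq_toFinset_card A hAf] at h1
    refine h1.trans ?_
    rw [Real.rpow_neg hl0.le, ← div_eq_mul_inv]
    gcongr
    exact le_max_left _ _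

end Pool.Agent.Wal
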