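import Pool.Agent.Lib.MP_6498db_nt.W.Engine
import Pool.Agent.Lib.MP_6498db_nt.W.MainSum

/-! WALSH, block E, row WtE: the weighted count, uniformly in the datum and the weights. -/

set_option autoImplicit false

namespace Pool.Agent.Wal

open Finset

private theorem wtE_ka_pos (D : Dat) (p : ℕ) : 0 < ka D p := by
  unfold ka
  split_ifs <;> norm_num

private theorem wtE_kb_nonneg (D : Dat) (p : ℕ) : 0 ≤ kb D p := by
  unfold kb
  split_ifs <;> norm_num

private theorem wtE_PF_mem (f : ℕ → ℝ) (hf : ∀ p, 0 ≤ f p ∧ f p ≤ 1) (n : ℕ) :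
    0 ≤ PF f n ∧ PF f n ≤ 1 :=
  ⟨prod_nonneg fun p _ => (hf p).1, prod_le_one (fun p _ => (hf p).1) fun p _ => (hf p).2⟩

private theorem wtE_pow (P : ℕ → Prop) [DecidablePred P] (z n : ℕ) :
    (2 : ℝ) ^ wt P z n = ∏ p ∈ n.primeFactors, if z < p ∧ P p then (2 : ℝ) else 1 := by
  classical
  unfold wt
  rw [prod_ite, prod_const, prod_const_one, mul_one]
  congr 2
  ext p
  simp

/-- Proof. Copy the proof of `weighted` in `W/WtA.lean`, with `lam p` in place of `lam (p % 24)`; the constant only depends on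
`engine` and `main_sum`; `FitsZ D z a b` and the condition on the primes `> z` of `b` are now the hypotheses. -/
theorem weightedE : ∃ C : ℝ, ∀ D : Dat, (∀ p, D.s p = 1 ∨ D.s p = -1) → (∀ p, D.t p = 1 ∨ D.t p = -1) →
    ∀ lam : ℕ → ℝ, (∀ p, 0 < lam p) →
    (∀ p : ℕ, p.Prime → 3 < p → lam p * (ka D p + kb D p) ≤ 1) →
    ∀ (z X : ℕ) (T : ℝ), 3 ≤ z → 3 ≤ X → 0 < T → ∀ S : Finset ℕ,
      (∀ m ∈ S, m ∈ sqs X ∧ T ≤ PF (fun p => if z < p then lam p else 1) m ∧
        ∃ a b : ℕ, a * b = m ∧ FitsZ D z a b ∧ (∀ p : ℕ, p.Prime → z < p → p ∣ b → D.bP p) ∧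
          ro z a ≠ 1 ∧ ro z b ≠ 1) →
      T * (S.card : ℝ) ≤ C * X * Real.log z + C * X * (z : ℝ) ^ (-(1 / 6 : ℝ)) * (1 + Real.log X) ^ 7 := by
  classical
  obtain ⟨C1, hC1, heng⟩ := engine
  obtain ⟨C2, hC2, hmain⟩ := main_sum
  refine ⟨C1 + 4 * C2, ?_⟩
  intro D hs1 ht1 lam hl hlam z X T hz hX hT S hS
  set vA : ℕ → ℝ := fun p => if z < p ∧ p.Prime then lam p * ka D p else 1 with hvA
  set vB : ℕ → ℝ := fun p => if z < p ∧ p.Prime then lam p * kb D p else 1 with hvB
  have hsum : ∀ p : ℕ, p.Prime → z < p → vA p + vB p ≤ 1 := by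
    intro p hp hzp
    have h1 := hlam p hp (by omega)
    simp only [hvA, hvB, if_pos (And.intro hzp hp)]
    rw [← mul_add]
    exact h1
  have hA : ∀ p, 0 ≤ vA p ∧ vA p ≤ 1 := by
    intro p
    by_cases h : z < p ∧ p.Prime
    · have h1 := hlam p h.2 (by omega)
      have h2 := wtE_ka_pos D p
      have h3 := wtE_kb_nonneg D p
      have h4 := hl p
      simp only [hvA, if_pos h]
      have h5 : 0 ≤ lam p * kb D p := mul_nonneg h4.le h3
      refine ⟨by positivity, ?_⟩
      rw [mul_add] at h1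
      linarith
    · simp only [hvA, if_neg h]
      norm_num
  have hB : ∀ p, 0 ≤ vB p ∧ vB p ≤ 1 := by
    intro p
    by_cases h : z < p ∧ p.Prime
    · have h1 := hlam p h.2 (by omega)
      have h2 := wtE_ka_pos D p
      have h3 := wtE_kb_nonneg D p
      have h4 := hl p
      simp only [hvB, if_pos h]
      have h5 : 0 ≤ lam p * ka D p := mul_nonneg h4.le h2.le
      refine ⟨by positivity, ?_⟩
      rw [mul_add] at h1
      linarith
    · simp only [hvB, if_neg h]
      norm_num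
  have hVA := wtE_PF_mem vA hA
  have hVB := wtE_PF_mem vB hB
  have h1 := heng D hs1 ht1 z X (by omega) (by omega) (PF vA) (PF vB) hVA hVB
  have h2 := hmain vA vB z (2 * X) hz (by omega) hA hB hsum
  -- the lower bound
  have h3 : T * (S.card : ℝ) ≤
      S2 X (fun a b => Squarefree (a * b) ∧ ro z a ≠ 1 ∧ ro z b ≠ 1 ∧ FitsZ D z a b)
        (fun a b => PF vA a * PF vB b * 2 ^ (wt D.aC z a + wt D.bC z b)) := by
    have hch : ∀ m : ℕ, ∃ q : ℕ × ℕ, m ∈ S →
        q.1 * q.2 = m ∧ FitsZ D z q.1 q.2 ∧ (∀ p : ℕ, p.Prime → z < p → p ∣ q.2 → D.bP p) ∧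
          ro z q.1 ≠ 1 ∧ ro z q.2 ≠ 1 := by
      intro m
      by_cases hm : m ∈ S
      · obtain ⟨_, _, a, b, hab⟩ := hS m hm
        exact ⟨(a, b), fun _ => hab⟩
      · exact ⟨(0, 0), fun h => absurd h hm⟩
    choose f hf using hch
    set G : (_ : ℕ) × ℕ → ℝ := fun q =>
      if Squarefree (q.1 * q.2) ∧ ro z q.1 ≠ 1 ∧ ro z q.2 ≠ 1 ∧ FitsZ D z q.1 q.2 then
        PF vA q.1 * PF vB q.2 * 2 ^ (wt D.aC z q.1 + wt D.bC z q.2) else 0 with hG
    have hS2 : S2 X (fun a b => Squarefree (a * b) ∧ ro z a ≠ 1 ∧ ro z b ≠ 1 ∧ FitsZ D z a b)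
        (fun a b => PF vA a * PF vB b * 2 ^ (wt D.aC z a + wt D.bC z b)) =
        ∑ q ∈ (Icc 1 X).sigma (fun a => Icc 1 (X / a)), G q := by
      rw [sum_sigma]
      unfold S2
      refine sum_congr rfl fun a _ => sum_congr rfl fun b _ => ?_
      simp only [hG]
    have hG0 : ∀ q, 0 ≤ G q := by
      intro q
      simp only [hG]
      split_ifs
      · exact mul_nonneg (mul_nonneg (hVA _).1 (hVB _).1) (by positivity)
      · exact le_rfl
    set g : ℕ → (_ : ℕ) × ℕ := fun m => ⟨(f m).1, (f m).2⟩ with hg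
    have hinj : Set.InjOn g (S : Set ℕ) := by
      intro m hm m' hm' hmm
      have e1 : (f m).1 = (f m').1 := congrArg (fun q : (_ : ℕ) × ℕ => q.1) hmm
      have e2 : (f m).2 = (f m').2 := congrArg (fun q : (_ : ℕ) × ℕ => q.2) hmm
      rw [← (hf m (mem_coe.mp hm)).1, ← (hf m' (mem_coe.mp hm')).1, e1, e2]
    have hval : ∀ m ∈ S, T ≤ G (g m) := by
      intro m hm
      obtain ⟨hab, hfz, hfit, hra, hrb⟩ := hf m hm
      obtain ⟨hmX, hTm, _⟩ := hS m hm
      obtain ⟨hm1, hm2, hsq⟩ := mem_sqs.mp hmX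
      have hsq' : Squarefree ((f m).1 * (f m).2) := by rw [hab]; exact hsq
      have hcop : (f m).1.Coprime (f m).2 := Nat.coprime_of_squarefree_mul hsq'
      have hA2 : PF vA (f m).1 * 2 ^ wt D.aC z (f m).1 =
          PF (fun p => if z < p then lam p else 1) (f m).1 := by
        rw [wtE_pow]
        unfold PF
        rw [← prod_mul_distrib]
        refine prod_congr rfl fun p hp => ?_
        have hpp := Nat.prime_of_mem_primeFactors hp
        by_cases hzp : z < p
        · simp only [hvA, if_pos (And.intro hzp hpp), if_pos hzp]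
          unfold ka
          by_cases hc : D.aC p
          · rw [if_pos hc, if_pos ⟨hzp, hc⟩]; ring
          · rw [if_neg hc, if_neg (fun h => hc h.2)]; ring
        · simp only [hvA, if_neg (fun h : z < p ∧ p.Prime => hzp h.1), if_neg hzp]
          rw [if_neg (fun h => hzp h.1)]; ring
      have hB2 : PF vB (f m).2 * 2 ^ wt D.bC z (f m).2 =
          PF (fun p => if z < p then lam p else 1) (f m).2 := by
        rw [wtE_pow]
        unfold PF
        rw [← prod_mul_distrib]
        refine prod_congr rfl fun p hp => ?_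
        have hpp := Nat.prime_of_mem_primeFactors hp
        have hpd := Nat.dvd_of_mem_primeFactors hp
        by_cases hzp : z < p
        · have hbp : D.bP p := hfit p hpp hzp hpd
          simp only [hvB, if_pos (And.intro hzp hpp), if_pos hzp]
          unfold kb
          rw [if_pos hbp]
          by_cases hc : D.bC p
          · rw [if_pos hc, if_pos ⟨hzp, hc⟩]; ring
          · rw [if_neg hc, if_neg (fun h => hc h.2)]; ring
        · simp only [hvB, if_neg (fun h : z < p ∧ p.Prime => hzp h.1), if_neg hzp]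
          rw [if_neg (fun h => hzp h.1)]; ring
      have hPF : PF (fun p => if z < p then lam p else 1) m =
          PF (fun p => if z < p then lam p else 1) (f m).1 *
            PF (fun p => if z < p then lam p else 1) (f m).2 := by
        have h0 : PF (fun p => if z < p then lam p else 1) m =
            PF (fun p => if z < p then lam p else 1) ((f m).1 * (f m).2) := by rw [hab]
        rw [h0]
        unfold PF
        rw [hcop.primeFactors_mul, prod_union hcop.disjoint_primeFactors]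
      have hGv : G (g m) = PF (fun p => if z < p then lam p else 1) m := by
        simp only [hG, hg]
        rw [if_pos ⟨hsq', hra, hrb, hfz⟩, hPF, ← hA2, ← hB2, pow_add]
        ring
      rw [hGv]
      exact hTm
    have hmem : S.image g ⊆ (Icc 1 X).sigma (fun a => Icc 1 (X / a)) := by
      intro q hq
      obtain ⟨m, hm, rfl⟩ := mem_image.mp hq
      obtain ⟨hab, _, _, _, _⟩ := hf m hm
      obtain ⟨hm1, hm2, _⟩ := mem_sqs.mp (hS m hm).1
      have ha : 0 < (f m).1 := by
        rcases Nat.eq_zero_or_pos (f m).1 with h | h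
        · rw [h, zero_mul] at hab; omega
        · exact h
      have hb : 0 < (f m).2 := by
        rcases Nat.eq_zero_or_pos (f m).2 with h | h
        · rw [h, mul_zero] at hab; omega
        · exact h
      have hab2 : (f m).1 * (f m).2 ≤ X := by rw [hab]; exact hm2
      simp only [hg, mem_sigma, mem_Icc]
      refine ⟨⟨ha, ?_⟩, hb, ?_⟩
      · exact le_trans (Nat.le_mul_of_pos_right _ hb) hab2
      · rw [Nat.le_div_iff_mul_le ha, mul_comm]
        exact hab2
    rw [hS2]
    calc T * (S.card : ℝ) = ∑ m ∈ S, T := by rw [sum_const, nsmul_eq_mul, mul_comm]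
      _ ≤ ∑ m ∈ S, G (g m) := sum_le_sum hval
      _ = ∑ q ∈ S.image g, G q := (sum_image hinj).symm
      _ ≤ ∑ q ∈ (Icc 1 X).sigma (fun a => Icc 1 (X / a)), G q :=
          sum_le_sum_of_subset_of_nonneg hmem fun q _ _ => hG0 q
  have hz0 : (0 : ℝ) < z := by
    have : 0 < z := by omega
    exact_mod_cast this
  have hlogz : 0 ≤ Real.log z := Real.log_natCast_nonneg z
  have hlogX : 0 ≤ Real.log X := Real.log_natCast_nonneg X
  have hX0 : (0 : ℝ) ≤ X := Nat.cast_nonneg X
  have hzp : 0 ≤ (z : ℝ) ^ (-(1 / 6 : ℝ)) := Real.rpow_nonneg hz0.le _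
  have h4 : 0 ≤ X * Real.log z := mul_nonneg hX0 hlogz
  have h5 : 0 ≤ X * (z : ℝ) ^ (-(1 / 6 : ℝ)) * (1 + Real.log X) ^ 7 :=
    mul_nonneg (mul_nonneg hX0 hzp) (pow_nonneg (by linarith) 7)
  push_cast at h2
  calc T * (S.card : ℝ) ≤ _ := h3
    _ ≤ _ := h1
    _ ≤ 2 * (C2 * (2 * X) * Real.log z) + C1 * X * (z : ℝ) ^ (-(1 / 6 : ℝ)) * (1 + Real.log X) ^ 7 := by
        linarith
    _ ≤ (C1 + 4 * C2) * X * Real.log z +
        (C1 + 4 * C2) * X * (z : ℝ) ^ (-(1 / 6 : ℝ)) * (1 + Real.log X) ^ 7 := by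
        have h6 : 0 ≤ C1 * (X * Real.log z) := mul_nonneg hC1.le h4
        have h7 : 0 ≤ 4 * C2 * (X * (z : ℝ) ^ (-(1 / 6 : ℝ)) * (1 + Real.log X) ^ 7) :=
          mul_nonneg (by linarith) h5
        nlinarith [h6, h7]

end Pool.Agent.Wal
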