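import Pool.Agent.Lib.MP_6498db_nt.E.TypE
import Pool.Agent.Lib.MP_6498db_nt.E.OneE
import Pool.Agent.Lib.MP_6498db_nt.E.WtE
import Pool.Agent.Lib.MP_6498db_nt.W.Rank

/-! WALSH, block E, row SmallE: one small prime `l`. -/

set_option autoImplicit false

namespace Pool.Agent.Wal

open Finset

private theorem smE_sq {n : ℕ} (hn : Squarefree n) (h1 : 1 < n) : ¬ IsSquare n := by
  rintro ⟨r, hr⟩
  have h2 : IsUnit r := hn r (by rw [hr])
  rw [Nat.isUnit_iff] at h2
  rw [hr, h2] at h1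
  omega

private theorem smE_log {X : ℕ} (hX : 3 ≤ X) : 1 < Real.log X := by
  rw [Real.lt_log_iff_exp_lt (by positivity)]
  have h1 : Real.exp 1 < 3 := lt_trans Real.exp_one_lt_d9 (by norm_num)
  have h2 : (3 : ℝ) ≤ X := by exact_mod_cast hX
  linarith

/-- exponentials win -/
private theorem smE_exp (n : ℕ) : ∃ K : ℝ, 0 ≤ K ∧ ∀ y : ℝ, 0 ≤ y → y ^ n * Real.exp (-(y / 6)) ≤ K := by
  refine ⟨6 ^ n * n.factorial, by positivity, fun y hy => ?_⟩
  have h1 := Real.pow_div_factorial_le_exp (y / 6) (by positivity) n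
  have h2 : (0 : ℝ) < n.factorial := by exact_mod_cast n.factorial_pos
  rw [div_le_iff₀ h2, div_pow, div_le_iff₀ (by positivity)] at h1
  rw [Real.exp_neg, ← div_eq_mul_inv, div_le_iff₀ (Real.exp_pos _)]
  calc y ^ n ≤ Real.exp (y / 6) * n.factorial * 6 ^ n := h1
    _ = 6 ^ n * n.factorial * Real.exp (y / 6) := by ring

/-- the error term of the weighted count -/
private theorem smE_err : ∃ K : ℝ, 0 ≤ K ∧ ∀ X : ℕ, 3 ≤ X → 3 ≤ zz (1 / 64) X →
    (zz (1 / 64) X : ℝ) ^ (-(1 / 6 : ℝ)) * (1 + Real.log X) ^ 7 ≤ K := by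
  obtain ⟨K, hK, h⟩ := smE_exp 448
  refine ⟨2 * (128 * K), by positivity, fun X hX hz => ?_⟩
  have hl := smE_log hX
  set y : ℝ := Real.log X ^ (1 / 64 : ℝ) with hy
  have hy0 : 0 ≤ y := Real.rpow_nonneg (by linarith) _
  have hyL : y ^ 64 = Real.log X := by
    rw [hy, ← Real.rpow_natCast, ← Real.rpow_mul (by linarith)]
    norm_num
  have h1 : (zz (1 / 64) X : ℝ) ≥ Real.exp y / 2 := by
    have h2 : Real.exp y < zz (1 / 64) X + 1 := Nat.lt_floor_add_one _
    have h3 : (3 : ℝ) ≤ zz (1 / 64) X := by exact_mod_cast hz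
    linarith
  have h2 : (zz (1 / 64) X : ℝ) ^ (-(1 / 6 : ℝ)) ≤ 2 * Real.exp (-(y / 6)) := by
    calc (zz (1 / 64) X : ℝ) ^ (-(1 / 6 : ℝ)) ≤ (Real.exp y / 2) ^ (-(1 / 6 : ℝ)) :=
          Real.rpow_le_rpow_of_nonpos (by positivity) h1 (by norm_num)
      _ = Real.exp (-(y / 6)) * (2 : ℝ) ^ (1 / 6 : ℝ) := by
          rw [Real.div_rpow (Real.exp_pos _).le zero_le_two, ← Real.exp_mul,
            Real.rpow_neg zero_le_two, div_inv_eq_mul]
          congr 2
          ring
      _ ≤ Real.exp (-(y / 6)) * 2 := by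
          refine mul_le_mul_of_nonneg_left ?_ (Real.exp_pos _).le
          calc (2 : ℝ) ^ (1 / 6 : ℝ) ≤ (2 : ℝ) ^ (1 : ℝ) :=
                Real.rpow_le_rpow_of_exponent_le (by norm_num) (by norm_num)
            _ = 2 := Real.rpow_one _
      _ = 2 * Real.exp (-(y / 6)) := mul_comm _ _
  have h3 : (1 + Real.log X) ^ 7 ≤ 128 * y ^ 448 := by
    calc (1 + Real.log X) ^ 7 ≤ (2 * Real.log X) ^ 7 :=
          pow_le_pow_left₀ (by linarith) (by linarith) 7
      _ = 128 * y ^ 448 := by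
          rw [mul_pow, ← hyL, ← pow_mul]
          norm_num
  calc (zz (1 / 64) X : ℝ) ^ (-(1 / 6 : ℝ)) * (1 + Real.log X) ^ 7
      ≤ 2 * Real.exp (-(y / 6)) * (128 * y ^ 448) :=
        mul_le_mul h2 h3 (pow_nonneg (by linarith) _) (by positivity)
    _ = 2 * (128 * (y ^ 448 * Real.exp (-(y / 6)))) := by ring
    _ ≤ 2 * (128 * K) := by
        have := h y hy0
        linarith

/-- the trivial bound if `z < 3` -/
private theorem smE_triv {X : ℕ} (hX : 3 ≤ X) (hz : ¬ 3 ≤ zz (1 / 64) X) :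
    (X : ℝ) ≤ 4 * X * Real.log X ^ (-(1 / 32 : ℝ)) := by
  have hl := smE_log hX
  set y : ℝ := Real.log X ^ (1 / 64 : ℝ) with hy
  have hy0 : 0 ≤ y := Real.rpow_nonneg (by linarith) _
  have hy2 : y ≤ 2 := by
    by_contra hcon
    push Not at hcon
    apply hz
    apply Nat.le_floor
    have h3 : y + 1 ≤ Real.exp y := Real.add_one_le_exp y
    push_cast
    linarith
  have h1 : Real.log X ^ (1 / 32 : ℝ) = y ^ 2 := by
    rw [hy, ← Real.rpow_natCast, ← Real.rpow_mul (by linarith)]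
    norm_num
  have h2 : Real.log X ^ (1 / 32 : ℝ) ≤ 4 := by
    rw [h1]
    nlinarith
  have h3 : 0 < Real.log X ^ (1 / 32 : ℝ) := Real.rpow_pos_of_pos (by linarith) _
  rw [Real.rpow_neg (by linarith), ← div_eq_mul_inv, le_div_iff₀ h3]
  have h4 : (0 : ℝ) ≤ X := by positivity
  nlinarith

private theorem smE_card {X : ℕ} {S : Finset ℕ} (h : ∀ m ∈ S, m ∈ sqs X) : (S.card : ℝ) ≤ X := by
  have h1 : S ⊆ Icc 1 X := by
    intro m hm
    obtain ⟨h2, h3, -⟩ := mem_sqs.1 (h m hm)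
    exact mem_Icc.2 ⟨h2, h3⟩
  have h2 := Finset.card_le_card h1
  rw [Nat.card_Icc] at h2
  have h3 : S.card ≤ X := by omega
  exact_mod_cast h3

private theorem smE_lam_pos (l p : ℕ) : 0 < lamE l p := by
  unfold lamE
  split_ifs <;> norm_num

private theorem smE_lam_k (l c p : ℕ) : lamE l p * (ka (datE l c) p + kb (datE l c) p) ≤ 1 := by
  classical
  have h1 : ka (datE l c) p = 1 / 2 := if_pos trivial
  rw [h1]
  by_cases h : p % l = 1
  · have h2 : kb (datE l c) p = 1 := by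
      unfold kb
      rw [if_pos (show (datE l c).bP p from h), if_neg (show ¬ (datE l c).bC p from fun h => h)]
    have h3 : lamE l p = 2 / 3 := if_pos h
    rw [h2, h3]
    norm_num
  · have h2 : kb (datE l c) p = 0 := if_neg (show ¬ (datE l c).bP p from h)
    have h3 : lamE l p = 2 := if_neg h
    rw [h2, h3]
    norm_num

/-- `c b` is not a square. Proof. `b > 1` is squarefree and prime to `l` (its primes are `1` mod `l`), so `b` and `l b` are
squarefree and `> 1`. -/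
theorem fitE_nsq {l c a b : ℕ} (hl : l.Prime) (hc : c = 1 ∨ c = l) (hm : Squarefree (a * b)) (h : FitE l c a b) :
    ¬ IsSquare (c * b) := by
  have hb : Squarefree b := hm.squarefree_of_dvd (dvd_mul_left b a)
  rcases hc with rfl | rfl
  · rw [one_mul]
    exact smE_sq hb h.one
  · have h1 : ¬ c ∣ b := by
      intro hd
      have h2 := h.mem c hl hd
      rw [Nat.mod_self] at h2
      exact absurd h2 (by norm_num)
    have h2 : Nat.Coprime c b := (Nat.Prime.coprime_iff_not_dvd hl).2 h1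
    refine smE_sq ((Nat.squarefree_mul h2).2 ⟨hl.prime.squarefree, hb⟩) ?_
    have h3 := h.one
    have h4 := hl.one_lt
    nlinarith

/-- Proof. `η` of `typE`, `z = zz (1/64) X`, `Z = exp((log X)^(1/32))`; for `X < X₀` trivial (`S.card ≤ X`). Remove from `S`
the `m` with `PF lamE < (log X)^(1/16)` (`typE`), `Z < sm z m` (`rank` with `δ = 1/64`), some `FitE l c a b` with `b ≤ Z`
(`oneE`, `fitE_nsq`). The others satisfy the hypothesis of `weightedE` for `D = datE l c`, `lam = lamE l`, `T = (log X)^(1/16)`: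
`lam p (ka + kb) = 2 (1/2 + 0)` or `(2/3)(1/2 + 1) = 1`; `ro z b ≠ 1` since `b > Z ≥ sm z m` (if `ro z b = 1` then
`b ∣ sm z m`); `ro z a ≠ 1`: `PF lamE m > 1` needs a prime `p > z`, `p ∣ m`, `p % l ≠ 1`, so `p ∤ b`, `p ∣ a`.
`log z ≤ (log X)^(1/64)`, `z^(-1/6) (1 + log X)^7 ≤ C`. So the number of the others is at most
`C X (log X)^(1/64 - 1/16) ≤ C X (log X)^(-1/32)`. -/
theorem smallE : ∃ η : ℝ, 0 < η ∧ η ≤ 1 / 64 ∧ ∃ C : ℝ, ∀ X : ℕ, 3 ≤ X → ∀ l : ℕ, l.Prime → 5 ≤ l →
    (l : ℝ) ≤ Real.log X ^ η → ∀ c : ℕ, (c = 1 ∨ c = l) → ∀ S : Finset ℕ,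
    (∀ m ∈ S, m ∈ sqs X ∧ ∃ a b : ℕ, a * b = m ∧ FitE l c a b) →
    (S.card : ℝ) ≤ C * X * Real.log X ^ (-(1 / 32 : ℝ)) := by
  classical
  obtain ⟨η, hη, hη2, C₁, h₁⟩ := typE
  obtain ⟨C₂, h₂⟩ := rank (1 / 64) (by norm_num) (by norm_num)
  obtain ⟨C₃, h₃⟩ := oneE
  obtain ⟨C₄, h₄⟩ := weightedE
  obtain ⟨K, hK, hKe⟩ := smE_err
  refine ⟨η, hη, hη2, 4 + |C₁| + |C₂| + |C₃| + |C₄| * (1 + K), fun X hX l hl hl5 hlX c hc S hS => ?_⟩
  have hL := smE_log hX
  have hL0 : 0 < Real.log X := by linarith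
  have hX0 : (0 : ℝ) ≤ X := by positivity
  have hP0 : 0 < Real.log X ^ (-(1 / 32 : ℝ)) := Real.rpow_pos_of_pos hL0 _
  have hSs : ∀ m ∈ S, m ∈ sqs X := fun m hm => (hS m hm).1
  by_cases hz : 3 ≤ zz (1 / 64) X
  swap
  · refine (smE_card hSs).trans ((smE_triv hX hz).trans ?_)
    refine mul_le_mul_of_nonneg_right (mul_le_mul_of_nonneg_right ?_ hX0) hP0.le
    have e1 := abs_nonneg C₁
    have e2 := abs_nonneg C₂
    have e3 := abs_nonneg C₃
    have e4 : 0 ≤ |C₄| * (1 + K) := mul_nonneg (abs_nonneg C₄) (by linarith)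
    linarith
  set z := zz (1 / 64) X with hzdef
  -- powers of the logarithm
  have hpow : ∀ a : ℝ, a ≤ -(1 / 32 : ℝ) → Real.log X ^ a ≤ Real.log X ^ (-(1 / 32 : ℝ)) :=
    fun a ha => Real.rpow_le_rpow_of_exponent_le hL.le ha
  have hbd : ∀ (n C a : ℝ), a ≤ -(1 / 32 : ℝ) → n ≤ C * X * Real.log X ^ a →
      n ≤ |C| * X * Real.log X ^ (-(1 / 32 : ℝ)) := by
    intro n C a ha hn
    refine hn.trans ?_
    have h5 : 0 ≤ Real.log X ^ a := Real.rpow_nonneg hL0.le _
    calc C * X * Real.log X ^ a ≤ |C| * X * Real.log X ^ a :=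
          mul_le_mul_of_nonneg_right (mul_le_mul_of_nonneg_right (le_abs_self C) hX0) h5
      _ ≤ |C| * X * Real.log X ^ (-(1 / 32 : ℝ)) :=
          mul_le_mul_of_nonneg_left (hpow a ha) (mul_nonneg (abs_nonneg C) hX0)
  obtain ⟨P1, hP1⟩ : ∃ P1 : ℕ → Prop, P1 = fun m =>
    PF (fun p => if z < p then lamE l p else 1) m < Real.log X ^ (1 / 16 : ℝ) := ⟨_, rfl⟩
  obtain ⟨P2, hP2⟩ : ∃ P2 : ℕ → Prop, P2 = fun m =>
    Real.exp (Real.log X ^ (2 * (1 / 64 : ℝ))) < (sm z m : ℝ) := ⟨_, rfl⟩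
  obtain ⟨P3, hP3⟩ : ∃ P3 : ℕ → Prop, P3 = fun m => ∃ a b : ℕ, a * b = m ∧ FitE l c a b ∧
    (b : ℝ) ≤ Real.exp (Real.log X ^ (1 / 32 : ℝ)) := ⟨_, rfl⟩
  have b1 : ((S.filter P1).card : ℝ) ≤ |C₁| * X * Real.log X ^ (-(1 / 32 : ℝ)) := by
    refine hbd _ C₁ (-(1 / 8 : ℝ)) (by norm_num) ?_
    refine le_trans ?_ (h₁ X hX l hl hl5 hlX)
    have h5 : S.filter P1 ⊆ (sqs X).filter (fun m =>
        PF (fun p => if zz (1 / 64) X < p then lamE l p else 1) m < Real.log X ^ (1 / 16 : ℝ)) := by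
      intro m hm
      obtain ⟨h6, h7⟩ := mem_filter.1 hm
      rw [hP1] at h7
      exact mem_filter.2 ⟨hSs m h6, h7⟩
    exact_mod_cast Finset.card_le_card h5
  have b2 : ((S.filter P2).card : ℝ) ≤ |C₂| * X * Real.log X ^ (-(1 / 32 : ℝ)) := by
    refine hbd _ C₂ (-(1 : ℝ)) (by norm_num) (h₂ X hX _ fun m hm => ?_)
    obtain ⟨h6, h7⟩ := mem_filter.1 hm
    rw [hP2] at h7
    exact ⟨hSs m h6, h7⟩
  have b3 : ((S.filter P3).card : ℝ) ≤ |C₃| * X * Real.log X ^ (-(1 / 32 : ℝ)) := by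
    have hc1 : 1 ≤ c := by
      rcases hc with h | h
      · omega
      · have := hl.one_lt
        omega
    have hcL : (c : ℝ) ≤ Real.log X := by
      rcases hc with h | h
      · rw [h, Nat.cast_one]
        exact hL.le
      · rw [h]
        refine hlX.trans ?_
        calc Real.log X ^ η ≤ Real.log X ^ (1 : ℝ) :=
              Real.rpow_le_rpow_of_exponent_le hL.le (by linarith)
          _ = Real.log X := Real.rpow_one _
    refine hbd _ C₃ (-(1 / 8 : ℝ)) (by norm_num) (h₃ X c hX hc1 hcL _ fun m hm => ?_)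
    obtain ⟨h6, h7⟩ := mem_filter.1 hm
    rw [hP3] at h7
    obtain ⟨a, b, hab, hf, hb⟩ := h7
    have hsq := (mem_sqs.1 (hSs m h6)).2.2
    refine ⟨hSs m h6, a, b, hab, hb, fitE_nsq hl hc (by rw [hab]; exact hsq) hf, ?_⟩
    intro p hp h3 _ hpa
    exact hf.ca p hp (by omega) hpa
  have b4 : ((S.filter (fun m => ¬ P1 m ∧ ¬ P2 m ∧ ¬ P3 m)).card : ℝ) ≤
      |C₄| * (1 + K) * X * Real.log X ^ (-(1 / 32 : ℝ)) := by
    have hT0 : 0 < Real.log X ^ (1 / 16 : ℝ) := Real.rpow_pos_of_pos hL0 _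
    have hT1 : 1 < Real.log X ^ (1 / 16 : ℝ) := Real.one_lt_rpow hL (by norm_num)
    have h5 := h₄ (datE l c) (fun _ => Or.inl rfl) (fun _ => Or.inl rfl) (lamE l)
      (smE_lam_pos l) (fun p _ _ => smE_lam_k l c p) z X _ hz hX hT0
      (S.filter (fun m => ¬ P1 m ∧ ¬ P2 m ∧ ¬ P3 m)) (by
        intro m hm
        obtain ⟨h6, h7, h8, h9⟩ := mem_filter.1 hm
        rw [hP1] at h7
        rw [hP2] at h8
        have hT : Real.log X ^ (1 / 16 : ℝ) ≤ PF (fun p => if z < p then lamE l p else 1) m :=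
          not_lt.1 h7
        have hsm : (sm z m : ℝ) ≤ Real.exp (Real.log X ^ (1 / 32 : ℝ)) := by
          have h10 := not_lt.1 h8
          have h11 : (2 * (1 / 64) : ℝ) = 1 / 32 := by norm_num
          rwa [h11] at h10
        obtain ⟨hms, a, b, hab, hf⟩ := hS m h6
        have hsq := (mem_sqs.1 hms).2.2
        have hm0 : m ≠ 0 := hsq.ne_zero
        have hb0 : b ≠ 0 := by
          rintro rfl
          exact hm0 (by rw [← hab, mul_zero])
        have ha0 : a ≠ 0 := by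
          rintro rfl
          exact hm0 (by rw [← hab, zero_mul])
        refine ⟨hms, hT, a, b, hab, ⟨?_, fun q _ _ _ h => h.elim⟩, ?_, ?_, ?_⟩
        · intro p hp hzp hpa _
          exact hf.ca p hp (by omega) hpa
        · intro p hp _ hpb
          exact hf.mem p hp hpb
        · intro hro
          have hle : PF (fun p => if z < p then lamE l p else 1) m ≤ 1 := by
            unfold PF
            refine Finset.prod_le_one (fun p _ => ?_) fun p hp => ?_
            · split_ifs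
              · exact (smE_lam_pos l p).le
              · exact zero_le_one
            · split_ifs with hzp
              · have hpp := Nat.prime_of_mem_primeFactors hp
                have hpm := Nat.dvd_of_mem_primeFactors hp
                rw [← hab] at hpm
                rcases (Nat.Prime.dvd_mul hpp).1 hpm with h10 | h10
                · exfalso
                  have h11 := prime_dvd_ro_of z a p hpp ha0 h10 hzp
                  rw [hro] at h11
                  exact hpp.one_lt.ne' (Nat.dvd_one.1 h11)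
                · have h11 : lamE l p = 2 / 3 := if_pos (hf.mem p hpp h10)
                  rw [h11]
                  norm_num
              · exact le_rfl
          linarith
        · intro hro
          apply h9
          rw [hP3]
          refine ⟨a, b, hab, hf, ?_⟩
          have hbs : Squarefree b := hsq.squarefree_of_dvd ⟨a, by rw [← hab, mul_comm]⟩
          have h10 : sm z b = b := by
            have h11 := sm_mul_ro z b hbs
            rwa [hro, mul_one] at h11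
          have h11 : sm z b ≤ sm z m := by
            unfold sm
            refine Nat.le_of_dvd (Finset.prod_pos fun p hp => ?_) ?_
            · exact (Nat.prime_of_mem_primeFactors (mem_filter.1 hp).1).pos
            · refine Finset.prod_dvd_prod_of_subset _ _ _ ?_
              refine Finset.filter_subset_filter _ ?_
              exact Nat.primeFactors_mono ⟨a, by rw [← hab, mul_comm]⟩ hm0
          rw [h10] at h11
          have h12 : (b : ℝ) ≤ sm z m := by exact_mod_cast h11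
          exact h12.trans hsm)
    have hlz : Real.log z ≤ Real.log X ^ (1 / 64 : ℝ) := by
      have h6 : (z : ℝ) ≤ Real.exp (Real.log X ^ (1 / 64 : ℝ)) := Nat.floor_le (Real.exp_pos _).le
      have h7 : (0 : ℝ) < z := by
        have : 0 < z := by omega
        exact_mod_cast this
      rw [← Real.log_exp (Real.log X ^ (1 / 64 : ℝ))]
      exact Real.log_le_log h7 h6
    have hlz0 : 0 ≤ Real.log z := Real.log_natCast_nonneg z
    have h64 : 1 ≤ Real.log X ^ (1 / 64 : ℝ) := Real.one_le_rpow hL.le (by norm_num)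
    have hE := hKe X hX hz
    have hE0 : 0 ≤ (z : ℝ) ^ (-(1 / 6 : ℝ)) * (1 + Real.log X) ^ 7 := by positivity
    have h6 : C₄ * X * Real.log z + C₄ * X * (z : ℝ) ^ (-(1 / 6 : ℝ)) * (1 + Real.log X) ^ 7 ≤
        |C₄| * (1 + K) * X * Real.log X ^ (1 / 64 : ℝ) := by
      have h7 : C₄ * X * Real.log z + C₄ * X * (z : ℝ) ^ (-(1 / 6 : ℝ)) * (1 + Real.log X) ^ 7 =
          C₄ * (X * (Real.log z + (z : ℝ) ^ (-(1 / 6 : ℝ)) * (1 + Real.log X) ^ 7)) := by ring
      rw [h7]
      have h8 : 0 ≤ (X : ℝ) * (Real.log z + (z : ℝ) ^ (-(1 / 6 : ℝ)) * (1 + Real.log X) ^ 7) :=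
        mul_nonneg hX0 (by linarith)
      refine (mul_le_mul_of_nonneg_right (le_abs_self C₄) h8).trans ?_
      have h9 : Real.log z + (z : ℝ) ^ (-(1 / 6 : ℝ)) * (1 + Real.log X) ^ 7 ≤
          (1 + K) * Real.log X ^ (1 / 64 : ℝ) := by nlinarith
      calc |C₄| * (X * (Real.log z + (z : ℝ) ^ (-(1 / 6 : ℝ)) * (1 + Real.log X) ^ 7))
          ≤ |C₄| * (X * ((1 + K) * Real.log X ^ (1 / 64 : ℝ))) :=
            mul_le_mul_of_nonneg_left (mul_le_mul_of_nonneg_left h9 hX0) (abs_nonneg _)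
        _ = |C₄| * (1 + K) * X * Real.log X ^ (1 / 64 : ℝ) := by ring
    have h7 := h5.trans h6
    have h8 : Real.log X ^ (1 / 64 : ℝ) ≤ Real.log X ^ (1 / 16 : ℝ) * Real.log X ^ (-(1 / 32 : ℝ)) := by
      rw [← Real.rpow_add hL0]
      exact Real.rpow_le_rpow_of_exponent_le hL.le (by norm_num)
    have h9 : 0 ≤ |C₄| * (1 + K) * X :=
      mul_nonneg (mul_nonneg (abs_nonneg _) (by linarith)) hX0
    have h10 := h7.trans (mul_le_mul_of_nonneg_left h8 h9)
    have h11 : |C₄| * (1 + K) * X * (Real.log X ^ (1 / 16 : ℝ) * Real.log X ^ (-(1 / 32 : ℝ))) =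
        Real.log X ^ (1 / 16 : ℝ) * (|C₄| * (1 + K) * X * Real.log X ^ (-(1 / 32 : ℝ))) := by ring
    rw [h11] at h10
    exact le_of_mul_le_mul_left h10 hT0
  have hcov : S ⊆ ((S.filter P1 ∪ S.filter P2) ∪ S.filter P3) ∪
      S.filter (fun m => ¬ P1 m ∧ ¬ P2 m ∧ ¬ P3 m) := by
    intro m hm
    rw [mem_union, mem_union, mem_union, mem_filter, mem_filter, mem_filter, mem_filter]
    tauto
  have hcard : (S.card : ℝ) ≤ (S.filter P1).card + (S.filter P2).card + (S.filter P3).card +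
      (S.filter (fun m => ¬ P1 m ∧ ¬ P2 m ∧ ¬ P3 m)).card := by
    have h5 := Finset.card_le_card hcov
    have h6 := Finset.card_union_le ((S.filter P1 ∪ S.filter P2) ∪ S.filter P3)
      (S.filter (fun m => ¬ P1 m ∧ ¬ P2 m ∧ ¬ P3 m))
    have h7 := Finset.card_union_le (S.filter P1 ∪ S.filter P2) (S.filter P3)
    have h8 := Finset.card_union_le (S.filter P1) (S.filter P2)
    have h9 : S.card ≤ (S.filter P1).card + (S.filter P2).card + (S.filter P3).card +
      (S.filter (fun m => ¬ P1 m ∧ ¬ P2 m ∧ ¬ P3 m)).card := by omega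
    exact_mod_cast h9
  have h10 : 0 ≤ (X : ℝ) * Real.log X ^ (-(1 / 32 : ℝ)) := mul_nonneg hX0 hP0.le
  calc (S.card : ℝ) ≤ |C₁| * X * Real.log X ^ (-(1 / 32 : ℝ)) +
        |C₂| * X * Real.log X ^ (-(1 / 32 : ℝ)) + |C₃| * X * Real.log X ^ (-(1 / 32 : ℝ)) +
        |C₄| * (1 + K) * X * Real.log X ^ (-(1 / 32 : ℝ)) := by linarith
    _ ≤ (4 + |C₁| + |C₂| + |C₃| + |C₄| * (1 + K)) * X * Real.log X ^ (-(1 / 32 : ℝ)) := by
        nlinarith

end Pool.Agent.Wal
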