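import Pool.Agent.Lib.MP_6498db_nt.E.Bt

/-! WALSH, block E, row TwoE: two primes which are `1` mod a large prime `l`. -/

set_option autoImplicit false

namespace Pool.Agent.Wal

open Finset

private theorem twoE_pt {C η LX T l s : ℝ} (hC : 0 < C) (hη : 0 < η) (hLX : 1 ≤ LX) (hT : T = LX ^ η)
    (hl : T < l) (hl1 : 1 ≤ l) (hs0 : 0 ≤ s)
    (hs : s ≤ C * (Real.log LX + Real.log l + 1) / l) :
    s ^ 2 ≤ (C * (16 / η + 17)) ^ 2 * LX ^ (-(η / 2)) * l ^ (-(5 / 4) : ℝ) := by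
  have hL0 : 0 < LX := lt_of_lt_of_le one_pos hLX
  have hl0 : 0 < l := lt_of_lt_of_le one_pos hl1
  have hT0 : 0 < T := by rw [hT]; exact Real.rpow_pos_of_pos hL0 η
  obtain ⟨A, hA⟩ : ∃ A : ℝ, A = LX ^ (η / 16) := ⟨_, rfl⟩
  obtain ⟨B, hB⟩ : ∃ B : ℝ, B = l ^ (1 / 16 : ℝ) := ⟨_, rfl⟩
  have hA1 : 1 ≤ A := by rw [hA]; exact Real.one_le_rpow hLX (by positivity)
  have hB1 : 1 ≤ B := by rw [hB]; exact Real.one_le_rpow hl1 (by norm_num)
  have h1 : Real.log LX ≤ 16 / η * A := by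
    have h := Real.log_le_rpow_div hL0.le (ε := η / 16) (by positivity)
    rw [← hA] at h
    calc Real.log LX ≤ A / (η / 16) := h
      _ = 16 / η * A := by field_simp
  have h2 : Real.log l ≤ 16 * B := by
    have h := Real.log_le_rpow_div hl0.le (ε := (1 / 16 : ℝ)) (by norm_num)
    rw [← hB] at h
    linarith
  have hAB : A ≤ A * B := le_mul_of_one_le_right (by linarith) hB1
  have hBA : B ≤ A * B := le_mul_of_one_le_left (by linarith) hA1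
  have h3 : Real.log LX + Real.log l + 1 ≤ (16 / η + 17) * (A * B) := by
    have h4 : 16 / η * A ≤ 16 / η * (A * B) := mul_le_mul_of_nonneg_left hAB (by positivity)
    nlinarith
  have h5 : s ≤ C * (16 / η + 17) * (A * B) / l := by
    refine hs.trans ?_
    rw [mul_assoc C]
    gcongr
  have h6 : s ^ 2 ≤ (C * (16 / η + 17) * (A * B) / l) ^ 2 := pow_le_pow_left₀ hs0 h5 2
  refine h6.trans ?_
  have hA2 : A ^ 2 = LX ^ (η / 8) := by
    rw [hA, ← Real.rpow_natCast, ← Real.rpow_mul hL0.le]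
    congr 1
    push_cast
    ring
  have hB2 : B ^ 2 / l ^ 2 = l ^ (-(5 / 8) : ℝ) * l ^ (-(5 / 4) : ℝ) := by
    rw [hB, ← Real.rpow_add hl0, ← Real.rpow_natCast, ← Real.rpow_mul hl0.le, ← Real.rpow_natCast l 2,
      ← Real.rpow_sub hl0]
    congr 1
    push_cast
    norm_num
  have h7 : l ^ (-(5 / 8) : ℝ) ≤ T ^ (-(5 / 8) : ℝ) :=
    Real.rpow_le_rpow_of_nonpos hT0 hl.le (by norm_num)
  have h8 : LX ^ (η / 8) * T ^ (-(5 / 8) : ℝ) = LX ^ (-(η / 2)) := by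
    rw [hT, ← Real.rpow_mul hL0.le, ← Real.rpow_add hL0]
    congr 1
    ring
  have h9 : (C * (16 / η + 17) * (A * B) / l) ^ 2 =
      (C * (16 / η + 17)) ^ 2 * (A ^ 2 * (B ^ 2 / l ^ 2)) := by
    field_simp
  rw [h9, hA2, hB2, ← h8]
  have h10 : 0 ≤ l ^ (-(5 / 4) : ℝ) := (Real.rpow_pos_of_pos hl0 _).le
  have h11 : 0 ≤ LX ^ (η / 8) := (Real.rpow_pos_of_pos hL0 _).le
  calc (C * (16 / η + 17)) ^ 2 * (LX ^ (η / 8) * (l ^ (-(5 / 8) : ℝ) * l ^ (-(5 / 4) : ℝ)))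
      ≤ (C * (16 / η + 17)) ^ 2 * (LX ^ (η / 8) * (T ^ (-(5 / 8) : ℝ) * l ^ (-(5 / 4) : ℝ))) := by
        gcongr
    _ = _ := by ring

/-- Proof. `L = (log X)^η`. The number is at most `∑_{L < l ≤ X} ∑_{p, q} X / (p q) ≤ X ∑_{L < l ≤ X} (SL l X)^2`
(`l < p ≤ X`), and `sl_bt`: `≤ C X ∑_{l > L} (loglog X + log l + 1)^2 / l^2 ≤ C' X (log X)^(η/4) ∑_{l > L} l^(1/4 - 2)
≤ C'' X (log X)^(η/4 - 3η/4)` (`loglog X + 1 ≤ C (log X)^(η/8)`, `log l ≤ 8 l^(1/8)`). -/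
theorem twoE (η : ℝ) (hη : 0 < η) (hη1 : η ≤ 1) : ∃ C : ℝ, ∀ X : ℕ, 3 ≤ X → ∀ S : Finset ℕ,
    (∀ m ∈ S, 1 ≤ m ∧ m ≤ X ∧ ∃ l p q : ℕ, l.Prime ∧ Real.log X ^ η < (l : ℝ) ∧ p.Prime ∧ q.Prime ∧ p ≠ q ∧
      p % l = 1 ∧ q % l = 1 ∧ p * q ∣ m) →
    (S.card : ℝ) ≤ C * X * Real.log X ^ (-(η / 2)) := by
  classical
  obtain ⟨C, hC, hsl⟩ := sl_bt
  have hsum : Summable fun n : ℕ => (n : ℝ) ^ (-(5 / 4) : ℝ) :=
    Real.summable_nat_rpow.2 (by norm_num)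
  refine ⟨(C * (16 / η + 17)) ^ 2 * ∑' n : ℕ, (n : ℝ) ^ (-(5 / 4) : ℝ), fun X hX S hS => ?_⟩
  have hX0 : (3 : ℝ) ≤ X := by exact_mod_cast hX
  have hLX : 1 ≤ Real.log X := by
    rw [Real.le_log_iff_exp_le (by linarith)]
    have := Real.exp_one_lt_d9
    linarith
  set Q : ℕ → Finset ℕ := fun l => (prs X).filter fun p => p % l = 1 with hQ
  set P : Finset ℕ := (prs X).filter fun l => Real.log X ^ η < (l : ℝ) with hP
  have hcount : ∀ d : ℕ, (((Icc 1 X).filter fun m => d ∣ m).card : ℝ) ≤ (X : ℝ) / d := by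
    intro d
    have h1 : (Icc 1 X).filter (fun m => d ∣ m) = (Ioc 0 X).filter (fun m => d ∣ m) := rfl
    rw [h1, Nat.Ioc_filter_dvd_card_eq_div]
    exact Nat.cast_div_le
  have hsub : S ⊆ P.biUnion fun l => (Q l).biUnion fun p => (Q l).biUnion fun q =>
      (Icc 1 X).filter fun m => p * q ∣ m := by
    intro m hm
    obtain ⟨hm1, hmX, l, p, q, hl, hTl, hp, hq, _, hpl, hql, hdvd⟩ := hS m hm
    have hpq : p * q ≤ X := (Nat.le_of_dvd hm1 hdvd).trans hmX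
    have hpX : p ≤ X := (Nat.le_mul_of_pos_right p hq.pos).trans hpq
    have hqX : q ≤ X := (Nat.le_mul_of_pos_left q hp.pos).trans hpq
    have hlp : l ≤ p := by
      by_contra hlt
      rw [Nat.mod_eq_of_lt (not_le.1 hlt)] at hpl
      exact hp.one_lt.ne' hpl
    simp only [mem_biUnion, mem_filter, mem_Icc, hP, hQ, mem_prs]
    exact ⟨l, ⟨⟨hl, hlp.trans hpX⟩, hTl⟩, p, ⟨⟨hp, hpX⟩, hpl⟩, q, ⟨⟨hq, hqX⟩, hql⟩, ⟨hm1, hmX⟩, hdvd⟩
  have hcard : (S.card : ℝ) ≤ ∑ l ∈ P, (X : ℝ) * (SL l X) ^ 2 := by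
    have h1 := (Finset.card_le_card hsub).trans Finset.card_biUnion_le
    have h2 : (S.card : ℝ) ≤ ∑ l ∈ P, (((Q l).biUnion fun p => (Q l).biUnion fun q =>
        (Icc 1 X).filter fun m => p * q ∣ m).card : ℝ) := by exact_mod_cast h1
    refine h2.trans (Finset.sum_le_sum fun l _ => ?_)
    have h3 : (((Q l).biUnion fun p => (Q l).biUnion fun q =>
        (Icc 1 X).filter fun m => p * q ∣ m).card : ℝ) ≤ ∑ p ∈ Q l, ∑ q ∈ Q l,
          (((Icc 1 X).filter fun m => p * q ∣ m).card : ℝ) := by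
      have h4 : ((Q l).biUnion fun p => (Q l).biUnion fun q =>
        (Icc 1 X).filter fun m => p * q ∣ m).card ≤ ∑ p ∈ Q l, ∑ q ∈ Q l,
          ((Icc 1 X).filter fun m => p * q ∣ m).card :=
        Finset.card_biUnion_le.trans (Finset.sum_le_sum fun p _ => Finset.card_biUnion_le)
      exact_mod_cast h4
    refine h3.trans ?_
    have h5 : (X : ℝ) * (SL l X) ^ 2 = ∑ p ∈ Q l, ∑ q ∈ Q l, (X : ℝ) * ((1 / p) * (1 / q)) := by
      have h6 : SL l X = ∑ p ∈ Q l, (1 : ℝ) / p := rfl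
      rw [sq, h6, Finset.sum_mul_sum, Finset.mul_sum]
      refine Finset.sum_congr rfl fun p _ => ?_
      rw [Finset.mul_sum]
    rw [h5]
    refine Finset.sum_le_sum fun p _ => Finset.sum_le_sum fun q _ => ?_
    refine (hcount (p * q)).trans (le_of_eq ?_)
    push_cast
    rw [div_mul_div_comm, one_mul, mul_one_div]
  refine hcard.trans ?_
  have hpt : ∀ l ∈ P, (X : ℝ) * (SL l X) ^ 2 ≤ (X : ℝ) * ((C * (16 / η + 17)) ^ 2 *
      Real.log X ^ (-(η / 2)) * (l : ℝ) ^ (-(5 / 4) : ℝ)) := by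
    intro l hl
    rw [hP, mem_filter, mem_prs] at hl
    have hl1 : (1 : ℝ) ≤ l := by exact_mod_cast hl.1.1.one_le
    refine mul_le_mul_of_nonneg_left ?_ (Nat.cast_nonneg X)
    refine twoE_pt hC hη hLX rfl hl.2 hl1 ?_ (hsl l X hl.1.1 hX)
    unfold SL
    exact Finset.sum_nonneg fun p _ => by positivity
  refine (Finset.sum_le_sum hpt).trans ?_
  rw [← Finset.mul_sum, ← Finset.mul_sum]
  have hts : ∑ l ∈ P, (l : ℝ) ^ (-(5 / 4) : ℝ) ≤ ∑' n : ℕ, (n : ℝ) ^ (-(5 / 4) : ℝ) :=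
    hsum.sum_le_tsum P fun n _ => Real.rpow_nonneg (Nat.cast_nonneg n) _
  have hLp : 0 ≤ Real.log X ^ (-(η / 2)) := Real.rpow_nonneg (by linarith) _
  calc (X : ℝ) * ((C * (16 / η + 17)) ^ 2 * Real.log X ^ (-(η / 2)) *
        ∑ l ∈ P, (l : ℝ) ^ (-(5 / 4) : ℝ))
      ≤ (X : ℝ) * ((C * (16 / η + 17)) ^ 2 * Real.log X ^ (-(η / 2)) *
        ∑' n : ℕ, (n : ℝ) ^ (-(5 / 4) : ℝ)) := by gcongr
    _ = _ := by ring

end Pool.Agent.Wal
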