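import Pool.Agent.Lib.MP_6498db_nt.E.ArB
import Pool.Agent.Lib.MP_6498db_nt.E.SmallE
import Pool.Agent.Lib.MP_6498db_nt.E.TwoE
import Pool.Agent.Lib.MP_6498db_nt.E.QE
import Pool.Agent.Lib.MP_6498db_nt.E.RareE

/-! WALSH, block E: the exponents which are not prime to `6`. -/

set_option autoImplicit false

namespace Pool.Agent.Wal

open Finset

private theorem fe_log {X : ℕ} (hX : 3 ≤ X) : 1 < Real.log X := by
  rw [Real.lt_log_iff_exp_lt (by positivity)]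
  have h1 : Real.exp 1 < 3 := lt_trans Real.exp_one_lt_d9 (by norm_num)
  have h2 : (3 : ℝ) ≤ X := by exact_mod_cast hX
  linarith

private theorem fe_card {X : ℕ} {S : Finset ℕ} (h : ∀ m ∈ S, m ∈ sqs X) : (S.card : ℝ) ≤ X := by
  have h1 : S ⊆ Icc 1 X := by
    intro m hm
    obtain ⟨h2, h3, -⟩ := mem_sqs.1 (h m hm)
    exact mem_Icc.2 ⟨h2, h3⟩
  have h2 := Finset.card_le_card h1
  rw [Nat.card_Icc] at h2
  have h3 : S.card ≤ X := by omega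
  exact_mod_cast h3

/-- two primes of a squarefree number which is neither `1` nor a prime -/
private theorem fe_two {b : ℕ} (hb : 1 < b) (hs : Squarefree b) (hp : ¬ b.Prime) :
    ∃ p q : ℕ, p.Prime ∧ q.Prime ∧ p ≠ q ∧ p * q ∣ b ∧ p ∣ b ∧ q ∣ b := by
  obtain ⟨p, hpp, k, hk⟩ := Nat.exists_prime_and_dvd hb.ne'
  have hk1 : k ≠ 1 := by
    rintro rfl
    rw [mul_one] at hk
    exact hp (hk ▸ hpp)
  obtain ⟨q, hqq, hqk⟩ := Nat.exists_prime_and_dvd hk1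
  refine ⟨p, q, hpp, hqq, ?_, ?_, ⟨k, hk⟩, ?_⟩
  · rintro rfl
    have h1 : p * p ∣ b := by
      rw [hk]
      exact Nat.mul_dvd_mul_left p hqk
    have h2 := hs p h1
    exact hpp.one_lt.ne' (Nat.isUnit_iff.1 h2)
  · rw [hk]
    exact Nat.mul_dvd_mul_left p hqk
  · rw [hk]
    exact hqk.mul_left p

/-- Proof. `η` of `smallE`, `L = (log X)^η`. If `l ≤ L` for the witness: at most `2 L` pairs `(l, c)`, `smallE`:
`≤ 2 (log X)^η C X (log X)^(-1/32) ≤ 2 C X (log X)^(-1/64)` (`η ≤ 1/64`). If `l > L`: (for `L < 7` shrink: `l > 5` is needed;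
if `l = 5` then ... use `l ≤ max L 5`, i.e. treat `X` with `(log X)^η < 7` trivially) `b` not prime: two primes `p ≠ q` of
`b`, `twoE`; `b` prime: then `c = 1` and `primeE`. -/
theorem rare_minus : RareE (fun m => ∃ l a b c : ℕ, l.Prime ∧ 5 ≤ l ∧ a * b = m ∧ FitE l c a b ∧
    (c = 1 ∨ (c = l ∧ (5 < l → ¬ b.Prime)))) := by
  classical
  obtain ⟨η, hη, hη64, C₁, hsm⟩ := smallE
  obtain ⟨C₂, htw⟩ := twoE η hη (by linarith)
  obtain ⟨C₃, hpr⟩ := primeE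
  refine ⟨2 * |C₁| + |C₂| + |C₃| + 8 ^ (1 / η), η / 2, by positivity, fun X hX S hS => ?_⟩
  have hl := fe_log hX
  have hl0 : 0 < Real.log X := by linarith
  have hX0 : (0 : ℝ) ≤ X := Nat.cast_nonneg X
  obtain ⟨R, hR⟩ : ∃ R, R = (X : ℝ) * Real.log X ^ (-(η / 2)) := ⟨_, rfl⟩
  have hR0 : 0 ≤ R := by rw [hR]; positivity
  rw [mul_assoc, ← hR]
  have hcomp : ∀ e : ℝ, e ≤ -(η / 2) → (X : ℝ) * Real.log X ^ e ≤ R := by
    intro e he
    rw [hR]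
    exact mul_le_mul_of_nonneg_left (Real.rpow_le_rpow_of_exponent_le hl.le he) hX0
  rcases lt_or_ge (Real.log X ^ η) 8 with hsmall | hbig
  · -- small `X`
    have h1 : (S.card : ℝ) ≤ X := fe_card fun m hm => (hS m hm).1
    have h2 : Real.log X ≤ 8 ^ (1 / η) := by
      have h3 : (Real.log X ^ η) ^ (1 / η) ≤ 8 ^ (1 / η) :=
        Real.rpow_le_rpow (by positivity) hsmall.le (by positivity)
      rwa [← Real.rpow_mul hl0.le, mul_one_div_cancel hη.ne', Real.rpow_one] at h3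
    have h3 : Real.log X ^ (-(1 : ℝ)) ≤ Real.log X ^ (-(η / 2)) :=
      Real.rpow_le_rpow_of_exponent_le hl.le (by linarith)
    have h4 : (X : ℝ) ≤ 8 ^ (1 / η) * R := by
      have h5 : (1 : ℝ) ≤ 8 ^ (1 / η) * Real.log X ^ (-(1 : ℝ)) := by
        rw [Real.rpow_neg_one, ← div_eq_mul_inv, one_le_div hl0]
        exact h2
      have h6 : (0 : ℝ) ≤ 8 ^ (1 / η) := by positivity
      calc (X : ℝ) ≤ X * (8 ^ (1 / η) * Real.log X ^ (-(1 : ℝ))) := le_mul_of_one_le_right hX0 h5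
        _ ≤ X * (8 ^ (1 / η) * Real.log X ^ (-(η / 2))) := by gcongr
        _ = 8 ^ (1 / η) * R := by rw [hR]; ring
    have h5 : 0 ≤ (2 * |C₁| + |C₂| + |C₃|) * R := by positivity
    nlinarith
  -- the three classes
  obtain ⟨L, hL⟩ : ∃ L, L = Real.log X ^ η := ⟨_, rfl⟩
  rw [← hL] at hbig
  have hsplit : ∀ m ∈ S, (∃ l ∈ Icc 1 ⌊L⌋₊, ∃ c ∈ ({1, l} : Finset ℕ), l.Prime ∧ 5 ≤ l ∧
      ∃ a b : ℕ, a * b = m ∧ FitE l c a b) ∨
      (∃ l p q : ℕ, l.Prime ∧ Real.log X ^ η < (l : ℝ) ∧ p.Prime ∧ q.Prime ∧ p ≠ q ∧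
        p % l = 1 ∧ q % l = 1 ∧ p * q ∣ m) ∨
      (∃ a Q : ℕ, a * Q = m ∧ Q.Prime ∧
        ∀ p : ℕ, p.Prime → p ≠ 2 → p ∣ a → jacobiSym (Q : ℤ) p = 1) := by
    intro m hm
    obtain ⟨hmX, l, a, b, c, hlp, h5, hab, hfit, hc⟩ := hS m hm
    rcases le_or_gt (l : ℝ) L with hlL | hlL
    · left
      refine ⟨l, mem_Icc.2 ⟨by omega, Nat.le_floor hlL⟩, c, ?_, hlp, h5, a, b, hab, hfit⟩
      rcases hc with hc | hc
      · simp [hc]
      · simp [hc.1]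
    · right
      have hl5 : 5 < l := by
        have : (5 : ℝ) < l := by linarith
        exact_mod_cast this
      by_cases hbp : b.Prime
      · right
        refine ⟨a, b, hab, hbp, fun p hp hp2 hpa => ?_⟩
        have h1 := hfit.ca p hp hp2 hpa
        rcases hc with hc | hc
        · rwa [hc, one_mul] at h1
        · exact absurd hbp (hc.2 hl5)
      · left
        have hms := (mem_sqs.1 hmX).2.2
        rw [← hab] at hms
        obtain ⟨p, q, hp, hq, hpq, hd, hpb, hqb⟩ := fe_two hfit.one hms.of_mul_right hbp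
        refine ⟨l, p, q, hlp, by rw [← hL]; exact hlL, hp, hq, hpq, hfit.mem p hp hpb, hfit.mem q hq hqb, ?_⟩
        rw [← hab]
        exact hd.mul_left a
  obtain ⟨P₁, hP₁⟩ : ∃ P : ℕ → Prop, ∀ m, P m ↔ ∃ l ∈ Icc 1 ⌊L⌋₊, ∃ c ∈ ({1, l} : Finset ℕ), l.Prime ∧ 5 ≤ l ∧
      ∃ a b : ℕ, a * b = m ∧ FitE l c a b := ⟨_, fun _ => Iff.rfl⟩
  obtain ⟨S₁, hS₁⟩ : ∃ S₁, S₁ = S.filter P₁ := ⟨_, rfl⟩
  obtain ⟨S₂, hS₂⟩ : ∃ S₂, S₂ = S.filter (fun m => ∃ l p q : ℕ, l.Prime ∧ Real.log X ^ η < (l : ℝ) ∧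
      p.Prime ∧ q.Prime ∧ p ≠ q ∧ p % l = 1 ∧ q % l = 1 ∧ p * q ∣ m) := ⟨_, rfl⟩
  obtain ⟨S₃, hS₃⟩ : ∃ S₃, S₃ = S.filter (fun m => ∃ a Q : ℕ, a * Q = m ∧ Q.Prime ∧
        ∀ p : ℕ, p.Prime → p ≠ 2 → p ∣ a → jacobiSym (Q : ℤ) p = 1) := ⟨_, rfl⟩
  have hcov : S ⊆ S₁ ∪ (S₂ ∪ S₃) := by
    intro m hm
    rw [mem_union, mem_union, hS₁, hS₂, hS₃, mem_filter, mem_filter, mem_filter]
    rcases hsplit m hm with h | h | h
    · exact Or.inl ⟨hm, (hP₁ m).2 h⟩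
    · exact Or.inr (Or.inl ⟨hm, h⟩)
    · exact Or.inr (Or.inr ⟨hm, h⟩)
  have hcard : (S.card : ℝ) ≤ S₁.card + (S₂.card + S₃.card) := by
    have h1 := (card_le_card hcov).trans (card_union_le _ _)
    have h2 := card_union_le S₂ S₃
    exact_mod_cast h1.trans (Nat.add_le_add_left h2 _)
  have h3 : (S₃.card : ℝ) ≤ |C₃| * R := by
    have h1 := hpr X hX S₃ fun m hm => by
      rw [hS₃, mem_filter] at hm
      exact ⟨(hS m hm.1).1, hm.2⟩
    refine h1.trans ?_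
    rw [mul_assoc]
    have h2 := hcomp (-(1 / 32)) (by linarith)
    have h3 : 0 ≤ (X : ℝ) * Real.log X ^ (-(1 / 32 : ℝ)) := by positivity
    calc C₃ * ((X : ℝ) * Real.log X ^ (-(1 / 32 : ℝ))) ≤ |C₃| * ((X : ℝ) * Real.log X ^ (-(1 / 32 : ℝ))) := by
          gcongr
          exact le_abs_self _
      _ ≤ |C₃| * R := by gcongr
  have h2 : (S₂.card : ℝ) ≤ |C₂| * R := by
    have h1 := htw X hX S₂ fun m hm => by
      rw [hS₂, mem_filter] at hm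
      obtain ⟨e1, e2, -⟩ := mem_sqs.1 (hS m hm.1).1
      exact ⟨e1, e2, hm.2⟩
    refine h1.trans ?_
    rw [mul_assoc, ← hR]
    gcongr
    exact le_abs_self _
  have h1 : (S₁.card : ℝ) ≤ 2 * |C₁| * R := by
    have hbi : S₁ ⊆ (Icc 1 ⌊L⌋₊).biUnion fun l => ({1, l} : Finset ℕ).biUnion fun c =>
        S.filter (fun m => l.Prime ∧ 5 ≤ l ∧ ∃ a b : ℕ, a * b = m ∧ FitE l c a b) := by
      intro m hm
      rw [hS₁, mem_filter] at hm
      obtain ⟨hmS, hmP⟩ := hm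
      obtain ⟨l, hl1, c, hc, h⟩ := (hP₁ m).1 hmP
      rw [mem_biUnion]
      refine ⟨l, hl1, ?_⟩
      rw [mem_biUnion]
      exact ⟨c, hc, mem_filter.2 ⟨hmS, h⟩⟩
    obtain ⟨B, hB⟩ : ∃ B, B = |C₁| * ((X : ℝ) * Real.log X ^ (-(1 / 32 : ℝ))) := ⟨_, rfl⟩
    have hB0 : 0 ≤ B := by rw [hB]; positivity
    have hone : ∀ l ∈ Icc 1 ⌊L⌋₊, ∀ c ∈ ({1, l} : Finset ℕ),
        ((S.filter (fun m => l.Prime ∧ 5 ≤ l ∧ ∃ a b : ℕ, a * b = m ∧ FitE l c a b)).card : ℝ) ≤ B := by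
      intro l hl1 c hc
      by_cases hh : l.Prime ∧ 5 ≤ l
      · have hlL : (l : ℝ) ≤ Real.log X ^ η := by
          rw [← hL]
          have h4 := (mem_Icc.1 hl1).2
          exact (Nat.cast_le.2 h4).trans (Nat.floor_le (by linarith))
        have hc' : c = 1 ∨ c = l := by simpa using hc
        have h4 := hsm X hX l hh.1 hh.2 hlL c hc'
          (S.filter (fun m => l.Prime ∧ 5 ≤ l ∧ ∃ a b : ℕ, a * b = m ∧ FitE l c a b)) fun m hm => by
            rw [mem_filter] at hm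
            exact ⟨(hS m hm.1).1, hm.2.2.2⟩
        refine h4.trans ?_
        rw [hB, mul_assoc]
        gcongr
        exact le_abs_self _
      · have h4 : S.filter (fun m => l.Prime ∧ 5 ≤ l ∧ ∃ a b : ℕ, a * b = m ∧ FitE l c a b) = ∅ := by
          rw [filter_eq_empty_iff]
          intro m _ h
          exact hh ⟨h.1, h.2.1⟩
        rw [h4, card_empty, Nat.cast_zero]
        exact hB0
    have hin : ∀ l ∈ Icc 1 ⌊L⌋₊, (((({1, l} : Finset ℕ).biUnion fun c =>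
        S.filter (fun m => l.Prime ∧ 5 ≤ l ∧ ∃ a b : ℕ, a * b = m ∧ FitE l c a b)).card : ℕ) : ℝ) ≤ 2 * B := by
      intro l hl1
      have h4 := card_biUnion_le (s := ({1, l} : Finset ℕ)) (t := fun c =>
        S.filter (fun m => l.Prime ∧ 5 ≤ l ∧ ∃ a b : ℕ, a * b = m ∧ FitE l c a b))
      have h5 : ((∑ c ∈ ({1, l} : Finset ℕ), (S.filter (fun m => l.Prime ∧ 5 ≤ l ∧
          ∃ a b : ℕ, a * b = m ∧ FitE l c a b)).card : ℕ) : ℝ) ≤ ({1, l} : Finset ℕ).card • B := by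
        push_cast
        exact sum_le_card_nsmul _ _ _ (hone l hl1)
      have h6 : ((({1, l} : Finset ℕ).card : ℕ) : ℝ) ≤ 2 := by exact_mod_cast card_le_two
      rw [nsmul_eq_mul] at h5
      calc _ ≤ ((∑ c ∈ ({1, l} : Finset ℕ), (S.filter (fun m => l.Prime ∧ 5 ≤ l ∧
          ∃ a b : ℕ, a * b = m ∧ FitE l c a b)).card : ℕ) : ℝ) := by exact_mod_cast h4
        _ ≤ _ := h5
        _ ≤ 2 * B := by gcongr
    have h4 := (card_le_card hbi).trans card_biUnion_le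
    have h5 : ((∑ l ∈ Icc 1 ⌊L⌋₊, (({1, l} : Finset ℕ).biUnion fun c =>
        S.filter (fun m => l.Prime ∧ 5 ≤ l ∧ ∃ a b : ℕ, a * b = m ∧ FitE l c a b)).card : ℕ) : ℝ) ≤
        (Icc 1 ⌊L⌋₊).card • (2 * B) := by
      push_cast
      exact sum_le_card_nsmul _ _ _ hin
    rw [nsmul_eq_mul, Nat.card_Icc, Nat.add_sub_cancel] at h5
    have h6 : ((⌊L⌋₊ : ℕ) : ℝ) ≤ Real.log X ^ η := by
      rw [← hL]
      exact Nat.floor_le (by linarith)
    have h7 : Real.log X ^ η * Real.log X ^ (-(1 / 32 : ℝ)) ≤ Real.log X ^ (-(η / 2)) := by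
      rw [← Real.rpow_add hl0]
      exact Real.rpow_le_rpow_of_exponent_le hl.le (by linarith)
    calc (S₁.card : ℝ) ≤ ((⌊L⌋₊ : ℕ) : ℝ) * (2 * B) := (by exact_mod_cast h4 : (S₁.card : ℝ) ≤ _).trans h5
      _ ≤ Real.log X ^ η * (2 * B) := by gcongr
      _ = 2 * |C₁| * (X * (Real.log X ^ η * Real.log X ^ (-(1 / 32 : ℝ)))) := by rw [hB]; ring
      _ ≤ 2 * |C₁| * (X * Real.log X ^ (-(η / 2))) := by gcongr
      _ = 2 * |C₁| * R := by rw [hR]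
  have h4 : (0 : ℝ) ≤ 8 ^ (1 / η) * R := by positivity
  nlinarith

/-- `m` is hit by an exponent which is not prime to `6` -/
def Hit6 (m : ℕ) : Prop := ∃ x n k : ℕ, 1 < x ∧ 2 < n ∧ ¬ Nat.Coprime n 6 ∧ 0 < k ∧
  (x ^ n = m * k ^ 2 + 1 ∨ x ^ n + 1 = m * k ^ 2)

/-- Proof. `3 ∣ n` or `4 ∣ n`: `Hit`, `hit_sqf`. Otherwise `n = 2 n'`, `n'` odd, `n' > 1`, `3 ∤ n'`, so a prime `l ≥ 5` divides
`n'`, `n = 2 l j`: `(x^j)^(2 l) = m k^2 ± 1`: `arithE`, `rare_minus`, `rare_plus`. -/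
theorem hit6_sqf : RareE Hit6 := by
  have h0 : RareE Hit := hit_sqf
  refine ((h0.or rare_plus).or rare_minus).mono fun m hm h => ?_
  obtain ⟨x, n, k, hx, hn, hn6, hk, he⟩ := h
  by_cases h34 : 3 ∣ n ∨ 4 ∣ n
  · exact Or.inl (Or.inl ⟨x, n, k, hx, hn, h34, hk, he⟩)
  · have h3 : ¬ 3 ∣ n := fun h => h34 (Or.inl h)
    have h4 : ¬ 4 ∣ n := fun h => h34 (Or.inr h)
    have h2 : 2 ∣ n := by
      by_contra h2
      apply hn6
      have e2 : Nat.Coprime n 2 := (Nat.coprime_comm.1 ((Nat.Prime.coprime_iff_not_dvd Nat.prime_two).2 h2))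
      have e3 : Nat.Coprime n 3 := (Nat.coprime_comm.1 ((Nat.Prime.coprime_iff_not_dvd Nat.prime_three).2 h3))
      exact Nat.Coprime.mul_right e2 e3
    obtain ⟨n', rfl⟩ := h2
    have hn1 : n' ≠ 1 := by omega
    obtain ⟨l, hl, j, hj⟩ := Nat.exists_prime_and_dvd hn1
    have hl2 : l ≠ 2 := by
      rintro rfl
      exact h4 ⟨j, by rw [hj]; ring⟩
    have hl3 : l ≠ 3 := by
      rintro rfl
      exact h3 ⟨2 * j, by rw [hj]; ring⟩
    have hl5 : 5 ≤ l := by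
      have h1 := hl.two_le
      have h4 : l ≠ 4 := by
        rintro rfl
        exact absurd hl (by norm_num)
      omega
    have hj0 : j ≠ 0 := by
      rintro rfl
      omega
    have hxj : 2 ≤ x ^ j := le_trans hx (Nat.le_self_pow hj0 x)
    rcases he with he | he
    · right
      have e : (x ^ j) ^ (2 * l) = m * k ^ 2 + 1 := by
        rw [← he, ← pow_mul, hj]
        congr 1
        ring
      obtain ⟨a, b, c, hab, hfit, hc⟩ := arithE hxj hm hl hl5 e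
      exact ⟨l, a, b, c, hl, hl5, hab, hfit, hc⟩
    · left
      right
      exact ⟨x, n', k, he⟩

/-- Theorem 2. -/
theorem walsh_six : ∃ C c : ℝ, 0 < c ∧ ∀ X : ℕ, 2 ≤ X →
    (({m : ℕ | 1 ≤ m ∧ m ≤ X ∧ ∃ x y n : ℕ, 1 < x ∧ 1 < y ∧ 2 < n ∧ ¬ Nat.Coprime n 6 ∧
      (x ^ n = m ^ 3 * y ^ 2 + 1 ∨ x ^ n + 1 = m ^ 3 * y ^ 2)}.ncard : ℕ) : ℝ) ≤
      C * X / Real.log X ^ c := by
  obtain ⟨C, c, hc, h⟩ := rare_ncard Hit6 hit6_sqf (by
    rintro s t m hst hm ⟨x, n, k, hx, hn, hn6, hk, he⟩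
    have ht : 0 < t := by
      rcases Nat.eq_zero_or_pos t with h0 | h0
      · rw [h0] at hst
        omega
      · exact h0
    refine ⟨x, n, t * k, hx, hn, hn6, Nat.mul_pos ht hk, ?_⟩
    have e : s * (t * k) ^ 2 = m * k ^ 2 := by
      rw [← hst]
      ring
    rw [e]
    exact he)
  refine ⟨C, c, hc, fun X hX => (Nat.cast_le.2 (Set.ncard_le_ncard ?_ ?_)).trans (h X hX)⟩
  · rintro m ⟨h1, h2, x, y, n, hx, hy, hn, hn6, he⟩
    refine ⟨h1, h2, x, n, m * y, hx, hn, hn6, Nat.mul_pos h1 (by omega), ?_⟩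
    have e : m * (m * y) ^ 2 = m ^ 3 * y ^ 2 := by ring
    rw [e]
    exact he
  · refine (Set.finite_Icc 1 X).subset ?_
    rintro m ⟨h1, h2, -⟩
    exact ⟨h1, h2⟩

end Pool.Agent.Wal
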