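import Pool.Agent.Lib.MP_6498db_nt.E.Bt
import Pool.Agent.Lib.MP_6498db_nt.W.Mert

/-! WALSH, block E, row Sl: the primes `1` mod `l` have weight at most `1/4`, uniformly in `l ≥ 5`. -/

set_option autoImplicit false

namespace Pool.Agent.Wal

open Finset

/-- Proof. `C₀` of `sl_bt`; for `l ≥ l₀ = 4 C₀ + 1`: `sl_bt` gives `SL l X ≤ (1/4)(loglog X + log l + 1)`. For each of the
finitely many primes `5 ≤ l < l₀`: `mertAP l ε` with `r = 1`: `SL l X ≤ loglog X / (l - 1) + ε loglog X + C_l`,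
`l - 1 ≥ 4` (`p ≡ 1 [MOD l] ↔ p % l = 1`). `log l ≥ 1` absorbs constants. -/
theorem sl_quarter (ε : ℝ) (hε : 0 < ε) : ∃ C : ℝ, 0 < C ∧ ∀ l X : ℕ, l.Prime → 5 ≤ l → 3 ≤ X →
    SL l X ≤ (1 / 4 + ε) * Real.log (Real.log X) + C * Real.log l := by
  classical
  obtain ⟨C₀, hC₀, hbt⟩ := sl_bt
  have hcl : ∀ l : ℕ, ∃ C : ℝ, 0 ≤ C ∧ (5 ≤ l → l.Prime → ∀ X : ℕ, 3 ≤ X →
      SL l X ≤ (1 / 4 + ε) * Real.log (Real.log X) + C) := by
    intro l
    by_cases hl : 5 ≤ l
    · obtain ⟨C, hC⟩ := mertAP l (by omega) ε hε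
      refine ⟨|C|, abs_nonneg _, fun _ hp X hX => ?_⟩
      have h1 := hC 1 (Nat.coprime_one_left l) X hX
      have h2 : ∑ p ∈ (prs X).filter (fun p => p ≡ 1 [MOD l]), (1 : ℝ) / p = SL l X := by
        unfold SL
        refine Finset.sum_congr (Finset.filter_congr fun p _ => ?_) fun _ _ => rfl
        unfold Nat.ModEq
        rw [Nat.mod_eq_of_lt (by omega : 1 < l)]
      rw [h2] at h1
      have hX3 : (3 : ℝ) ≤ X := by exact_mod_cast hX
      have hlogX : 1 ≤ Real.log X := by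
        rw [Real.le_log_iff_exp_le (by linarith)]
        have := Real.exp_one_lt_d9
        linarith
      have hLL : 0 ≤ Real.log (Real.log X) := Real.log_nonneg hlogX
      have h3 : Real.log (Real.log X) / (l.totient : ℝ) ≤ 1 / 4 * Real.log (Real.log X) := by
        rw [Nat.totient_prime hp]
        have h4 : (4 : ℝ) ≤ ((l - 1 : ℕ) : ℝ) := by
          have : 4 ≤ l - 1 := by omega
          exact_mod_cast this
        rw [div_le_iff₀ (by linarith)]
        nlinarith
      have h5 := (abs_le.1 h1).2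
      have h6 := le_abs_self C
      nlinarith
    · exact ⟨0, le_rfl, fun h => absurd h hl⟩
  choose K hK0 hK using hcl
  obtain ⟨l₀, hl₀⟩ : ∃ l₀ : ℕ, 4 * C₀ ≤ l₀ := exists_nat_ge _
  refine ⟨1 + ∑ l ∈ range l₀, K l, by
    have := Finset.sum_nonneg fun l (_ : l ∈ range l₀) => hK0 l
    linarith, ?_⟩
  intro l X hp hl hX
  have hS : 0 ≤ ∑ l ∈ range l₀, K l := Finset.sum_nonneg fun l _ => hK0 l
  have hl5 : (5 : ℝ) ≤ l := by exact_mod_cast hl
  have hll : 1 ≤ Real.log l := by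
    rw [Real.le_log_iff_exp_le (by linarith)]
    have := Real.exp_one_lt_d9
    linarith
  have hX3 : (3 : ℝ) ≤ X := by exact_mod_cast hX
  have hlogX : 1 ≤ Real.log X := by
    rw [Real.le_log_iff_exp_le (by linarith)]
    have := Real.exp_one_lt_d9
    linarith
  have hLL : 0 ≤ Real.log (Real.log X) := Real.log_nonneg hlogX
  by_cases hlt : l < l₀
  · have h1 := hK l hl hp X hX
    have h2 : K l ≤ ∑ l ∈ range l₀, K l :=
      Finset.single_le_sum (fun i _ => hK0 i) (Finset.mem_range.2 hlt)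
    have h3 : K l ≤ (1 + ∑ l ∈ range l₀, K l) * Real.log l := by nlinarith
    linarith
  · have h1 := hbt l X hp hX
    have h2 : (l₀ : ℝ) ≤ l := by exact_mod_cast not_lt.1 hlt
    have h3 : C₀ * (Real.log (Real.log X) + Real.log l + 1) / l ≤
        1 / 4 * (Real.log (Real.log X) + Real.log l + 1) := by
      rw [div_le_iff₀ (by linarith)]
      nlinarith
    have h4 : 0 ≤ ε * Real.log (Real.log X) := by positivity
    have h5 : 0 ≤ (∑ l ∈ range l₀, K l) * Real.log l := by positivity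
    nlinarith

end Pool.Agent.Wal
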