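import Pool.Agent.Lib.MP_6498db_nt.E.Sl
import Pool.Agent.Lib.MP_6498db_nt.W.Hr

/-! WALSH, block E, row TypE: typical integers for the datum `datE l c`. -/

set_option autoImplicit false

namespace Pool.Agent.Wal

open Finset

private theorem typE_log {X : ℕ} (hX : 3 ≤ X) : 1 < Real.log X := by
  rw [Real.lt_log_iff_exp_lt (by positivity)]
  have h1 : Real.exp 1 < 3 := lt_trans Real.exp_one_lt_d9 (by norm_num)
  have h2 : (3 : ℝ) ≤ X := by exact_mod_cast hX
  linarith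

private theorem typE_z {δ : ℝ} {X : ℕ} (hX : 3 ≤ X) (hz : 3 ≤ zz δ X) :
    Real.log (Real.log (zz δ X)) ≤ δ * Real.log (Real.log X) := by
  have hl := typE_log hX
  have h2 : (zz δ X : ℝ) ≤ Real.exp (Real.log X ^ δ) := Nat.floor_le (Real.exp_pos _).le
  have hlz := typE_log hz
  have hz0 : (0 : ℝ) < zz δ X := by
    have : 0 < zz δ X := by omega
    exact_mod_cast this
  have h3 : Real.log (zz δ X) ≤ Real.log X ^ δ := by
    rw [← Real.log_exp (Real.log X ^ δ)]
    exact Real.log_le_log hz0 h2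
  rw [← Real.log_rpow (by linarith)]
  exact Real.log_le_log (by linarith) h3

/-- the primes between `z` and `X`. Proof. `mert_lo`, `mert_up`; `z = zz (1/64) X ≤ exp ((log X)^(1/64))`, so the sum of `1/p` over
`p ≤ z` is at most `(1/64) loglog X + C` (also if `z < 3`). -/
theorem rough_mert : ∃ C : ℝ, ∀ X : ℕ, 3 ≤ X →
    (63 / 64) * Real.log (Real.log X) - C ≤ ∑ p ∈ (prs X).filter (fun p => zz (1 / 64) X < p), (1 : ℝ) / p := by
  obtain ⟨C₀, hC₀⟩ := mert_lo
  obtain ⟨C₁, hC₁⟩ := mert_up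
  refine ⟨C₀ + |C₁| + 1, fun X hX => ?_⟩
  have hl := typE_log hX
  have hll : 0 ≤ Real.log (Real.log X) := Real.log_nonneg hl.le
  have h1 := hC₀ X hX
  have h2 := Finset.sum_filter_add_sum_filter_not (prs X) (fun p => zz (1 / 64) X < p)
    (fun p : ℕ => (1 : ℝ) / p)
  have h3 : ∑ p ∈ (prs X).filter (fun p => ¬ zz (1 / 64) X < p), (1 : ℝ) / p ≤
      1 / 64 * Real.log (Real.log X) + |C₁| + 1 := by
    by_cases hz : 3 ≤ zz (1 / 64) X
    · have h4 := hC₁ _ hz
      have h5 := typE_z hX hz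
      have h6 : ∑ p ∈ (prs X).filter (fun p => ¬ zz (1 / 64) X < p), (1 : ℝ) / p ≤
          ∑ p ∈ prs (zz (1 / 64) X), (1 : ℝ) / p := by
        refine Finset.sum_le_sum_of_subset_of_nonneg (fun p hp => ?_) fun p _ _ => by positivity
        obtain ⟨h7, h8⟩ := Finset.mem_filter.1 hp
        exact mem_prs.2 ⟨(mem_prs.1 h7).1, by omega⟩
      have h7 := le_abs_self C₁
      linarith
    · have h6 : ∑ p ∈ (prs X).filter (fun p => ¬ zz (1 / 64) X < p), (1 : ℝ) / p ≤
          ∑ p ∈ ({2} : Finset ℕ), (1 : ℝ) / p := by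
        refine Finset.sum_le_sum_of_subset_of_nonneg (fun p hp => ?_) fun p _ _ => by positivity
        obtain ⟨h7, h8⟩ := Finset.mem_filter.1 hp
        have h9 := (mem_prs.1 h7).1.two_le
        rw [Finset.mem_singleton]
        omega
      rw [Finset.sum_singleton] at h6
      push_cast at h6
      have h7 := abs_nonneg C₁
      have h8 : 0 ≤ 1 / 64 * Real.log (Real.log X) := by positivity
      linarith
  linarith

/-- Markov's inequality for the products `PF g`. -/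
private theorem typE_mark (g : ℕ → ℝ) (hg : ∀ p, 0 < g p) {X : ℕ} (hX : 3 ≤ X) {C E D : ℝ}
    (hC : 0 ≤ C) (h : ∑ m ∈ sqs X, PF (fun p => (g p)⁻¹) m ≤ C * X * Real.exp E)
    (hE : E ≤ -(3 / 16) * Real.log (Real.log X) + D) :
    (((sqs X).filter (fun m => PF g m < Real.log X ^ (1 / 16 : ℝ))).card : ℝ) ≤
      C * Real.exp D * X * Real.log X ^ (-(1 / 8 : ℝ)) := by
  have hl := typE_log hX
  have h0 : 0 < Real.log X := by linarith
  have hr16 : Real.log X ^ (1 / 16 : ℝ) = Real.exp (1 / 16 * Real.log (Real.log X)) := by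
    rw [Real.rpow_def_of_pos h0, mul_comm]
  have hr8 : Real.log X ^ (-(1 / 8 : ℝ)) = Real.exp (-(1 / 8) * Real.log (Real.log X)) := by
    rw [Real.rpow_def_of_pos h0, mul_comm]
  have hG0 : ∀ m, 0 < PF g m := fun m => Finset.prod_pos fun p _ => hg p
  have hinv : ∀ m, PF (fun p => (g p)⁻¹) m = (PF g m)⁻¹ := by
    intro m
    unfold PF
    rw [Finset.prod_inv_distrib]
  have hmark : ∀ m ∈ (sqs X).filter (fun m => PF g m < Real.log X ^ (1 / 16 : ℝ)),
      1 ≤ Real.log X ^ (1 / 16 : ℝ) * PF (fun p => (g p)⁻¹) m := by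
    intro m hm
    obtain ⟨-, hm2⟩ := Finset.mem_filter.1 hm
    rw [hinv, ← div_eq_mul_inv, one_le_div (hG0 m)]
    exact hm2.le
  have h16 : 0 ≤ Real.log X ^ (1 / 16 : ℝ) := (Real.rpow_pos_of_pos h0 _).le
  have hcard : (((sqs X).filter (fun m => PF g m < Real.log X ^ (1 / 16 : ℝ))).card : ℝ) ≤
      Real.log X ^ (1 / 16 : ℝ) * ∑ m ∈ sqs X, PF (fun p => (g p)⁻¹) m := by
    calc (((sqs X).filter (fun m => PF g m < Real.log X ^ (1 / 16 : ℝ))).card : ℝ)
        = ∑ m ∈ (sqs X).filter (fun m => PF g m < Real.log X ^ (1 / 16 : ℝ)), (1 : ℝ) := by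
          rw [Finset.sum_const, nsmul_eq_mul, mul_one]
      _ ≤ ∑ m ∈ (sqs X).filter (fun m => PF g m < Real.log X ^ (1 / 16 : ℝ)),
            Real.log X ^ (1 / 16 : ℝ) * PF (fun p => (g p)⁻¹) m := Finset.sum_le_sum hmark
      _ ≤ ∑ m ∈ sqs X, Real.log X ^ (1 / 16 : ℝ) * PF (fun p => (g p)⁻¹) m :=
          Finset.sum_le_sum_of_subset_of_nonneg (Finset.filter_subset _ _) fun m _ _ =>
            mul_nonneg h16 (by rw [hinv]; exact (inv_pos.2 (hG0 m)).le)
      _ = _ := (Finset.mul_sum _ _ _).symm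
  have h1 : Real.exp E ≤ Real.exp (-(3 / 16) * Real.log (Real.log X) + D) := Real.exp_le_exp.2 hE
  have h2 : C * X * Real.exp E ≤
      C * X * Real.exp (-(3 / 16) * Real.log (Real.log X) + D) :=
    mul_le_mul_of_nonneg_left h1 (by positivity)
  calc (((sqs X).filter (fun m => PF g m < Real.log X ^ (1 / 16 : ℝ))).card : ℝ)
      ≤ Real.log X ^ (1 / 16 : ℝ) *
          (C * X * Real.exp (-(3 / 16) * Real.log (Real.log X) + D)) :=
        hcard.trans (mul_le_mul_of_nonneg_left (h.trans h2) h16)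
    _ = C * Real.exp D * X * Real.log X ^ (-(1 / 8 : ℝ)) := by
        rw [hr16, hr8, Real.exp_add]
        have e1 : Real.exp (-(1 / 8) * Real.log (Real.log X)) =
            Real.exp (1 / 16 * Real.log (Real.log X)) *
              Real.exp (-(3 / 16) * Real.log (Real.log X)) := by
          rw [← Real.exp_add]
          congr 1
          ring
        rw [e1]
        ring

/-- Proof. `z = zz (1/64) X`. Markov: the number is at most `(log X)^(1/16) ∑_{m ∈ sqs X} PF f m` with `f p = 1 / lamE l p`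
(`1/2`, or `3/2` if `p % l = 1`) for `p > z`, `f p = 1` for `p ≤ z`. `hr`: the sum is at most
`C X exp(∑_{p ≤ X} (f p - 1)/p)`, `∑ (f p - 1)/p = - (1/2) ∑_{z < p ≤ X} 1/p + ∑_{z < p ≤ X, p % l = 1} 1/p
≤ - (63/128) loglog X + C + SL l X`. `sl_quarter` with `ε = 1/64`: `SL l X ≤ (17/64) loglog X + C₁ log l`,
`log l ≤ η loglog X`, `η = min (1/64) (1/(64 C₁))`. Total exponent `1/16 - 63/128 + 17/64 + 1/64 = - 19/128 ≤ -1/8`. -/
theorem typE : ∃ η : ℝ, 0 < η ∧ η ≤ 1 / 64 ∧ ∃ C : ℝ, ∀ X : ℕ, 3 ≤ X → ∀ l : ℕ, l.Prime → 5 ≤ l →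
    (l : ℝ) ≤ Real.log X ^ η →
    (((sqs X).filter (fun m => PF (fun p => if zz (1 / 64) X < p then lamE l p else 1) m <
      Real.log X ^ (1 / 16 : ℝ))).card : ℝ) ≤ C * X * Real.log X ^ (-(1 / 8 : ℝ)) := by
  obtain ⟨C₁, hC₁, hsl⟩ := sl_quarter (1 / 64) (by norm_num)
  obtain ⟨C₂, hC₂⟩ := rough_mert
  obtain ⟨C₃, hC₃, hhr⟩ := hr
  refine ⟨min (1 / 64) (1 / (64 * C₁)), lt_min (by norm_num) (by positivity), min_le_left _ _,
    C₃ * Real.exp (C₂ / 2), fun X hX l hl hl5 hlX => ?_⟩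
  have hlog := typE_log hX
  have hll : 0 ≤ Real.log (Real.log X) := Real.log_nonneg hlog.le
  obtain ⟨η, hη⟩ : ∃ η : ℝ, η = min (1 / 64) (1 / (64 * C₁)) := ⟨_, rfl⟩
  rw [← hη] at hlX
  have hη1 : C₁ * η ≤ 1 / 64 := by
    have h1 : η ≤ 1 / (64 * C₁) := hη ▸ min_le_right _ _
    calc C₁ * η ≤ C₁ * (1 / (64 * C₁)) := mul_le_mul_of_nonneg_left h1 hC₁.le
      _ = 1 / 64 := by field_simp
  have hl0 : (0 : ℝ) < l := by exact_mod_cast hl.pos
  have hloglen : Real.log l ≤ η * Real.log (Real.log X) := by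
    rw [← Real.log_rpow (by linarith)]
    exact Real.log_le_log hl0 hlX
  have hSL := hsl l X hl hl5 hX
  have hSL2 : SL l X ≤ 9 / 32 * Real.log (Real.log X) := by
    have h1 : C₁ * Real.log l ≤ C₁ * (η * Real.log (Real.log X)) :=
      mul_le_mul_of_nonneg_left hloglen hC₁.le
    have h2 : C₁ * η * Real.log (Real.log X) ≤ 1 / 64 * Real.log (Real.log X) :=
      mul_le_mul_of_nonneg_right hη1 hll
    nlinarith
  have hlam : ∀ p, 0 < lamE l p := by
    intro p
    unfold lamE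
    split_ifs <;> norm_num
  have hg : ∀ p : ℕ, 0 < (if zz (1 / 64) X < p then lamE l p else 1) := by
    intro p
    split_ifs
    · exact hlam p
    · exact one_pos
  have hf4 : ∀ p : ℕ, (if zz (1 / 64) X < p then lamE l p else (1 : ℝ))⁻¹ ≤ 4 := by
    intro p
    unfold lamE
    split_ifs <;> norm_num
  have h1 := hhr (fun p : ℕ => (if zz (1 / 64) X < p then lamE l p else 1)⁻¹)
    (fun p => (inv_pos.2 (hg p)).le) hf4 X (by omega)
  refine typE_mark _ hg hX (by linarith) h1 ?_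
  -- the exponent
  have h2 : ∑ p ∈ prs X, ((if zz (1 / 64) X < p then lamE l p else 1)⁻¹ - 1) / (p : ℝ) =
      -(1 / 2) * ∑ p ∈ (prs X).filter (fun p => zz (1 / 64) X < p), (1 : ℝ) / p +
        ∑ p ∈ (prs X).filter (fun p => zz (1 / 64) X < p ∧ p % l = 1), (1 : ℝ) / p := by
    rw [Finset.sum_filter, Finset.sum_filter, Finset.mul_sum, ← Finset.sum_add_distrib]
    refine Finset.sum_congr rfl fun p _ => ?_
    unfold lamE
    by_cases hz : zz (1 / 64) X < p
    · by_cases hp : p % l = 1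
      · rw [if_pos hz, if_pos hp, if_pos hz, if_pos ⟨hz, hp⟩]
        ring
      · rw [if_pos hz, if_neg hp, if_pos hz, if_neg fun h => hp h.2]
        ring
    · rw [if_neg hz, if_neg hz, if_neg fun h => hz h.1]
      simp
  have h3 : ∑ p ∈ (prs X).filter (fun p => zz (1 / 64) X < p ∧ p % l = 1), (1 : ℝ) / p ≤ SL l X := by
    unfold SL
    refine Finset.sum_le_sum_of_subset_of_nonneg (fun p hp => ?_) fun p _ _ => by positivity
    obtain ⟨h7, h8⟩ := Finset.mem_filter.1 hp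
    exact Finset.mem_filter.2 ⟨h7, h8.2⟩
  have h4 := hC₂ X hX
  rw [h2]
  linarith

/-- The same with the constant weight `2`: `f p = 1/2` for `p > z`; exponent `1/16 - 63/128 ≤ -1/8`. -/
theorem typ2 : ∃ C : ℝ, ∀ X : ℕ, 3 ≤ X →
    (((sqs X).filter (fun m => PF (fun p => if zz (1 / 64) X < p then 2 else 1) m <
      Real.log X ^ (1 / 16 : ℝ))).card : ℝ) ≤ C * X * Real.log X ^ (-(1 / 8 : ℝ)) := by
  obtain ⟨C₂, hC₂⟩ := rough_mert
  obtain ⟨C₃, hC₃, hhr⟩ := hr
  refine ⟨C₃ * Real.exp (C₂ / 2), fun X hX => ?_⟩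
  have hlog := typE_log hX
  have hll : 0 ≤ Real.log (Real.log X) := Real.log_nonneg hlog.le
  have hg : ∀ p : ℕ, 0 < (if zz (1 / 64) X < p then (2 : ℝ) else 1) := by
    intro p
    split_ifs <;> norm_num
  have hf4 : ∀ p : ℕ, (if zz (1 / 64) X < p then (2 : ℝ) else 1)⁻¹ ≤ 4 := by
    intro p
    split_ifs <;> norm_num
  have h1 := hhr (fun p : ℕ => (if zz (1 / 64) X < p then (2 : ℝ) else 1)⁻¹)
    (fun p => (inv_pos.2 (hg p)).le) hf4 X (by omega)
  refine typE_mark _ hg hX (by linarith) h1 ?_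
  have h2 : ∑ p ∈ prs X, ((if zz (1 / 64) X < p then (2 : ℝ) else 1)⁻¹ - 1) / (p : ℝ) =
      -(1 / 2) * ∑ p ∈ (prs X).filter (fun p => zz (1 / 64) X < p), (1 : ℝ) / p := by
    rw [Finset.sum_filter, Finset.mul_sum]
    refine Finset.sum_congr rfl fun p _ => ?_
    by_cases hz : zz (1 / 64) X < p
    · rw [if_pos hz, if_pos hz]
      ring
    · rw [if_neg hz, if_neg hz]
      simp
  have h4 := hC₂ X hX
  rw [h2]
  linarith

end Pool.Agent.Wal
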